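import Pool.Agent.Work.MP_6b8b27_co.Odd

namespace Pool.Agent.Work.MP_6b8b27_co

open SimpleGraph List

set_option linter.unusedSimpArgs false
set_option linter.unnecessarySeqFocus false

/-! ### general facts -/

/-- In a graph containing a Hamiltonian cycle every vertex has two different neighbours. -/
theorem two_nbrs {n : ℕ} (hn : 3 ≤ n) {G : SimpleGraph (Fin n)}
    (h : (cycleGraph n).IsContained G) (v : Fin n) : ∃ a b, a ≠ b ∧ G.Adj v a ∧ G.Adj v b := by
  obtain ⟨m, rfl⟩ : ∃ m, n = m + 3 := ⟨n - 3, by omega⟩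
  obtain ⟨f⟩ := h
  have hbij := Finite.injective_iff_bijective.mp f.injective'
  obtain ⟨i, rfl⟩ := hbij.2 v
  refine ⟨f.toHom (i + 1), f.toHom (i - 1), ?_, ?_, ?_⟩
  · intro he
    have h1 : i + 1 = i - 1 := f.injective' he
    have h2 : (1 : Fin (m + 3)) + 1 = 0 := by
      have h3 : i + 1 + 1 = i := by rw [h1]; simp
      have h4 : i + (1 + 1) = i + 0 := by rw [← add_assoc, h3, add_zero]
      exact add_left_cancel h4
    have h5 := congrArg Fin.val h2
    simp only [Fin.val_add, Fin.val_one, Fin.val_zero] at h5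
    rw [Nat.mod_eq_of_lt (by omega)] at h5
    omega
  · apply f.toHom.map_adj
    rw [cycleGraph_adj]
    right
    simp
  · apply f.toHom.map_adj
    rw [cycleGraph_adj]
    left
    simp

/-- A Hamiltonian path has an end: a vertex with at most one neighbour. -/
theorem path_end {n : ℕ} (hn : 3 ≤ n) {P : SimpleGraph (Fin n)} (h : IsHamPath P) :
    ∃ v w, ∀ c, P.Adj v c → c = w := by
  obtain ⟨e⟩ := h
  refine ⟨e ⟨0, by omega⟩, e ⟨1, by omega⟩, ?_⟩
  intro c hc
  obtain ⟨i, rfl⟩ := e.surjective c
  rw [e.map_adj_iff, pathGraph_adj] at hc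
  simp only at hc
  congr 1
  apply Fin.ext
  simp only
  omega

theorem not_HC_self {n : ℕ} (hn : 3 ≤ n) {P : SimpleGraph (Fin n)} (h : IsHamPath P) :
    ¬ HC P P := by
  intro hh
  unfold HC at hh
  rw [sup_idem] at hh
  obtain ⟨v, w, hvw⟩ := path_end hn h
  obtain ⟨a, b, hab, h1, h2⟩ := two_nbrs hn hh v
  exact hab ((hvw a h1).trans (hvw b h2).symm)

theorem family_of_fun {n : ℕ} (hn : 3 ≤ n) {ι : Type} [Fintype ι] (f : ι → SimpleGraph (Fin n))
    (h1 : ∀ i, IsHamPath (f i)) (h2 : ∀ i j, i ≠ j → HC (f i) (f j)) :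
    ∃ F : Finset (SimpleGraph (Fin n)), IsHamCycleDifferentFamily F ∧
      F.card = Fintype.card ι := by
  classical
  have hinj : Function.Injective f := by
    intro i j hij
    by_contra hne
    have := h2 i j hne
    rw [hij] at this
    exact not_HC_self hn (h1 j) this
  refine ⟨Finset.univ.image f, ⟨?_, ?_⟩, ?_⟩
  · intro P hP
    rw [Finset.mem_image] at hP
    obtain ⟨i, -, rfl⟩ := hP
    exact h1 i
  · intro P hP Q hQ hne
    rw [Finset.mem_image] at hP hQ
    obtain ⟨i, -, rfl⟩ := hP
    obtain ⟨j, -, rfl⟩ := hQ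
    exact h2 i j (fun h => hne (by rw [h]))
  · rw [Finset.card_image_of_injective _ hinj]
    rfl

variable {n : ℕ} [NeZero n]

/-! ### even `n` -/

/-- block path, even case -/
def blk (n : ℕ) [NeZero n] (x d : ℤ) : SimpleGraph (Fin n) :=
  if d = 2 then gr n (TA n x) else if d = n - 2 then gr n (TB n x) else gr n (TP n x d)

theorem blk_path {x d : ℤ} (hn : 9 ≤ n) (hd : 2 ≤ d) (hd' : d ≤ n - 2) : IsHamPath (blk n x d) := by
  unfold blk
  split_ifs with h1 h2
  · exact isHamPath_gr (covA hn)
  · exact isHamPath_gr (covB hn)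
  · exact isHamPath_gr (covP hn hd hd')

theorem blk_blk {x y d e : ℤ} (hn : 9 ≤ n) (h : Sep n x y) (hd : 2 ≤ d) (hd' : d ≤ n - 2)
    (he : 2 ≤ e) (he' : e ≤ n - 2) : HC (blk n x d) (blk n y e) := by
  unfold blk
  split_ifs with h1 h2 h3 h4 h5 h6 h7 h8
  · exact AA hn h
  · exact AB hn h
  · exact AP hn h (by omega) (by omega)
  · exact (AB hn h.symm).symm
  · exact BB hn h
  · exact BP hn h (by omega) (by omega)
  · exact (AP hn h.symm (by omega) (by omega)).symm
  · exact (BP hn h.symm (by omega) (by omega)).symm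
  · exact PP hn h (by omega) (by omega) (by omega) (by omega)

theorem blk_same {x d e : ℤ} (hn : 9 ≤ n) (hd : 2 ≤ d) (hde : d < e) (he' : e ≤ n - 2) :
    HC (blk n x d) (blk n x e) := by
  unfold blk
  split_ifs with h1 h2 h3 h4 h5 h6 h7 h8
  · omega
  · exact AB_same hn
  · exact AP_same hn (by omega) (by omega)
  · omega
  · omega
  · omega
  · omega
  · exact PB_same hn (by omega) (by omega)
  · exact PP_same hn hd hde he'

theorem blk_C {x d j : ℤ} (hn : 9 ≤ n) (hx : 0 ≤ x) (hx' : x < n) (hd : 2 ≤ d) (hd' : d ≤ n - 2)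
    (hj : 0 ≤ j) (hj' : j < n) : HC (blk n x d) (gr n (TC n j)) := by
  unfold blk
  split_ifs with h1 h2
  · exact AC hn hx hx' hj hj'
  · exact BC hn hx hx' hj hj'
  · exact PC hn hd hd' hx hx' hj hj'

/-- index set in the even case -/
def fE (n : ℕ) [NeZero n] : (Fin (n / 2) × Fin (n - 3)) ⊕ Fin n → SimpleGraph (Fin n)
  | Sum.inl (k, d) => blk n (2 * (k.val : ℤ)) ((d.val : ℤ) + 2)
  | Sum.inr j => gr n (TC n (j.val : ℤ))

theorem fE_path (hn : 9 ≤ n) (i) : IsHamPath (fE n i) := by
  rcases i with ⟨k, d⟩ | j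
  · have := d.isLt
    exact blk_path hn (by omega) (by omega)
  · exact isHamPath_gr (covC hn)

theorem fE_HC (hn : 9 ≤ n) (hev : n % 2 = 0) (i j) (hij : i ≠ j) : HC (fE n i) (fE n j) := by
  rcases i with ⟨k, d⟩ | i <;> rcases j with ⟨l, e⟩ | j
  · have hk := k.isLt
    have hl := l.isLt
    have hd := d.isLt
    have he := e.isLt
    simp only [fE]
    by_cases hkl : k = l
    · subst hkl
      have hde : d.val ≠ e.val := by
        intro h
        exact hij (by rw [Fin.ext h])
      rcases lt_or_gt_of_ne hde with h | h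
      · exact blk_same hn (by omega) (by omega) (by omega)
      · exact (blk_same hn (by omega) (by omega) (by omega)).symm
    · have hkl' : k.val ≠ l.val := fun h => hkl (Fin.ext h)
      apply blk_blk hn ?_ (by omega) (by omega) (by omega) (by omega)
      constructor <;> omega
  · have hk := k.isLt
    have hd := d.isLt
    have hj := j.isLt
    exact blk_C hn (by omega) (by omega) (by omega) (by omega) (by omega) (by omega)
  · have hk := l.isLt
    have hd := e.isLt
    have hj := i.isLt
    exact (blk_C hn (by omega) (by omega) (by omega) (by omega) (by omega) (by omega)).symm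
  · have hi := i.isLt
    have hj := j.isLt
    have hne : i.val ≠ j.val := fun h => hij (by rw [Fin.ext h])
    exact CC hn (by omega) (by omega) (by omega) (by omega) (by omega)

/-! ### odd `n` -/

/-- block path, odd case -/
def blkO (n : ℕ) [NeZero n] (x d : ℤ) : SimpleGraph (Fin n) :=
  if d = 2 then gr n (TA n x) else if d = n - 2 then
    (if x = 2 then gr n (TL n) else gr n (TB n x)) else gr n (TP n x d)

theorem blkO_path {x d : ℤ} (hn : 9 ≤ n) (hd : 2 ≤ d) (hd' : d ≤ n - 2) :
    IsHamPath (blkO n x d) := by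
  unfold blkO
  split_ifs with h1 h2 h3
  · exact isHamPath_gr (covA hn)
  · exact isHamPath_gr (covL hn)
  · exact isHamPath_gr (covB hn)
  · exact isHamPath_gr (covP hn hd hd')

/-- position of a block in the odd case -/
structure Pos (n : ℕ) (x : ℤ) : Prop where
  lo : 2 ≤ x
  hi : x ≤ n - 3
  ev : x % 2 = 0
  od : (n : ℤ) % 2 = 1

omit [NeZero n] in
theorem Pos.sep {x y : ℤ} (hx : Pos n x) (hy : Pos n y) (h : x ≠ y) : Sep n x y := by
  obtain ⟨a, b, c, d⟩ := hx
  obtain ⟨a', b', c', -⟩ := hy
  constructor <;> omega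

theorem blkO_L {x d : ℤ} (hn : 9 ≤ n) (hx : Pos n x) (hd : 2 ≤ d) (hd' : d ≤ n - 2)
    (h : x ≠ 2 ∨ d ≠ n - 2) : HC (blkO n x d) (gr n (TL n)) := by
  obtain ⟨a, b, c, e⟩ := hx
  unfold blkO
  split_ifs with h1 h2 h3
  · by_cases k : x = 2
    · subst k
      exact AL_same hn
    · exact LA hn (by omega)
  · omega
  · exact LB hn (by omega)
  · by_cases k : x = 2
    · subst k
      exact PL_same hn (by omega) (by omega)
    · exact LP hn (by omega) (by omega) (by omega)

theorem blkO_blkO {x y d e : ℤ} (hn : 9 ≤ n) (hx : Pos n x) (hy : Pos n y) (h : x ≠ y)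
    (hd : 2 ≤ d) (hd' : d ≤ n - 2) (he : 2 ≤ e) (he' : e ≤ n - 2) :
    HC (blkO n x d) (blkO n y e) := by
  by_cases h1 : x = 2 ∧ d = n - 2
  · have e1 : blkO n x d = gr n (TL n) := by
      unfold blkO
      rw [if_neg (by omega), if_pos h1.2, if_pos h1.1]
    rw [e1]
    exact (blkO_L hn hy he he' (by omega)).symm
  · by_cases h2 : y = 2 ∧ e = n - 2
    · have e1 : blkO n y e = gr n (TL n) := by
        unfold blkO
        rw [if_neg (by omega), if_pos h2.2, if_pos h2.1]
      rw [e1]
      exact blkO_L hn hx hd hd' (by omega)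
    · have e1 : blkO n x d = blk n x d := by
        unfold blkO blk
        split_ifs with k1 k2 k3
        · rfl
        · omega
        · rfl
        · rfl
      have e2 : blkO n y e = blk n y e := by
        unfold blkO blk
        split_ifs with k1 k2 k3
        · rfl
        · omega
        · rfl
        · rfl
      rw [e1, e2]
      exact blk_blk hn (hx.sep hy h) hd hd' he he'

theorem blkO_same {x d e : ℤ} (hn : 9 ≤ n) (hx : Pos n x) (hd : 2 ≤ d) (hde : d < e)
    (he' : e ≤ n - 2) : HC (blkO n x d) (blkO n x e) := by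
  by_cases h2 : x = 2 ∧ e = n - 2
  · have e1 : blkO n x e = gr n (TL n) := by
      unfold blkO
      rw [if_neg (by omega), if_pos h2.2, if_pos h2.1]
    rw [e1]
    exact blkO_L hn hx hd (by omega) (by omega)
  · have e1 : blkO n x d = blk n x d := by
      unfold blkO blk
      split_ifs with k1 k2 k3
      · rfl
      · omega
      · rfl
      · rfl
    have e2 : blkO n x e = blk n x e := by
      unfold blkO blk
      split_ifs with k1 k2 k3
      · rfl
      · omega
      · rfl
      · rfl
    rw [e1, e2]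
    exact blk_same hn hd hde he'

theorem blkO_C {x d j : ℤ} (hn : 9 ≤ n) (hx : Pos n x) (hd : 2 ≤ d) (hd' : d ≤ n - 2)
    (hj : 0 ≤ j) (hj' : j < n) : HC (blkO n x d) (gr n (TC n j)) := by
  obtain ⟨a, b, c, e⟩ := hx
  unfold blkO
  split_ifs with h1 h2
  · exact AC hn (by omega) (by omega) hj hj'
  · exact LC hn hj hj'
  · exact BC hn (by omega) (by omega) hj hj'
  · exact PC hn hd hd' (by omega) (by omega) hj hj'

theorem blkO_U {x d u : ℤ} (hn : 9 ≤ n) (hx : Pos n x) (hd : 2 ≤ d) (hd' : d ≤ n - 2)
    (hu : 3 ≤ u) (hu' : u ≤ n - 2) (huo : u % 2 = 1) : HC (blkO n x d) (gr n (TP n 0 u)) := by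
  obtain ⟨a, b, c, e⟩ := hx
  unfold blkO
  split_ifs with h1 h2
  · exact AU hn hu hu' a b (by omega)
  · exact LU hn hu hu'
  · exact BU hn hu hu' a b (by omega)
  · exact PU hn hu hu' a b (by omega) (by omega) (by omega)

theorem blkO_M {x d c : ℤ} (hn : 9 ≤ n) (hx : Pos n x) (hd : 2 ≤ d) (hd' : d ≤ n - 2)
    (hc : 2 ≤ c) (hc' : c ≤ n - 3) : HC (blkO n x d) (gr n (TM n c)) := by
  obtain ⟨a, b, c, e⟩ := hx
  unfold blkO
  split_ifs with h1 h2
  · exact AM hn hc hc' a b (by omega) (by omega)
  · exact LM hn hc hc'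
  · exact BM hn hc hc' (by omega) b (by omega)
  · exact PM hn hc hc' a b (by omega) (by omega) (by omega) (by omega)

theorem blkO_D {x d c : ℤ} (hn : 9 ≤ n) (hx : Pos n x) (hd : 2 ≤ d) (hd' : d ≤ n - 2)
    (hc : 1 ≤ c) (hc' : c ≤ n - 4) (hco : c % 2 = 1) : HC (blkO n x d) (gr n (TD n c)) := by
  obtain ⟨a, b, c, e⟩ := hx
  unfold blkO
  split_ifs with h1 h2
  · exact AD hn hc hc' a b (by omega) (by omega)
  · exact LD hn hc hc' (by omega)
  · exact BD hn hc hc' (by omega) b (by omega)
  · exact PD hn hc hc' a b (by omega) (by omega) (by omega)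

/-- index set in the odd case, `n = 2 m + 3` -/
def fO (n m : ℕ) [NeZero n] :
    (Fin m × Fin (n - 3)) ⊕ (Fin m ⊕ Fin m ⊕ Fin m) ⊕ Fin n → SimpleGraph (Fin n)
  | Sum.inl (k, d) => blkO n (2 * (k.val : ℤ) + 2) ((d.val : ℤ) + 2)
  | Sum.inr (Sum.inl (Sum.inl k)) => gr n (TP n 0 (2 * (k.val : ℤ) + 3))
  | Sum.inr (Sum.inl (Sum.inr (Sum.inl k))) => gr n (TM n (2 * (k.val : ℤ) + 2))
  | Sum.inr (Sum.inl (Sum.inr (Sum.inr k))) => gr n (TD n (2 * (k.val : ℤ) + 1))
  | Sum.inr (Sum.inr j) => gr n (TC n (j.val : ℤ))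

theorem fO_path {m : ℕ} (hn : 9 ≤ n) (hm : n = 2 * m + 3) (i) : IsHamPath (fO n m i) := by
  rcases i with ⟨k, d⟩ | (k | k | k) | j
  · have := d.isLt
    exact blkO_path hn (by omega) (by omega)
  · have := k.isLt
    exact isHamPath_gr (covP hn (by omega) (by omega))
  · have := k.isLt
    exact isHamPath_gr (covM hn (by omega) (by omega))
  · have := k.isLt
    exact isHamPath_gr (covD hn (by omega) (by omega))
  · exact isHamPath_gr (covC hn)

/-! ### odd main -/

theorem fO_HC {m : ℕ} (hn : 9 ≤ n) (hm : n = 2 * m + 3) (i j) (hij : i ≠ j) :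
    HC (fO n m i) (fO n m j) := by
  rcases i with ⟨k, d⟩ | (k | k | k) | i <;> rcases j with ⟨l, e⟩ | (l | l | l) | j
  · have hk := k.isLt
    have hd := d.isLt
    have hl := l.isLt
    have he := e.isLt
    simp only [fO]
    by_cases hkl : k = l
    · subst hkl
      have hde : d.val ≠ e.val := by
        intro h
        exact hij (by rw [Fin.ext h])
      rcases lt_or_gt_of_ne hde with h | h
      · exact blkO_same hn (show Pos n (2 * (k.val : ℤ) + 2) by constructor <;> omega) (by omega) (by omega) (by omega)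
      · exact (blkO_same hn (show Pos n (2 * (k.val : ℤ) + 2) by constructor <;> omega) (by omega) (by omega) (by omega)).symm
    · have hkl' : k.val ≠ l.val := fun h => hkl (Fin.ext h)
      exact blkO_blkO hn (show Pos n (2 * (k.val : ℤ) + 2) by constructor <;> omega) (show Pos n (2 * (l.val : ℤ) + 2) by constructor <;> omega) (by omega) (by omega) (by omega) (by omega) (by omega)
  · have hk := k.isLt
    have hd := d.isLt
    have hl := l.isLt
    exact blkO_U hn (show Pos n (2 * (k.val : ℤ) + 2) by constructor <;> omega) (by omega) (by omega) (by omega) (by omega) (by omega)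
  · have hk := k.isLt
    have hd := d.isLt
    have hl := l.isLt
    exact blkO_M hn (show Pos n (2 * (k.val : ℤ) + 2) by constructor <;> omega) (by omega) (by omega) (by omega) (by omega)
  · have hk := k.isLt
    have hd := d.isLt
    have hl := l.isLt
    exact blkO_D hn (show Pos n (2 * (k.val : ℤ) + 2) by constructor <;> omega) (by omega) (by omega) (by omega) (by omega) (by omega)
  · have hk := k.isLt
    have hd := d.isLt
    have hj := j.isLt
    exact blkO_C hn (show Pos n (2 * (k.val : ℤ) + 2) by constructor <;> omega) (by omega) (by omega) (by omega) (by omega)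
  · have hk := k.isLt
    have hl := l.isLt
    have he := e.isLt
    exact (blkO_U hn (show Pos n (2 * (l.val : ℤ) + 2) by constructor <;> omega) (by omega) (by omega) (by omega) (by omega) (by omega)).symm
  · have hk := k.isLt
    have hl := l.isLt
    have hne : k.val ≠ l.val := fun h => hij (by rw [Fin.ext h])
    rcases lt_or_gt_of_ne hne with h | h
    · exact PP_same hn (by omega) (by omega) (by omega)
    · exact (PP_same hn (by omega) (by omega) (by omega)).symm
  · have hk := k.isLt
    have hl := l.isLt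
    exact UM hn (by omega) (by omega) (by omega) (by omega) (by omega)
  · have hk := k.isLt
    have hl := l.isLt
    exact UD hn (by omega) (by omega) (by omega) (by omega) (by omega)
  · have hk := k.isLt
    have hj := j.isLt
    exact PC hn (by omega) (by omega) (by omega) (by omega) (by omega) (by omega)
  · have hk := k.isLt
    have hl := l.isLt
    have he := e.isLt
    exact (blkO_M hn (show Pos n (2 * (l.val : ℤ) + 2) by constructor <;> omega) (by omega) (by omega) (by omega) (by omega)).symm
  · have hk := k.isLt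
    have hl := l.isLt
    exact (UM hn (by omega) (by omega) (by omega) (by omega) (by omega)).symm
  · have hk := k.isLt
    have hl := l.isLt
    have hne : k.val ≠ l.val := fun h => hij (by rw [Fin.ext h])
    rcases lt_or_gt_of_ne hne with h | h
    · exact MM hn (by omega) (by omega) (by omega)
    · exact (MM hn (by omega) (by omega) (by omega)).symm
  · have hk := k.isLt
    have hl := l.isLt
    exact (DM hn (by omega) (by omega) (by omega) (by omega) (by omega)).symm
  · have hk := k.isLt
    have hj := j.isLt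
    exact MC hn (by omega) (by omega) (by omega) (by omega)
  · have hk := k.isLt
    have hl := l.isLt
    have he := e.isLt
    exact (blkO_D hn (show Pos n (2 * (l.val : ℤ) + 2) by constructor <;> omega) (by omega) (by omega) (by omega) (by omega) (by omega)).symm
  · have hk := k.isLt
    have hl := l.isLt
    exact (UD hn (by omega) (by omega) (by omega) (by omega) (by omega)).symm
  · have hk := k.isLt
    have hl := l.isLt
    exact DM hn (by omega) (by omega) (by omega) (by omega) (by omega)
  · have hk := k.isLt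
    have hl := l.isLt
    have hne : k.val ≠ l.val := fun h => hij (by rw [Fin.ext h])
    rcases lt_or_gt_of_ne hne with h | h
    · exact DD hn (by omega) (by omega) (by omega)
    · exact (DD hn (by omega) (by omega) (by omega)).symm
  · have hk := k.isLt
    have hj := j.isLt
    exact DC hn (by omega) (by omega) (by omega) (by omega)
  · have hi := i.isLt
    have hl := l.isLt
    have he := e.isLt
    exact (blkO_C hn (show Pos n (2 * (l.val : ℤ) + 2) by constructor <;> omega) (by omega) (by omega) (by omega) (by omega)).symm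
  · have hi := i.isLt
    have hl := l.isLt
    exact (PC hn (by omega) (by omega) (by omega) (by omega) (by omega) (by omega)).symm
  · have hi := i.isLt
    have hl := l.isLt
    exact (MC hn (by omega) (by omega) (by omega) (by omega)).symm
  · have hi := i.isLt
    have hl := l.isLt
    exact (DC hn (by omega) (by omega) (by omega) (by omega)).symm
  · have hi := i.isLt
    have hj := j.isLt
    have hne : i.val ≠ j.val := fun h => hij (by rw [Fin.ext h])
    exact CC hn (by omega) (by omega) (by omega) (by omega) (by omega)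

/-! ### the lower bound for `n ≥ 9` -/

omit [NeZero n] in
theorem lower_large (hn : 9 ≤ n) : ∃ F : Finset (SimpleGraph (Fin n)),
    IsHamCycleDifferentFamily F ∧ F.card = n.choose 2 := by
  have : NeZero n := ⟨by omega⟩
  rcases Nat.even_or_odd' n with ⟨k, hk | hk⟩
  · obtain ⟨F, hF, hc⟩ := family_of_fun (by omega) (fE n) (fE_path hn) (fE_HC hn (by omega))
    refine ⟨F, hF, ?_⟩
    rw [hc]
    simp only [Fintype.card_sum, Fintype.card_prod, Fintype.card_fin]
    have h1 : n / 2 = k := by omega
    rw [h1, Nat.choose_two_right, hk]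
    obtain ⟨t, rfl⟩ : ∃ t, k = t + 5 := ⟨k - 5, by omega⟩
    have h2 : 2 * (t + 5) - 3 = 2 * t + 7 := by omega
    have h3 : 2 * (t + 5) - 1 = 2 * t + 9 := by omega
    rw [h2, h3, mul_assoc, Nat.mul_div_cancel_left _ (by norm_num)]
    ring
  · obtain ⟨m, rfl⟩ : ∃ m, k = m + 1 := ⟨k - 1, by omega⟩
    obtain ⟨F, hF, hc⟩ := family_of_fun (by omega) (fO n m) (fO_path hn (by omega))
      (fO_HC hn (by omega))
    refine ⟨F, hF, ?_⟩
    rw [hc]
    simp only [Fintype.card_sum, Fintype.card_prod, Fintype.card_fin]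
    rw [Nat.choose_two_right, hk]
    have h2 : 2 * (m + 1) + 1 - 3 = 2 * m := by omega
    have h3 : 2 * (m + 1) + 1 - 1 = 2 * (m + 1) := by omega
    rw [h2, h3]
    have h4 : (2 * (m + 1) + 1) * (2 * (m + 1)) = 2 * ((2 * (m + 1) + 1) * (m + 1)) := by ring
    rw [h4, Nat.mul_div_cancel_left _ (by norm_num)]
    ring

end Pool.Agent.Work.MP_6b8b27_co
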