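import Pool.Agent.Work.MP_6b8b27_co.Defs

namespace Pool.Agent.Work.MP_6b8b27_co

open SimpleGraph List

/-- consecutive entries of a list -/
def Nxt {α : Type*} (L : List α) (a b : α) : Prop := [a, b] <:+: L

theorem nxt_iff {α : Type*} {L : List α} {a b : α} :
    Nxt L a b ↔ ∃ i, ∃ h : i + 1 < L.length, L[i] = a ∧ L[i + 1] = b := by
  unfold Nxt
  rw [List.infix_iff_getElem?]
  constructor
  · rintro ⟨k, hk, H⟩
    simp only [List.length_cons, List.length_nil] at hk H
    refine ⟨k, by omega, ?_, ?_⟩
    · have := H 0 (by omega)
      simp only [Nat.zero_add, List.getElem_cons_zero] at this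
      rw [List.getElem?_eq_getElem (by omega)] at this
      simpa using this
    · have := H 1 (by omega)
      simp only [List.getElem_cons_succ, List.getElem_cons_zero] at this
      rw [List.getElem?_eq_getElem (by omega)] at this
      have h2 := Option.some.inj this
      rw [← h2]
      congr 1
      omega
  · rintro ⟨i, hi, h1, h2⟩
    refine ⟨i, by simp only [List.length_cons, List.length_nil]; omega, ?_⟩
    intro j hj
    simp only [List.length_cons, List.length_nil] at hj
    rcases (show j = 0 ∨ j = 1 by omega) with rfl | rfl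
    · simp only [Nat.zero_add, List.getElem_cons_zero]
      rw [List.getElem?_eq_getElem (by omega), h1]
    · simp only [List.getElem_cons_succ, List.getElem_cons_zero]
      rw [List.getElem?_eq_getElem (by omega)]
      rw [← h2]
      congr 2
      omega

/-- the graph whose edges join consecutive entries of the list -/
def ofList {V : Type*} (L : List V) : SimpleGraph V where
  Adj u v := u ≠ v ∧ (Nxt L u v ∨ Nxt L v u)
  symm := ⟨fun _ _ h => ⟨h.1.symm, h.2.symm⟩⟩
  loopless := ⟨fun _ h => h.1 rfl⟩

theorem isHamPath_ofList {n : ℕ} (L : List (Fin n)) (hnd : L.Nodup) (hl : L.length = n) :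
    IsHamPath (ofList L) := by
  let f : Fin n → Fin n := fun i => L[i.val]'(by omega)
  have hinj : Function.Injective f := fun i j h => Fin.ext ((hnd.getElem_inj_iff).mp h)
  have hbij := Finite.injective_iff_bijective.mp hinj
  refine ⟨⟨Equiv.ofBijective f hbij, ?_⟩⟩
  intro i j
  have key : ∀ i j : Fin n, Nxt L (f i) (f j) ↔ i.val + 1 = j.val := by
    intro i j
    rw [nxt_iff]
    constructor
    · rintro ⟨k, hk, h1, h2⟩
      have e1 : k = i.val := (hnd.getElem_inj_iff).mp h1
      have e2 : k + 1 = j.val := (hnd.getElem_inj_iff).mp h2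
      omega
    · intro h
      refine ⟨i.val, by have := j.isLt; omega, rfl, ?_⟩
      simp only [f, h]
  simp only [Equiv.ofBijective_apply, ofList, key, pathGraph_adj]
  constructor
  · rintro ⟨-, h⟩
    exact h
  · intro h
    refine ⟨?_, h⟩
    intro he
    have := hinj he
    subst this
    omega

theorem hamCycle_of_list {n : ℕ} (G : SimpleGraph (Fin n)) (K : List (Fin n)) (hn : 3 ≤ n)
    (hnd : K.Nodup) (hl : K.length = n) (hch : ∀ a b, Nxt K a b → G.Adj a b)
    (hcl : ∀ a b, K.getLast? = some a → K.head? = some b → G.Adj a b) :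
    (cycleGraph n).IsContained G := by
  let f : Fin n → Fin n := fun i => K[i.val]'(by omega)
  have hinj : Function.Injective f := fun i j h => Fin.ext ((hnd.getElem_inj_iff).mp h)
  have key : ∀ i j : Fin n, (j - i).val = 1 → G.Adj (f i) (f j) := by
    intro i j hij
    have hi := i.isLt
    have hj := j.isLt
    have : j.val = i.val + 1 ∨ (i.val = n - 1 ∧ j.val = 0) := by
      rw [Fin.sub_def] at hij
      simp only at hij
      rcases Nat.lt_or_ge (n - i.val + j.val) n with h | h
      · rw [Nat.mod_eq_of_lt h] at hij
        omega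
      · rw [Nat.mod_eq_sub_mod h, Nat.mod_eq_of_lt (by omega)] at hij
        omega
    rcases this with h | ⟨h1, h2⟩
    · apply hch
      rw [nxt_iff]
      refine ⟨i.val, by omega, rfl, ?_⟩
      simp only [f, h]
    · apply hcl
      · rw [List.getLast?_eq_getElem?, List.getElem?_eq_getElem (by omega)]
        simp only [f, h1, hl]
      · rw [List.head?_eq_getElem?, List.getElem?_eq_getElem (by omega)]
        simp only [f, h2]
  refine ⟨⟨⟨f, ?_⟩, hinj⟩⟩
  intro i j hij
  rw [cycleGraph_adj'] at hij
  rcases hij with h | h
  · exact (key j i h).symm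
  · exact key i j h

end Pool.Agent.Work.MP_6b8b27_co
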