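import Pool.Agent.Work.MP_6b8b27_co.Cycles

namespace Pool.Agent.Work.MP_6b8b27_co

open SimpleGraph List

variable {n : ℕ} [NeZero n] {G G' : SimpleGraph (Fin n)}

/-- the union of the two graphs contains a Hamiltonian cycle -/
def HC {n : ℕ} (G G' : SimpleGraph (Fin n)) : Prop := (cycleGraph n).IsContained (G ⊔ G')

omit [NeZero n] in
theorem HC.symm (h : HC G G') : HC G' G := by
  unfold HC at *
  rwa [sup_comm]

theorem Has.consI' {I C : List (ℤ × ℤ)} (h : Has n G I C) {u v : ℤ} (hu : E n G u)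
    (hv : v = u + 1) : Has n G ((u, v) :: I) C := by
  subst hv
  exact h.consI hu

theorem E_sub_adj {x : ℤ} (h : E n G (x - 1)) : G.Adj (z n x) (z n (x + n - 1)) := by
  unfold E at h
  rw [sub_add_cancel] at h
  rw [show x + (n : ℤ) - 1 = (x - 1) + n by ring, z_add]
  exact h.symm

theorem E_neg_adj (h : E n G (-1)) : G.Adj (z n ((n : ℤ) - 1)) (z n 0) := by
  unfold E at h
  rw [show (n : ℤ) - 1 = -1 + n by ring, z_add]
  exact h

/-! ### using bypasses -/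

theorem useC1 {j : ℤ} (hn : 9 ≤ n) (h : E n G' (j - 1)) : HC (gr n (TC n j)) G' :=
  by1_C hn (hasC hn) (Has.nil.consC (E_sub_adj h))

theorem useP1 {x d : ℤ} (hn : 9 ≤ n) (hd : 2 ≤ d) (hd' : d ≤ n - 2) (h : E n G' x) :
    HC (gr n (TP n x d)) G' :=
  by1_P hn hd hd' (hasP hn hd hd') (Has.nil.consI h)

theorem useP2 {x d : ℤ} (hn : 9 ≤ n) (hd : 2 ≤ d) (hd' : d ≤ n - 2) (h : E n G' (x - 1))
    (h' : E n G' (x + 1)) : HC (gr n (TP n x d)) G' :=
  by2_P hn hd hd' (hasP hn hd hd') ((Has.nil.consI' h' (by ring)).consC (E_sub_adj h))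

theorem useA1 {x : ℤ} (hn : 9 ≤ n) (h : E n G' x) : HC (gr n (TA n x)) G' :=
  by1_A hn (hasA hn) (Has.nil.consI h)

theorem useA2 {x : ℤ} (hn : 9 ≤ n) (h : E n G' (x - 1)) (h' : E n G' (x + 1))
    (h'' : E n G' (x + 3)) : HC (gr n (TA n x)) G' :=
  by2_A hn (hasA hn)
    (((Has.nil.consI' h'' (by ring)).consI' h' (by ring)).consC (E_sub_adj h))

theorem useB1 {x : ℤ} (hn : 9 ≤ n) (h : E n G' x) : HC (gr n (TB n x)) G' :=
  by1_B hn (hasB hn) (Has.nil.consI h)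

theorem useB2 {x : ℤ} (hn : 9 ≤ n) (h : E n G' (x - 1)) (h' : E n G' (x + 1))
    (h'' : E n G' (x - 4)) : HC (gr n (TB n x)) G' := by
  have h3 : E n G' (x + n - 4) := by
    rw [show x + (n : ℤ) - 4 = (x - 4) + n by ring, E_add]
    exact h''
  exact by2_B hn (hasB hn)
    (((Has.nil.consI' h3 (by ring)).consI' h' (by ring)).consC (E_sub_adj h))

theorem useD1 {c : ℤ} (hn : 9 ≤ n) (hc : 1 ≤ c) (hc' : c ≤ n - 4) (h : E n G' (-1)) :
    HC (gr n (TD n c)) G' :=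
  by1_D hn hc hc' (hasD hn hc hc') (Has.nil.consC (E_neg_adj h))

theorem useD2 {c : ℤ} (hn : 9 ≤ n) (hc : 1 ≤ c) (hc' : c ≤ n - 4) (h : E n G' 0)
    (h' : E n G' (c + 1)) (h'' : E n G' (n - 2)) : HC (gr n (TD n c)) G' :=
  by2_D hn hc hc' (hasD hn hc hc')
    (((Has.nil.consI' h'' (by ring)).consI' h' (by ring)).consI' h (by ring))

theorem useM1 {c : ℤ} (hn : 9 ≤ n) (hc : 2 ≤ c) (hc' : c ≤ n - 3) (h : E n G' 0)
    (h'' : E n G' (n - 2)) : HC (gr n (TM n c)) G' :=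
  by1_M hn hc hc' (hasM hn hc hc') ((Has.nil.consI' h'' (by ring)).consI' h (by ring))

theorem useM2 {c : ℤ} (hn : 9 ≤ n) (hc : 2 ≤ c) (hc' : c ≤ n - 3) (h : E n G' (-1))
    (h'' : E n G' 1) : HC (gr n (TM n c)) G' :=
  by2_M hn hc hc' (hasM hn hc hc') ((Has.nil.consI' h'' (by ring)).consC (E_neg_adj h))

theorem useL1 (hn : 9 ≤ n) (h : E n G' 2) : HC (gr n (TL n)) G' :=
  by1_L hn (hasL hn) (Has.nil.consI' h (by ring))

theorem useL2 (hn : 9 ≤ n) (h : E n G' 1) (h' : E n G' 3) (h'' : E n G' 5) :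
    HC (gr n (TL n)) G' :=
  by2_L hn (hasL hn)
    (((Has.nil.consI' h'' (by ring)).consI' h' (by ring)).consI' h (by ring))

/-! ### rotation paths against the others -/

theorem CC {i j : ℤ} (hn : 9 ≤ n) (hi : 0 ≤ i) (hi' : i < n) (hj : 0 ≤ j) (hj' : j < n)
    (hij : i ≠ j) : HC (gr n (TC n i)) (gr n (TC n j)) := by
  apply useC1 hn
  apply EC hn <;> omega

theorem PC {x d j : ℤ} (hn : 9 ≤ n) (hd : 2 ≤ d) (hd' : d ≤ n - 2) (hx : 0 ≤ x) (hx' : x < n)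
    (hj : 0 ≤ j) (hj' : j < n) : HC (gr n (TP n x d)) (gr n (TC n j)) := by
  by_cases h : x = j - 1 ∨ x = j - 1 + n
  · apply useP2 hn hd hd' <;> apply EC hn <;> omega
  · apply useP1 hn hd hd'
    apply EC hn <;> omega

theorem AC {x j : ℤ} (hn : 9 ≤ n) (hx : 0 ≤ x) (hx' : x < n)
    (hj : 0 ≤ j) (hj' : j < n) : HC (gr n (TA n x)) (gr n (TC n j)) := by
  by_cases h : x = j - 1 ∨ x = j - 1 + n
  · apply useA2 hn <;> apply EC hn <;> omega
  · apply useA1 hn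
    apply EC hn <;> omega

theorem BC {x j : ℤ} (hn : 9 ≤ n) (hx : 0 ≤ x) (hx' : x < n)
    (hj : 0 ≤ j) (hj' : j < n) : HC (gr n (TB n x)) (gr n (TC n j)) := by
  by_cases h : x = j - 1 ∨ x = j - 1 + n
  · apply useB2 hn <;> apply EC hn <;> omega
  · apply useB1 hn
    apply EC hn <;> omega

theorem MC {c j : ℤ} (hn : 9 ≤ n) (hc : 2 ≤ c) (hc' : c ≤ n - 3)
    (hj : 0 ≤ j) (hj' : j < n) : HC (gr n (TM n c)) (gr n (TC n j)) := by
  by_cases h : j = 1 ∨ j = n - 1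
  · apply useM2 hn hc hc' <;> apply EC hn <;> omega
  · apply useM1 hn hc hc' <;> apply EC hn <;> omega

theorem DC {c j : ℤ} (hn : 9 ≤ n) (hc : 1 ≤ c) (hc' : c ≤ n - 4)
    (hj : 0 ≤ j) (hj' : j < n) : HC (gr n (TD n c)) (gr n (TC n j)) := by
  by_cases h : j = 0
  · apply useD2 hn hc hc' <;> apply EC hn <;> omega
  · apply useD1 hn hc hc'
    apply EC hn <;> omega

theorem LC {j : ℤ} (hn : 9 ≤ n) (hj : 0 ≤ j) (hj' : j < n) :
    HC (gr n (TL n)) (gr n (TC n j)) := by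
  by_cases h : j = 3
  · apply useL2 hn <;> apply EC hn <;> omega
  · apply useL1 hn
    apply EC hn <;> omega

/-! ### distinct blocks -/

/-- two block positions of the right parity -/
structure Sep (n : ℕ) (x y : ℤ) : Prop where
  x0 : 0 ≤ x
  xn : x < n
  y0 : 0 ≤ y
  yn : y < n
  ne : x ≠ y
  h1 : x - y ≠ 1
  h2 : x - y ≠ -1
  h3 : x - y ≠ 3
  h4 : x - y ≠ -3
  h5 : x - y ≠ n - 1
  h6 : x - y ≠ 1 - n
  h7 : x - y ≠ n - 3
  h8 : x - y ≠ 3 - n

omit [NeZero n] in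
theorem Sep.symm {x y : ℤ} (h : Sep n x y) : Sep n y x := by
  obtain ⟨a, b, c, d, e, h1, h2, h3, h4, h5, h6, h7, h8⟩ := h
  constructor <;> omega

theorem AA {x y : ℤ} (hn : 9 ≤ n) (h : Sep n x y) : HC (gr n (TA n x)) (gr n (TA n y)) := by
  obtain ⟨a, b, c, d, e, h1, h2, h3, h4, h5, h6, h7, h8⟩ := h
  by_cases k : x = y + 2 ∨ x = y + 2 - n
  · apply HC.symm
    apply useA1 hn
    apply EA hn <;> omega
  · apply useA1 hn
    apply EA hn <;> omega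

theorem BB {x y : ℤ} (hn : 9 ≤ n) (h : Sep n x y) : HC (gr n (TB n x)) (gr n (TB n y)) := by
  obtain ⟨a, b, c, d, e, h1, h2, h3, h4, h5, h6, h7, h8⟩ := h
  by_cases k : x = y - 2 ∨ x = y - 2 + n ∨ x = y - 4 ∨ x = y - 4 + n
  · apply HC.symm
    apply useB1 hn
    apply EB hn <;> omega
  · apply useB1 hn
    apply EB hn <;> omega

end Pool.Agent.Work.MP_6b8b27_co
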