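import Pool.Agent.Work.MP_6b8b27_co.Blocks

namespace Pool.Agent.Work.MP_6b8b27_co

open SimpleGraph List

variable {n : ℕ} [NeZero n] {G G' : SimpleGraph (Fin n)}

set_option linter.unusedSimpArgs false
set_option linter.unnecessarySeqFocus false

omit [NeZero n] in
theorem seg_shift (p : ℤ × ℤ) (k : ℤ) : seg (p.1 + k, p.2 + k) = (seg p).map (· + k) := by
  unfold seg
  simp only
  by_cases h : p.1 ≤ p.2
  · rw [if_pos (by omega), if_pos h, List.map_map, show p.2 + k - (p.1 + k) + 1 = p.2 - p.1 + 1 by ring]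
    apply List.map_congr_left
    intro a _
    simp only [Function.comp]
    ring
  · rw [if_neg (by omega), if_neg h, List.map_map, show p.1 + k - (p.2 + k) + 1 = p.1 - p.2 + 1 by ring]
    apply List.map_congr_left
    intro a _
    simp only [Function.comp]
    ring

theorem gr_shift (T : List (ℤ × ℤ)) :
    gr n (T.map fun p => (p.1 + n, p.2 + n)) = gr n T := by
  have h : (expand (T.map fun p => (p.1 + (n : ℤ), p.2 + (n : ℤ)))).map (z n) =
      (expand T).map (z n) := by
    induction T with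
    | nil => rfl
    | cons p t ih =>
      simp only [expand, List.map_cons, List.flatMap_cons, List.map_append] at ih ⊢
      rw [ih, seg_shift, List.map_map]
      congr 1
      apply List.map_congr_left
      intro a _
      simp only [Function.comp, z_add]
  unfold gr
  rw [h]

theorem gr_TB_shift (x : ℤ) : gr n (TB n (x + n)) = gr n (TB n x) := by
  rw [← gr_shift (TB n x)]
  congr 1
  simp only [TB, List.map_cons, List.map_nil, List.cons.injEq, Prod.mk.injEq, and_true]
  refine ⟨?_, ?_, ?_, ?_, ?_⟩ <;> (try simp only [true_and, and_true]) <;> omega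

theorem AB_adj {x : ℤ} (hn : 9 ≤ n) : HC (gr n (TA n x)) (gr n (TB n (x + 2))) := by
  apply ham_AB_adj hn (hasA hn)
  have h := hasB (n := n) (x := x + 2) hn
  constructor
  · refine (h.mono (C' := []) ?_ (by simp)).int
    simp only [List.mem_cons, List.not_mem_nil, or_false, forall_eq_or_imp, forall_eq,
      exists_eq_or_imp, exists_eq_left]
    constructor <;> intro u h1 h2 <;> omega
  · have e1 : z n (x + n) = z n x := z_add x
    have e2 : z n (x + 2 + n - 1) = z n (x + 1) := by
      rw [show x + 2 + (n : ℤ) - 1 = (x + 1) + n by ring, z_add]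
    have c1 := h.ch (x + 2, x + 2 + n - 2) (by simp)
    have c2 := h.ch (x + 2 + n - 3, x + 2 + 2) (by simp)
    have c3 := h.ch (x + 2 + n - 4, x + 2 + n - 1) (by simp)
    have c4 := h.ch (x + 2 + n - 1, x + 2 + 1) (by simp)
    have c5 := h.int (x + 2 + n - 3, x + 2 + n - 2) (by simp) (x + 2 + n - 3) (by simp) (by simp)
    simp only at c1 c2 c3 c4
    rw [show x + 2 + (n : ℤ) - 2 = x + n by ring, e1] at c1
    rw [show x + 2 + (n : ℤ) - 3 = x + n - 1 by ring, show x + 2 + (2 : ℤ) = x + 4 by ring] at c2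
    rw [show x + 2 + (n : ℤ) - 4 = x + n - 2 by ring, e2] at c3
    rw [e2, show x + 2 + (1 : ℤ) = x + 3 by ring] at c4
    rw [show x + 2 + (n : ℤ) - 3 + 1 = x + n by ring, e1,
      show x + 2 + (n : ℤ) - 3 = x + n - 1 by ring] at c5
    simp only [List.mem_cons, List.not_mem_nil, or_false, forall_eq_or_imp, forall_eq]
    exact ⟨c1, c2, c3, c4, c5⟩

theorem AB {x y : ℤ} (hn : 9 ≤ n) (h : Sep n x y) : HC (gr n (TA n x)) (gr n (TB n y)) := by
  obtain ⟨q0, q1, q2, q3, q4, h1, h2, h3, h4, h5, h6, h7, h8⟩ := h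
  by_cases k : y = x + 2 ∨ y = x + 2 - n
  · rcases k with rfl | rfl
    · exact AB_adj hn
    · rw [← gr_TB_shift, sub_add_cancel]
      exact AB_adj hn
  · apply HC.symm
    apply useB1 hn
    apply EA hn <;> omega

theorem AP {x y e : ℤ} (hn : 9 ≤ n) (h : Sep n x y) (he : 3 ≤ e) (he' : e ≤ n - 3) :
    HC (gr n (TA n x)) (gr n (TP n y e)) := by
  obtain ⟨q0, q1, q2, q3, q4, h1, h2, h3, h4, h5, h6, h7, h8⟩ := h
  by_cases k : y = x + 2 ∨ y = x + 2 - n
  · apply useA1 hn
    apply EP hn <;> omega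
  · apply HC.symm
    apply useP1 hn (by omega) (by omega)
    apply EA hn <;> omega

theorem BP {x y e : ℤ} (hn : 9 ≤ n) (h : Sep n x y) (he : 3 ≤ e) (he' : e ≤ n - 3) :
    HC (gr n (TB n x)) (gr n (TP n y e)) := by
  obtain ⟨q0, q1, q2, q3, q4, h1, h2, h3, h4, h5, h6, h7, h8⟩ := h
  by_cases k : y = x - 2 ∨ y = x - 2 + n
  · apply useB1 hn
    apply EP hn <;> omega
  · by_cases k' : y = x - 4 ∨ y = x - 4 + n
    · apply HC.symm
      apply useP2 hn (by omega) (by omega) <;> apply EB hn <;> omega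
    · apply HC.symm
      apply useP1 hn (by omega) (by omega)
      apply EB hn <;> omega

theorem PP {x y d e : ℤ} (hn : 9 ≤ n) (h : Sep n x y) (hd : 3 ≤ d) (hd' : d ≤ n - 3)
    (he : 3 ≤ e) (he' : e ≤ n - 3) :
    HC (gr n (TP n x d)) (gr n (TP n y e)) := by
  obtain ⟨q0, q1, q2, q3, q4, h1, h2, h3, h4, h5, h6, h7, h8⟩ := h
  by_cases k : x = y + e ∨ x = y + e - n
  · by_cases k' : y = x + d ∨ y = x + d - n
    · apply useP2 hn (by omega) (by omega) <;> apply EP hn <;> omega
    · apply HC.symm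
      apply useP1 hn (by omega) (by omega)
      apply EP hn <;> omega
  · apply useP1 hn (by omega) (by omega)
    apply EP hn <;> omega

/-! ### same block -/

theorem PP_same {x d e : ℤ} (hn : 9 ≤ n) (hd : 2 ≤ d) (hde : d < e) (he' : e ≤ n - 2) :
    HC (gr n (TP n x d)) (gr n (TP n x e)) := by
  apply ham_same hn hd hde he' (hasP hn (by omega) (by omega))
  exact (hasP hn (by omega) he').mono (by simp) (by simp)

theorem AP_same {x e : ℤ} (hn : 9 ≤ n) (he : 3 ≤ e) (he' : e ≤ n - 3) :
    HC (gr n (TA n x)) (gr n (TP n x e)) := by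
  apply HC.symm
  apply ham_same' (d := 2) hn (by omega) (by omega) (by omega) (hasP hn (by omega) (by omega))
  refine (hasA hn).mono (by simp) ?_
  simp only [List.mem_cons, List.not_mem_nil, or_false, forall_eq_or_imp, forall_eq, Prod.mk.injEq]
  refine ⟨?_, ?_⟩ <;> (try simp only [true_and, and_true, true_or, or_true]) <;> omega

theorem PB_same {x d : ℤ} (hn : 9 ≤ n) (he : 3 ≤ d) (he' : d ≤ n - 3) :
    HC (gr n (TP n x d)) (gr n (TB n x)) := by
  apply ham_same (d := d) (e := n - 2) hn (by omega) (by omega) (by omega) (hasP hn (by omega) (by omega))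
  refine (hasB hn).mono (by simp) ?_
  simp only [List.mem_cons, List.not_mem_nil, or_false, forall_eq_or_imp, forall_eq, Prod.mk.injEq]
  refine ⟨?_, ?_⟩ <;> (try simp only [true_and, and_true, true_or, or_true]) <;> omega

theorem AB_same {x : ℤ} (hn : 9 ≤ n) : HC (gr n (TA n x)) (gr n (TB n x)) :=
  ham_AB_same hn (hasA hn) (hasB hn)

end Pool.Agent.Work.MP_6b8b27_co
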