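import Pool.Agent.Work.MP_6b8b27_co.Facts

namespace Pool.Agent.Work.MP_6b8b27_co

open SimpleGraph List

variable {n : ℕ} [NeZero n] {G G' : SimpleGraph (Fin n)}

set_option linter.unusedSimpArgs false
set_option linter.unusedTactic false
set_option linter.unreachableTactic false
set_option linter.unusedVariables false

theorem ham_same {x d e : ℤ} (hn : 9 ≤ n) (k1 : 2 ≤ d) (k2 : d < e) (k3 : e ≤ n - 2)
    (hG : Has n G [(x + 2, x + d), (x + d + 1, x + n - 1)]
      [(x, x + d), (x + 2, x + n - 1), (x + d + 1, x + 1)])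
    (hG' : Has n G' []
      [(x, x + e), (x + e + 1, x + 1)]) :
    (cycleGraph n).IsContained (G ⊔ G') := by
  refine ham_of_check (by omega) (hG.sup hG') x (x + 2, x + d)
    [(x, x), (x + e, x + d + 1), (x + 1, x + 1), (x + e + 1, x + n - 1)] ?_ ?_ ?_
  · constructor
    · simp only [slen, List.map_cons, List.map_nil, List.sum_cons, List.sum_nil]
      omega
    · intro v h1 h2
      simp only [List.mem_cons, List.not_mem_nil, or_false, exists_eq_or_imp, exists_eq_left]
      omega
  · simp only [List.mem_cons, List.not_mem_nil, or_false, forall_eq_or_imp, forall_eq,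
      List.cons_append, List.nil_append, exists_eq_or_imp, exists_eq_left, false_and, exists_false, false_or]
    refine ⟨?_, ?_, ?_, ?_, ?_⟩ <;> intro u h1 h2 <;> omega
  · simp only [joins, List.mem_cons, List.not_mem_nil, or_false, forall_eq_or_imp, forall_eq,
      List.cons_append, List.nil_append, exists_eq_or_imp, exists_eq_left, false_and, exists_false, false_or]
    refine ⟨?_, ?_, ?_, ?_, ?_⟩ <;> (try simp only [true_and, and_true, true_or, or_true]) <;> omega

theorem ham_same' {x d e : ℤ} (hn : 9 ≤ n) (k1 : 2 ≤ d) (k2 : d < e) (k3 : e ≤ n - 2)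
    (hG : Has n G [(x + 2, x + e), (x + e + 1, x + n - 1)]
      [(x, x + e), (x + 2, x + n - 1), (x + e + 1, x + 1)])
    (hG' : Has n G' []
      [(x, x + d), (x + d + 1, x + 1)]) :
    (cycleGraph n).IsContained (G ⊔ G') := by
  refine ham_of_check (by omega) (hG.sup hG') x (x + 2, x + d)
    [(x, x), (x + e, x + d + 1), (x + 1, x + 1), (x + e + 1, x + n - 1)] ?_ ?_ ?_
  · constructor
    · simp only [slen, List.map_cons, List.map_nil, List.sum_cons, List.sum_nil]
      omega
    · intro v h1 h2
      simp only [List.mem_cons, List.not_mem_nil, or_false, exists_eq_or_imp, exists_eq_left]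
      omega
  · simp only [List.mem_cons, List.not_mem_nil, or_false, forall_eq_or_imp, forall_eq,
      List.cons_append, List.nil_append, exists_eq_or_imp, exists_eq_left, false_and, exists_false, false_or]
    refine ⟨?_, ?_, ?_, ?_, ?_⟩ <;> intro u h1 h2 <;> omega
  · simp only [joins, List.mem_cons, List.not_mem_nil, or_false, forall_eq_or_imp, forall_eq,
      List.cons_append, List.nil_append, exists_eq_or_imp, exists_eq_left, false_and, exists_false, false_or]
    refine ⟨?_, ?_, ?_, ?_, ?_⟩ <;> (try simp only [true_and, and_true, true_or, or_true]) <;> omega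

theorem ham_AB_same {x : ℤ} (hn : 9 ≤ n)
    (hG : Has n G [(x + 4, x + n - 1)]
      [(x, x + 2), (x + 2, x + 4), (x + n - 1, x + 3), (x + 3, x + 1)])
    (hG' : Has n G' [(x + 2, x + n - 4), (x + n - 3, x + n - 2)]
      [(x, x + n - 2), (x + n - 3, x + 2), (x + n - 4, x + n - 1), (x + n - 1, x + 1)]) :
    (cycleGraph n).IsContained (G ⊔ G') := by
  refine ham_of_check (by omega) (hG.sup hG') x (x, x)
    [(x + 2, x + 2), (x + n - 3, x + 3), (x + 1, x + 1), (x + n - 1, x + n - 2)] ?_ ?_ ?_
  · constructor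
    · simp only [slen, List.map_cons, List.map_nil, List.sum_cons, List.sum_nil]
      omega
    · intro v h1 h2
      simp only [List.mem_cons, List.not_mem_nil, or_false, exists_eq_or_imp, exists_eq_left]
      omega
  · simp only [List.mem_cons, List.not_mem_nil, or_false, forall_eq_or_imp, forall_eq,
      List.cons_append, List.nil_append, exists_eq_or_imp, exists_eq_left, false_and, exists_false, false_or]
    refine ⟨?_, ?_, ?_, ?_, ?_⟩ <;> intro u h1 h2 <;> omega
  · simp only [joins, List.mem_cons, List.not_mem_nil, or_false, forall_eq_or_imp, forall_eq,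
      List.cons_append, List.nil_append, exists_eq_or_imp, exists_eq_left, false_and, exists_false, false_or]
    refine ⟨?_, ?_, ?_, ?_, ?_⟩ <;> (try simp only [true_and, and_true, true_or, or_true]) <;> omega

theorem ham_AB_adj {x : ℤ} (hn : 9 ≤ n)
    (hG : Has n G [(x + 4, x + n - 1)]
      [(x, x + 2), (x + 2, x + 4), (x + n - 1, x + 3), (x + 3, x + 1)])
    (hG' : Has n G' [(x + 4, x + n - 2), (x + n - 1, x + n)]
      [(x + 2, x), (x + n - 1, x + 4), (x + n - 2, x + 1), (x + 1, x + 3), (x + n - 1, x)]) :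
    (cycleGraph n).IsContained (G ⊔ G') := by
  refine ham_of_check (by omega) (hG.sup hG') x (x, x)
    [(x + 2, x + 2), (x + 4, x + n - 2), (x + 1, x + 1), (x + 3, x + 3), (x + n - 1, x + n - 1)] ?_ ?_ ?_
  · constructor
    · simp only [slen, List.map_cons, List.map_nil, List.sum_cons, List.sum_nil]
      omega
    · intro v h1 h2
      simp only [List.mem_cons, List.not_mem_nil, or_false, exists_eq_or_imp, exists_eq_left]
      omega
  · simp only [List.mem_cons, List.not_mem_nil, or_false, forall_eq_or_imp, forall_eq,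
      List.cons_append, List.nil_append, exists_eq_or_imp, exists_eq_left, false_and, exists_false, false_or]
    refine ⟨?_, ?_, ?_, ?_, ?_, ?_⟩ <;> intro u h1 h2 <;> omega
  · simp only [joins, List.mem_cons, List.not_mem_nil, or_false, forall_eq_or_imp, forall_eq,
      List.cons_append, List.nil_append, exists_eq_or_imp, exists_eq_left, false_and, exists_false, false_or]
    refine ⟨?_, ?_, ?_, ?_, ?_, ?_⟩ <;> (try simp only [true_and, and_true, true_or, or_true]) <;> omega

theorem ham_AL (hn : 9 ≤ n)
    (hG : Has n G [(6, (n : ℤ) - 1)]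
      [(2, 4), (0, (n : ℤ) - 1), (5, 3)])
    (hG' : Has n G' [(4, 5), (6, (n : ℤ) - 2)]
      [(2, 0), (0, (n : ℤ) - 1), ((n : ℤ) - 1, 5), (4, (n : ℤ) - 2), (6, 1), (1, 3)]) :
    (cycleGraph n).IsContained (G ⊔ G') := by
  refine ham_of_check (by omega) (hG.sup hG') 0 (0, 0)
    [(2, 2), (4, 5), (3, 3), (1, 1), (6, (n : ℤ) - 1)] ?_ ?_ ?_
  · constructor
    · simp only [slen, List.map_cons, List.map_nil, List.sum_cons, List.sum_nil]
      omega
    · intro v h1 h2
      simp only [List.mem_cons, List.not_mem_nil, or_false, exists_eq_or_imp, exists_eq_left]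
      omega
  · simp only [List.mem_cons, List.not_mem_nil, or_false, forall_eq_or_imp, forall_eq,
      List.cons_append, List.nil_append, exists_eq_or_imp, exists_eq_left, false_and, exists_false, false_or]
    refine ⟨?_, ?_, ?_, ?_, ?_, ?_⟩ <;> intro u h1 h2 <;> omega
  · simp only [joins, List.mem_cons, List.not_mem_nil, or_false, forall_eq_or_imp, forall_eq,
      List.cons_append, List.nil_append, exists_eq_or_imp, exists_eq_left, false_and, exists_false, false_or]
    refine ⟨?_, ?_, ?_, ?_, ?_, ?_⟩ <;> (try simp only [true_and, and_true, true_or, or_true]) <;> omega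

theorem by1_C {j : ℤ} (hn : 9 ≤ n)
    (hG : Has n G [(j, j + n - 1)]
      [])
    (hG' : Has n G' []
      [(j, j + n - 1)]) :
    (cycleGraph n).IsContained (G ⊔ G') := by
  refine ham_of_check (by omega) (hG.sup hG') j (j, j + n - 1)
    [] ?_ ?_ ?_
  · constructor
    · simp only [slen, List.map_cons, List.map_nil, List.sum_cons, List.sum_nil]
      omega
    · intro v h1 h2
      simp only [List.mem_cons, List.not_mem_nil, or_false, exists_eq_or_imp, exists_eq_left]
      omega
  · simp only [List.mem_cons, List.not_mem_nil, or_false, forall_eq_or_imp, forall_eq,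
      List.cons_append, List.nil_append, exists_eq_or_imp, exists_eq_left, false_and, exists_false, false_or]
    intro u h1 h2
    omega
  · simp only [joins, List.mem_cons, List.not_mem_nil, or_false, forall_eq_or_imp, forall_eq,
      List.cons_append, List.nil_append, exists_eq_or_imp, exists_eq_left, false_and, exists_false, false_or]
    (try simp only [true_and, and_true, true_or, or_true]) <;> omega

theorem by1_P {x d : ℤ} (hn : 9 ≤ n) (k1 : 2 ≤ d) (k2 : d ≤ n - 2)
    (hG : Has n G [(x + 2, x + d), (x + d + 1, x + n - 1)]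
      [(x, x + d), (x + 2, x + n - 1), (x + d + 1, x + 1)])
    (hG' : Has n G' [(x, x + 1)]
      []) :
    (cycleGraph n).IsContained (G ⊔ G') := by
  refine ham_of_check (by omega) (hG.sup hG') x (x + 2, x + d)
    [(x, x + 1), (x + d + 1, x + n - 1)] ?_ ?_ ?_
  · constructor
    · simp only [slen, List.map_cons, List.map_nil, List.sum_cons, List.sum_nil]
      omega
    · intro v h1 h2
      simp only [List.mem_cons, List.not_mem_nil, or_false, exists_eq_or_imp, exists_eq_left]
      omega
  · simp only [List.mem_cons, List.not_mem_nil, or_false, forall_eq_or_imp, forall_eq,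
      List.cons_append, List.nil_append, exists_eq_or_imp, exists_eq_left, false_and, exists_false, false_or]
    refine ⟨?_, ?_, ?_⟩ <;> intro u h1 h2 <;> omega
  · simp only [joins, List.mem_cons, List.not_mem_nil, or_false, forall_eq_or_imp, forall_eq,
      List.cons_append, List.nil_append, exists_eq_or_imp, exists_eq_left, false_and, exists_false, false_or]
    refine ⟨?_, ?_, ?_⟩ <;> (try simp only [true_and, and_true, true_or, or_true]) <;> omega

theorem by1_A {x : ℤ} (hn : 9 ≤ n)
    (hG : Has n G [(x + 4, x + n - 1)]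
      [(x, x + 2), (x + 2, x + 4), (x + n - 1, x + 3), (x + 3, x + 1)])
    (hG' : Has n G' [(x, x + 1)]
      []) :
    (cycleGraph n).IsContained (G ⊔ G') := by
  refine ham_of_check (by omega) (hG.sup hG') x (x, x)
    [(x + 2, x + 2), (x + 4, x + n - 1), (x + 3, x + 3), (x + 1, x + 1)] ?_ ?_ ?_
  · constructor
    · simp only [slen, List.map_cons, List.map_nil, List.sum_cons, List.sum_nil]
      omega
    · intro v h1 h2
      simp only [List.mem_cons, List.not_mem_nil, or_false, exists_eq_or_imp, exists_eq_left]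
      omega
  · simp only [List.mem_cons, List.not_mem_nil, or_false, forall_eq_or_imp, forall_eq,
      List.cons_append, List.nil_append, exists_eq_or_imp, exists_eq_left, false_and, exists_false, false_or]
    refine ⟨?_, ?_, ?_, ?_, ?_⟩ <;> intro u h1 h2 <;> omega
  · simp only [joins, List.mem_cons, List.not_mem_nil, or_false, forall_eq_or_imp, forall_eq,
      List.cons_append, List.nil_append, exists_eq_or_imp, exists_eq_left, false_and, exists_false, false_or]
    refine ⟨?_, ?_, ?_, ?_, ?_⟩ <;> (try simp only [true_and, and_true, true_or, or_true]) <;> omega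

theorem by1_B {x : ℤ} (hn : 9 ≤ n)
    (hG : Has n G [(x + 2, x + n - 4), (x + n - 3, x + n - 2)]
      [(x, x + n - 2), (x + n - 3, x + 2), (x + n - 4, x + n - 1), (x + n - 1, x + 1)])
    (hG' : Has n G' [(x, x + 1)]
      []) :
    (cycleGraph n).IsContained (G ⊔ G') := by
  refine ham_of_check (by omega) (hG.sup hG') x (x, x)
    [(x + n - 2, x + n - 3), (x + 2, x + n - 4), (x + n - 1, x + n - 1), (x + 1, x + 1)] ?_ ?_ ?_
  · constructor
    · simp only [slen, List.map_cons, List.map_nil, List.sum_cons, List.sum_nil]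
      omega
    · intro v h1 h2
      simp only [List.mem_cons, List.not_mem_nil, or_false, exists_eq_or_imp, exists_eq_left]
      omega
  · simp only [List.mem_cons, List.not_mem_nil, or_false, forall_eq_or_imp, forall_eq,
      List.cons_append, List.nil_append, exists_eq_or_imp, exists_eq_left, false_and, exists_false, false_or]
    refine ⟨?_, ?_, ?_, ?_, ?_⟩ <;> intro u h1 h2 <;> omega
  · simp only [joins, List.mem_cons, List.not_mem_nil, or_false, forall_eq_or_imp, forall_eq,
      List.cons_append, List.nil_append, exists_eq_or_imp, exists_eq_left, false_and, exists_false, false_or]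
    refine ⟨?_, ?_, ?_, ?_, ?_⟩ <;> (try simp only [true_and, and_true, true_or, or_true]) <;> omega

theorem by1_D {c : ℤ} (hn : 9 ≤ n) (k1 : 1 ≤ c) (k2 : c ≤ n - 4)
    (hG : Has n G [(1, c), (c + 2, (n : ℤ) - 2)]
      [((n : ℤ) - 1, c), (1, c + 2), ((n : ℤ) - 2, c + 1), (c + 1, 0)])
    (hG' : Has n G' []
      [((n : ℤ) - 1, 0)]) :
    (cycleGraph n).IsContained (G ⊔ G') := by
  refine ham_of_check (by omega) (hG.sup hG') 0 ((n : ℤ) - 1, (n : ℤ) - 1)
    [(c, 1), (c + 2, (n : ℤ) - 2), (c + 1, c + 1), (0, 0)] ?_ ?_ ?_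
  · constructor
    · simp only [slen, List.map_cons, List.map_nil, List.sum_cons, List.sum_nil]
      omega
    · intro v h1 h2
      simp only [List.mem_cons, List.not_mem_nil, or_false, exists_eq_or_imp, exists_eq_left]
      omega
  · simp only [List.mem_cons, List.not_mem_nil, or_false, forall_eq_or_imp, forall_eq,
      List.cons_append, List.nil_append, exists_eq_or_imp, exists_eq_left, false_and, exists_false, false_or]
    refine ⟨?_, ?_, ?_, ?_, ?_⟩ <;> intro u h1 h2 <;> omega
  · simp only [joins, List.mem_cons, List.not_mem_nil, or_false, forall_eq_or_imp, forall_eq,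
      List.cons_append, List.nil_append, exists_eq_or_imp, exists_eq_left, false_and, exists_false, false_or]
    refine ⟨?_, ?_, ?_, ?_, ?_⟩ <;> (try simp only [true_and, and_true, true_or, or_true]) <;> omega

theorem by1_L (hn : 9 ≤ n)
    (hG : Has n G [(4, 5), (6, (n : ℤ) - 2)]
      [(2, 0), (0, (n : ℤ) - 1), ((n : ℤ) - 1, 5), (4, (n : ℤ) - 2), (6, 1), (1, 3)])
    (hG' : Has n G' [(2, 3)]
      []) :
    (cycleGraph n).IsContained (G ⊔ G') := by
  refine ham_of_check (by omega) (hG.sup hG') 0 (2, 2)
    [(0, 0), ((n : ℤ) - 1, (n : ℤ) - 1), (5, 4), ((n : ℤ) - 2, 6), (1, 1), (3, 3)] ?_ ?_ ?_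
  · constructor
    · simp only [slen, List.map_cons, List.map_nil, List.sum_cons, List.sum_nil]
      omega
    · intro v h1 h2
      simp only [List.mem_cons, List.not_mem_nil, or_false, exists_eq_or_imp, exists_eq_left]
      omega
  · simp only [List.mem_cons, List.not_mem_nil, or_false, forall_eq_or_imp, forall_eq,
      List.cons_append, List.nil_append, exists_eq_or_imp, exists_eq_left, false_and, exists_false, false_or]
    refine ⟨?_, ?_, ?_, ?_, ?_, ?_, ?_⟩ <;> intro u h1 h2 <;> omega
  · simp only [joins, List.mem_cons, List.not_mem_nil, or_false, forall_eq_or_imp, forall_eq,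
      List.cons_append, List.nil_append, exists_eq_or_imp, exists_eq_left, false_and, exists_false, false_or]
    refine ⟨?_, ?_, ?_, ?_, ?_, ?_, ?_⟩ <;> (try simp only [true_and, and_true, true_or, or_true]) <;> omega

theorem by2_P {x d : ℤ} (hn : 9 ≤ n) (k1 : 2 ≤ d) (k2 : d ≤ n - 2)
    (hG : Has n G [(x + 2, x + d), (x + d + 1, x + n - 1)]
      [(x, x + d), (x + 2, x + n - 1), (x + d + 1, x + 1)])
    (hG' : Has n G' [(x + 1, x + 2)]
      [(x, x + n - 1)]) :
    (cycleGraph n).IsContained (G ⊔ G') := by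
  refine ham_of_check (by omega) (hG.sup hG') x (x + 1, x + d)
    [(x, x), (x + n - 1, x + d + 1)] ?_ ?_ ?_
  · constructor
    · simp only [slen, List.map_cons, List.map_nil, List.sum_cons, List.sum_nil]
      omega
    · intro v h1 h2
      simp only [List.mem_cons, List.not_mem_nil, or_false, exists_eq_or_imp, exists_eq_left]
      omega
  · simp only [List.mem_cons, List.not_mem_nil, or_false, forall_eq_or_imp, forall_eq,
      List.cons_append, List.nil_append, exists_eq_or_imp, exists_eq_left, false_and, exists_false, false_or]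
    refine ⟨?_, ?_, ?_⟩ <;> intro u h1 h2 <;> omega
  · simp only [joins, List.mem_cons, List.not_mem_nil, or_false, forall_eq_or_imp, forall_eq,
      List.cons_append, List.nil_append, exists_eq_or_imp, exists_eq_left, false_and, exists_false, false_or]
    refine ⟨?_, ?_, ?_⟩ <;> (try simp only [true_and, and_true, true_or, or_true]) <;> omega

theorem by2_A {x : ℤ} (hn : 9 ≤ n)
    (hG : Has n G [(x + 4, x + n - 1)]
      [(x, x + 2), (x + 2, x + 4), (x + n - 1, x + 3), (x + 3, x + 1)])
    (hG' : Has n G' [(x + 1, x + 2), (x + 3, x + 4)]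
      [(x, x + n - 1)]) :
    (cycleGraph n).IsContained (G ⊔ G') := by
  refine ham_of_check (by omega) (hG.sup hG') x (x, x)
    [(x + 2, x + 2), (x + 1, x + 1), (x + 3, x + n - 1)] ?_ ?_ ?_
  · constructor
    · simp only [slen, List.map_cons, List.map_nil, List.sum_cons, List.sum_nil]
      omega
    · intro v h1 h2
      simp only [List.mem_cons, List.not_mem_nil, or_false, exists_eq_or_imp, exists_eq_left]
      omega
  · simp only [List.mem_cons, List.not_mem_nil, or_false, forall_eq_or_imp, forall_eq,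
      List.cons_append, List.nil_append, exists_eq_or_imp, exists_eq_left, false_and, exists_false, false_or]
    refine ⟨?_, ?_, ?_, ?_⟩ <;> intro u h1 h2 <;> omega
  · simp only [joins, List.mem_cons, List.not_mem_nil, or_false, forall_eq_or_imp, forall_eq,
      List.cons_append, List.nil_append, exists_eq_or_imp, exists_eq_left, false_and, exists_false, false_or]
    refine ⟨?_, ?_, ?_, ?_⟩ <;> (try simp only [true_and, and_true, true_or, or_true]) <;> omega

theorem by2_B {x : ℤ} (hn : 9 ≤ n)
    (hG : Has n G [(x + 2, x + n - 4), (x + n - 3, x + n - 2)]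
      [(x, x + n - 2), (x + n - 3, x + 2), (x + n - 4, x + n - 1), (x + n - 1, x + 1)])
    (hG' : Has n G' [(x + 1, x + 2), (x + n - 4, x + n - 3)]
      [(x, x + n - 1)]) :
    (cycleGraph n).IsContained (G ⊔ G') := by
  refine ham_of_check (by omega) (hG.sup hG') x (x + 2, x + n - 2)
    [(x, x), (x + n - 1, x + n - 1), (x + 1, x + 1)] ?_ ?_ ?_
  · constructor
    · simp only [slen, List.map_cons, List.map_nil, List.sum_cons, List.sum_nil]
      omega
    · intro v h1 h2
      simp only [List.mem_cons, List.not_mem_nil, or_false, exists_eq_or_imp, exists_eq_left]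
      omega
  · simp only [List.mem_cons, List.not_mem_nil, or_false, forall_eq_or_imp, forall_eq,
      List.cons_append, List.nil_append, exists_eq_or_imp, exists_eq_left, false_and, exists_false, false_or]
    refine ⟨?_, ?_, ?_, ?_⟩ <;> intro u h1 h2 <;> omega
  · simp only [joins, List.mem_cons, List.not_mem_nil, or_false, forall_eq_or_imp, forall_eq,
      List.cons_append, List.nil_append, exists_eq_or_imp, exists_eq_left, false_and, exists_false, false_or]
    refine ⟨?_, ?_, ?_, ?_⟩ <;> (try simp only [true_and, and_true, true_or, or_true]) <;> omega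

theorem by1_M {c : ℤ} (hn : 9 ≤ n) (k1 : 2 ≤ c) (k2 : c ≤ n - 3)
    (hG : Has n G [(2, c), (c + 1, (n : ℤ) - 2)]
      [((n : ℤ) - 1, c), (2, 0), (0, (n : ℤ) - 2), (c + 1, 1)])
    (hG' : Has n G' [(0, 1), ((n : ℤ) - 2, (n : ℤ) - 1)]
      []) :
    (cycleGraph n).IsContained (G ⊔ G') := by
  refine ham_of_check (by omega) (hG.sup hG') 0 ((n : ℤ) - 1, (n : ℤ) - 1)
    [(c, 2), (0, 1), (c + 1, (n : ℤ) - 2)] ?_ ?_ ?_
  · constructor
    · simp only [slen, List.map_cons, List.map_nil, List.sum_cons, List.sum_nil]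
      omega
    · intro v h1 h2
      simp only [List.mem_cons, List.not_mem_nil, or_false, exists_eq_or_imp, exists_eq_left]
      omega
  · simp only [List.mem_cons, List.not_mem_nil, or_false, forall_eq_or_imp, forall_eq,
      List.cons_append, List.nil_append, exists_eq_or_imp, exists_eq_left, false_and, exists_false, false_or]
    refine ⟨?_, ?_, ?_, ?_⟩ <;> intro u h1 h2 <;> omega
  · simp only [joins, List.mem_cons, List.not_mem_nil, or_false, forall_eq_or_imp, forall_eq,
      List.cons_append, List.nil_append, exists_eq_or_imp, exists_eq_left, false_and, exists_false, false_or]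
    refine ⟨?_, ?_, ?_, ?_⟩ <;> (try simp only [true_and, and_true, true_or, or_true]) <;> omega

theorem by2_M {c : ℤ} (hn : 9 ≤ n) (k1 : 2 ≤ c) (k2 : c ≤ n - 3)
    (hG : Has n G [(2, c), (c + 1, (n : ℤ) - 2)]
      [((n : ℤ) - 1, c), (2, 0), (0, (n : ℤ) - 2), (c + 1, 1)])
    (hG' : Has n G' [(1, 2)]
      [((n : ℤ) - 1, 0)]) :
    (cycleGraph n).IsContained (G ⊔ G') := by
  refine ham_of_check (by omega) (hG.sup hG') 0 ((n : ℤ) - 1, (n : ℤ) - 1)
    [(c, 1), (c + 1, (n : ℤ) - 2), (0, 0)] ?_ ?_ ?_
  · constructor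
    · simp only [slen, List.map_cons, List.map_nil, List.sum_cons, List.sum_nil]
      omega
    · intro v h1 h2
      simp only [List.mem_cons, List.not_mem_nil, or_false, exists_eq_or_imp, exists_eq_left]
      omega
  · simp only [List.mem_cons, List.not_mem_nil, or_false, forall_eq_or_imp, forall_eq,
      List.cons_append, List.nil_append, exists_eq_or_imp, exists_eq_left, false_and, exists_false, false_or]
    refine ⟨?_, ?_, ?_, ?_⟩ <;> intro u h1 h2 <;> omega
  · simp only [joins, List.mem_cons, List.not_mem_nil, or_false, forall_eq_or_imp, forall_eq,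
      List.cons_append, List.nil_append, exists_eq_or_imp, exists_eq_left, false_and, exists_false, false_or]
    refine ⟨?_, ?_, ?_, ?_⟩ <;> (try simp only [true_and, and_true, true_or, or_true]) <;> omega

theorem by2_D {c : ℤ} (hn : 9 ≤ n) (k1 : 1 ≤ c) (k2 : c ≤ n - 4)
    (hG : Has n G [(1, c), (c + 2, (n : ℤ) - 2)]
      [((n : ℤ) - 1, c), (1, c + 2), ((n : ℤ) - 2, c + 1), (c + 1, 0)])
    (hG' : Has n G' [(0, 1), (c + 1, c + 2), ((n : ℤ) - 2, (n : ℤ) - 1)]
      []) :
    (cycleGraph n).IsContained (G ⊔ G') := by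
  refine ham_of_check (by omega) (hG.sup hG') 0 ((n : ℤ) - 1, (n : ℤ) - 1)
    [(c, 0), (c + 1, (n : ℤ) - 2)] ?_ ?_ ?_
  · constructor
    · simp only [slen, List.map_cons, List.map_nil, List.sum_cons, List.sum_nil]
      omega
    · intro v h1 h2
      simp only [List.mem_cons, List.not_mem_nil, or_false, exists_eq_or_imp, exists_eq_left]
      omega
  · simp only [List.mem_cons, List.not_mem_nil, or_false, forall_eq_or_imp, forall_eq,
      List.cons_append, List.nil_append, exists_eq_or_imp, exists_eq_left, false_and, exists_false, false_or]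
    refine ⟨?_, ?_, ?_⟩ <;> intro u h1 h2 <;> omega
  · simp only [joins, List.mem_cons, List.not_mem_nil, or_false, forall_eq_or_imp, forall_eq,
      List.cons_append, List.nil_append, exists_eq_or_imp, exists_eq_left, false_and, exists_false, false_or]
    refine ⟨?_, ?_, ?_⟩ <;> (try simp only [true_and, and_true, true_or, or_true]) <;> omega

theorem by2_L (hn : 9 ≤ n)
    (hG : Has n G [(4, 5), (6, (n : ℤ) - 2)]
      [(2, 0), (0, (n : ℤ) - 1), ((n : ℤ) - 1, 5), (4, (n : ℤ) - 2), (6, 1), (1, 3)])
    (hG' : Has n G' [(1, 2), (3, 4), (5, 6)]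
      []) :
    (cycleGraph n).IsContained (G ⊔ G') := by
  refine ham_of_check (by omega) (hG.sup hG') 0 (0, 0)
    [((n : ℤ) - 1, (n : ℤ) - 1), (5, (n : ℤ) - 2), (4, 3), (1, 2)] ?_ ?_ ?_
  · constructor
    · simp only [slen, List.map_cons, List.map_nil, List.sum_cons, List.sum_nil]
      omega
    · intro v h1 h2
      simp only [List.mem_cons, List.not_mem_nil, or_false, exists_eq_or_imp, exists_eq_left]
      omega
  · simp only [List.mem_cons, List.not_mem_nil, or_false, forall_eq_or_imp, forall_eq,
      List.cons_append, List.nil_append, exists_eq_or_imp, exists_eq_left, false_and, exists_false, false_or]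
    refine ⟨?_, ?_, ?_, ?_, ?_⟩ <;> intro u h1 h2 <;> omega
  · simp only [joins, List.mem_cons, List.not_mem_nil, or_false, forall_eq_or_imp, forall_eq,
      List.cons_append, List.nil_append, exists_eq_or_imp, exists_eq_left, false_and, exists_false, false_or]
    refine ⟨?_, ?_, ?_, ?_, ?_⟩ <;> (try simp only [true_and, and_true, true_or, or_true]) <;> omega

theorem ham_MU1 {c u : ℤ} (hn : 9 ≤ n) (k1 : 2 ≤ c) (k2 : c < u) (k3 : u ≤ n - 2)
    (hG : Has n G [(2, c), (c + 1, (n : ℤ) - 2)]
      [((n : ℤ) - 1, c), (2, 0), (0, (n : ℤ) - 2), (c + 1, 1)])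
    (hG' : Has n G' [(0 + 2, 0 + u), (0 + u + 1, 0 + n - 1)]
      [(0, 0 + u), (0 + 2, 0 + n - 1), (0 + u + 1, 0 + 1)]) :
    (cycleGraph n).IsContained (G ⊔ G') := by
  refine ham_of_check (by omega) (hG.sup hG') 0 (0, 0)
    [(2, c), ((n : ℤ) - 1, u + 1), (1, 1), (c + 1, u)] ?_ ?_ ?_
  · constructor
    · simp only [slen, List.map_cons, List.map_nil, List.sum_cons, List.sum_nil]
      omega
    · intro v h1 h2
      simp only [List.mem_cons, List.not_mem_nil, or_false, exists_eq_or_imp, exists_eq_left]
      omega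
  · simp only [List.mem_cons, List.not_mem_nil, or_false, forall_eq_or_imp, forall_eq,
      List.cons_append, List.nil_append, exists_eq_or_imp, exists_eq_left, false_and, exists_false, false_or]
    refine ⟨?_, ?_, ?_, ?_, ?_⟩ <;> intro u h1 h2 <;> omega
  · simp only [joins, List.mem_cons, List.not_mem_nil, or_false, forall_eq_or_imp, forall_eq,
      List.cons_append, List.nil_append, exists_eq_or_imp, exists_eq_left, false_and, exists_false, false_or]
    refine ⟨?_, ?_, ?_, ?_, ?_⟩ <;> (try simp only [true_and, and_true, true_or, or_true]) <;> omega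

theorem ham_MU2 {c u : ℤ} (hn : 9 ≤ n) (k1 : 2 ≤ u) (k2 : u < c) (k3 : c ≤ n - 3)
    (hG : Has n G [(2, c), (c + 1, (n : ℤ) - 2)]
      [((n : ℤ) - 1, c), (2, 0), (0, (n : ℤ) - 2), (c + 1, 1)])
    (hG' : Has n G' [(0 + 2, 0 + u), (0 + u + 1, 0 + n - 1)]
      [(0, 0 + u), (0 + 2, 0 + n - 1), (0 + u + 1, 0 + 1)]) :
    (cycleGraph n).IsContained (G ⊔ G') := by
  refine ham_of_check (by omega) (hG.sup hG') 0 (0, 0)
    [(u, 2), ((n : ℤ) - 1, (n : ℤ) - 1), (c, u + 1), (1, 1), (c + 1, (n : ℤ) - 2)] ?_ ?_ ?_
  · constructor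
    · simp only [slen, List.map_cons, List.map_nil, List.sum_cons, List.sum_nil]
      omega
    · intro v h1 h2
      simp only [List.mem_cons, List.not_mem_nil, or_false, exists_eq_or_imp, exists_eq_left]
      omega
  · simp only [List.mem_cons, List.not_mem_nil, or_false, forall_eq_or_imp, forall_eq,
      List.cons_append, List.nil_append, exists_eq_or_imp, exists_eq_left, false_and, exists_false, false_or]
    refine ⟨?_, ?_, ?_, ?_, ?_, ?_⟩ <;> intro u h1 h2 <;> omega
  · simp only [joins, List.mem_cons, List.not_mem_nil, or_false, forall_eq_or_imp, forall_eq,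
      List.cons_append, List.nil_append, exists_eq_or_imp, exists_eq_left, false_and, exists_false, false_or]
    refine ⟨?_, ?_, ?_, ?_, ?_, ?_⟩ <;> (try simp only [true_and, and_true, true_or, or_true]) <;> omega

theorem ham_MM {c e : ℤ} (hn : 9 ≤ n) (k1 : 2 ≤ c) (k2 : c < e) (k3 : e ≤ n - 3)
    (hG : Has n G [(2, c), (c + 1, (n : ℤ) - 2)]
      [((n : ℤ) - 1, c), (2, 0), (0, (n : ℤ) - 2), (c + 1, 1)])
    (hG' : Has n G' [(2, e), (e + 1, (n : ℤ) - 2)]
      [((n : ℤ) - 1, e), (2, 0), (0, (n : ℤ) - 2), (e + 1, 1)]) :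
    (cycleGraph n).IsContained (G ⊔ G') := by
  refine ham_of_check (by omega) (hG.sup hG') 0 (0, 0)
    [(2, c), ((n : ℤ) - 1, (n : ℤ) - 1), (e, c + 1), (1, 1), (e + 1, (n : ℤ) - 2)] ?_ ?_ ?_
  · constructor
    · simp only [slen, List.map_cons, List.map_nil, List.sum_cons, List.sum_nil]
      omega
    · intro v h1 h2
      simp only [List.mem_cons, List.not_mem_nil, or_false, exists_eq_or_imp, exists_eq_left]
      omega
  · simp only [List.mem_cons, List.not_mem_nil, or_false, forall_eq_or_imp, forall_eq,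
      List.cons_append, List.nil_append, exists_eq_or_imp, exists_eq_left, false_and, exists_false, false_or]
    refine ⟨?_, ?_, ?_, ?_, ?_, ?_⟩ <;> intro u h1 h2 <;> omega
  · simp only [joins, List.mem_cons, List.not_mem_nil, or_false, forall_eq_or_imp, forall_eq,
      List.cons_append, List.nil_append, exists_eq_or_imp, exists_eq_left, false_and, exists_false, false_or]
    refine ⟨?_, ?_, ?_, ?_, ?_, ?_⟩ <;> (try simp only [true_and, and_true, true_or, or_true]) <;> omega

theorem ham_DM1 {d c : ℤ} (hn : 9 ≤ n) (k1 : 1 ≤ d) (k2 : d < c) (k3 : c ≤ n - 3)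
    (hG : Has n G [(1, d), (d + 2, (n : ℤ) - 2)]
      [((n : ℤ) - 1, d), (1, d + 2), ((n : ℤ) - 2, d + 1), (d + 1, 0)])
    (hG' : Has n G' [(2, c), (c + 1, (n : ℤ) - 2)]
      [((n : ℤ) - 1, c), (2, 0), (0, (n : ℤ) - 2), (c + 1, 1)]) :
    (cycleGraph n).IsContained (G ⊔ G') := by
  refine ham_of_check (by omega) (hG.sup hG') 0 (0, 0)
    [(d + 1, c), ((n : ℤ) - 1, (n : ℤ) - 1), (d, 1), (c + 1, (n : ℤ) - 2)] ?_ ?_ ?_
  · constructor
    · simp only [slen, List.map_cons, List.map_nil, List.sum_cons, List.sum_nil]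
      omega
    · intro v h1 h2
      simp only [List.mem_cons, List.not_mem_nil, or_false, exists_eq_or_imp, exists_eq_left]
      omega
  · simp only [List.mem_cons, List.not_mem_nil, or_false, forall_eq_or_imp, forall_eq,
      List.cons_append, List.nil_append, exists_eq_or_imp, exists_eq_left, false_and, exists_false, false_or]
    refine ⟨?_, ?_, ?_, ?_, ?_⟩ <;> intro u h1 h2 <;> omega
  · simp only [joins, List.mem_cons, List.not_mem_nil, or_false, forall_eq_or_imp, forall_eq,
      List.cons_append, List.nil_append, exists_eq_or_imp, exists_eq_left, false_and, exists_false, false_or]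
    refine ⟨?_, ?_, ?_, ?_, ?_⟩ <;> (try simp only [true_and, and_true, true_or, or_true]) <;> omega

theorem ham_DM2 {d c : ℤ} (hn : 9 ≤ n) (k1 : 2 ≤ c) (k2 : c < d) (k3 : d ≤ n - 4)
    (hG : Has n G [(1, d), (d + 2, (n : ℤ) - 2)]
      [((n : ℤ) - 1, d), (1, d + 2), ((n : ℤ) - 2, d + 1), (d + 1, 0)])
    (hG' : Has n G' [(2, c), (c + 1, (n : ℤ) - 2)]
      [((n : ℤ) - 1, c), (2, 0), (0, (n : ℤ) - 2), (c + 1, 1)]) :
    (cycleGraph n).IsContained (G ⊔ G') := by
  refine ham_of_check (by omega) (hG.sup hG') 0 (0, 0)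
    [(2, c), ((n : ℤ) - 1, (n : ℤ) - 1), (d, c + 1), (1, 1), (d + 2, (n : ℤ) - 2), (d + 1, d + 1)] ?_ ?_ ?_
  · constructor
    · simp only [slen, List.map_cons, List.map_nil, List.sum_cons, List.sum_nil]
      omega
    · intro v h1 h2
      simp only [List.mem_cons, List.not_mem_nil, or_false, exists_eq_or_imp, exists_eq_left]
      omega
  · simp only [List.mem_cons, List.not_mem_nil, or_false, forall_eq_or_imp, forall_eq,
      List.cons_append, List.nil_append, exists_eq_or_imp, exists_eq_left, false_and, exists_false, false_or]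
    refine ⟨?_, ?_, ?_, ?_, ?_, ?_, ?_⟩ <;> intro u h1 h2 <;> omega
  · simp only [joins, List.mem_cons, List.not_mem_nil, or_false, forall_eq_or_imp, forall_eq,
      List.cons_append, List.nil_append, exists_eq_or_imp, exists_eq_left, false_and, exists_false, false_or]
    refine ⟨?_, ?_, ?_, ?_, ?_, ?_, ?_⟩ <;> (try simp only [true_and, and_true, true_or, or_true]) <;> omega

theorem ham_DD {c e : ℤ} (hn : 9 ≤ n) (k1 : 1 ≤ c) (k2 : c < e) (k3 : e ≤ n - 4)
    (hG : Has n G [(1, c), (c + 2, (n : ℤ) - 2)]
      [((n : ℤ) - 1, c), (1, c + 2), ((n : ℤ) - 2, c + 1), (c + 1, 0)])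
    (hG' : Has n G' [(1, e), (e + 2, (n : ℤ) - 2)]
      [((n : ℤ) - 1, e), (1, e + 2), ((n : ℤ) - 2, e + 1), (e + 1, 0)]) :
    (cycleGraph n).IsContained (G ⊔ G') := by
  refine ham_of_check (by omega) (hG.sup hG') 0 (0, 0)
    [(c + 1, e), ((n : ℤ) - 1, (n : ℤ) - 1), (c, 1), (e + 2, (n : ℤ) - 2), (e + 1, e + 1)] ?_ ?_ ?_
  · constructor
    · simp only [slen, List.map_cons, List.map_nil, List.sum_cons, List.sum_nil]
      omega
    · intro v h1 h2
      simp only [List.mem_cons, List.not_mem_nil, or_false, exists_eq_or_imp, exists_eq_left]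
      omega
  · simp only [List.mem_cons, List.not_mem_nil, or_false, forall_eq_or_imp, forall_eq,
      List.cons_append, List.nil_append, exists_eq_or_imp, exists_eq_left, false_and, exists_false, false_or]
    refine ⟨?_, ?_, ?_, ?_, ?_, ?_⟩ <;> intro u h1 h2 <;> omega
  · simp only [joins, List.mem_cons, List.not_mem_nil, or_false, forall_eq_or_imp, forall_eq,
      List.cons_append, List.nil_append, exists_eq_or_imp, exists_eq_left, false_and, exists_false, false_or]
    refine ⟨?_, ?_, ?_, ?_, ?_, ?_⟩ <;> (try simp only [true_and, and_true, true_or, or_true]) <;> omega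

theorem ham_DU1 {d u : ℤ} (hn : 9 ≤ n) (k1 : 1 ≤ d) (k2 : d + 2 ≤ u) (k3 : u ≤ n - 2)
    (hG : Has n G [(1, d), (d + 2, (n : ℤ) - 2)]
      [((n : ℤ) - 1, d), (1, d + 2), ((n : ℤ) - 2, d + 1), (d + 1, 0)])
    (hG' : Has n G' [(0 + 2, 0 + u), (0 + u + 1, 0 + n - 1)]
      [(0, 0 + u), (0 + 2, 0 + n - 1), (0 + u + 1, 0 + 1)]) :
    (cycleGraph n).IsContained (G ⊔ G') := by
  refine ham_of_check (by omega) (hG.sup hG') 0 (0, 0)
    [(d + 1, 2), ((n : ℤ) - 1, u + 1), (1, 1), (d + 2, u)] ?_ ?_ ?_
  · constructor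
    · simp only [slen, List.map_cons, List.map_nil, List.sum_cons, List.sum_nil]
      omega
    · intro v h1 h2
      simp only [List.mem_cons, List.not_mem_nil, or_false, exists_eq_or_imp, exists_eq_left]
      omega
  · simp only [List.mem_cons, List.not_mem_nil, or_false, forall_eq_or_imp, forall_eq,
      List.cons_append, List.nil_append, exists_eq_or_imp, exists_eq_left, false_and, exists_false, false_or]
    refine ⟨?_, ?_, ?_, ?_, ?_⟩ <;> intro u h1 h2 <;> omega
  · simp only [joins, List.mem_cons, List.not_mem_nil, or_false, forall_eq_or_imp, forall_eq,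
      List.cons_append, List.nil_append, exists_eq_or_imp, exists_eq_left, false_and, exists_false, false_or]
    refine ⟨?_, ?_, ?_, ?_, ?_⟩ <;> (try simp only [true_and, and_true, true_or, or_true]) <;> omega

theorem ham_DU2 {d : ℤ} (hn : 9 ≤ n) (k1 : 2 ≤ d) (k2 : d ≤ n - 4)
    (hG : Has n G [(1, d), (d + 2, (n : ℤ) - 2)]
      [((n : ℤ) - 1, d), (1, d + 2), ((n : ℤ) - 2, d + 1), (d + 1, 0)])
    (hG' : Has n G' [(0 + 2, 0 + d), (0 + d + 1, 0 + n - 1)]
      [(0, 0 + d), (0 + 2, 0 + n - 1), (0 + d + 1, 0 + 1)]) :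
    (cycleGraph n).IsContained (G ⊔ G') := by
  refine ham_of_check (by omega) (hG.sup hG') 0 (0, 0)
    [(d, 2), ((n : ℤ) - 1, d + 2), (1, 1), (d + 1, d + 1)] ?_ ?_ ?_
  · constructor
    · simp only [slen, List.map_cons, List.map_nil, List.sum_cons, List.sum_nil]
      omega
    · intro v h1 h2
      simp only [List.mem_cons, List.not_mem_nil, or_false, exists_eq_or_imp, exists_eq_left]
      omega
  · simp only [List.mem_cons, List.not_mem_nil, or_false, forall_eq_or_imp, forall_eq,
      List.cons_append, List.nil_append, exists_eq_or_imp, exists_eq_left, false_and, exists_false, false_or]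
    refine ⟨?_, ?_, ?_, ?_, ?_⟩ <;> intro u h1 h2 <;> omega
  · simp only [joins, List.mem_cons, List.not_mem_nil, or_false, forall_eq_or_imp, forall_eq,
      List.cons_append, List.nil_append, exists_eq_or_imp, exists_eq_left, false_and, exists_false, false_or]
    refine ⟨?_, ?_, ?_, ?_, ?_⟩ <;> (try simp only [true_and, and_true, true_or, or_true]) <;> omega

theorem ham_DU3 {d u : ℤ} (hn : 9 ≤ n) (k1 : 2 ≤ u) (k2 : u < d) (k3 : d ≤ n - 4)
    (hG : Has n G [(1, d), (d + 2, (n : ℤ) - 2)]
      [((n : ℤ) - 1, d), (1, d + 2), ((n : ℤ) - 2, d + 1), (d + 1, 0)])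
    (hG' : Has n G' [(0 + 2, 0 + u), (0 + u + 1, 0 + n - 1)]
      [(0, 0 + u), (0 + 2, 0 + n - 1), (0 + u + 1, 0 + 1)]) :
    (cycleGraph n).IsContained (G ⊔ G') := by
  refine ham_of_check (by omega) (hG.sup hG') 0 (0, 0)
    [(u, 1), (u + 1, d), ((n : ℤ) - 1, d + 1)] ?_ ?_ ?_
  · constructor
    · simp only [slen, List.map_cons, List.map_nil, List.sum_cons, List.sum_nil]
      omega
    · intro v h1 h2
      simp only [List.mem_cons, List.not_mem_nil, or_false, exists_eq_or_imp, exists_eq_left]
      omega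
  · simp only [List.mem_cons, List.not_mem_nil, or_false, forall_eq_or_imp, forall_eq,
      List.cons_append, List.nil_append, exists_eq_or_imp, exists_eq_left, false_and, exists_false, false_or]
    refine ⟨?_, ?_, ?_, ?_⟩ <;> intro u h1 h2 <;> omega
  · simp only [joins, List.mem_cons, List.not_mem_nil, or_false, forall_eq_or_imp, forall_eq,
      List.cons_append, List.nil_append, exists_eq_or_imp, exists_eq_left, false_and, exists_false, false_or]
    refine ⟨?_, ?_, ?_, ?_⟩ <;> (try simp only [true_and, and_true, true_or, or_true]) <;> omega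

theorem ham_DP {y : ℤ} (hn : 9 ≤ n) (k1 : 2 ≤ y) (k2 : y ≤ n - 4)
    (hG : Has n G [(1, y - 1), (y + 1, (n : ℤ) - 2)]
      [((n : ℤ) - 1, y - 1), (1, y + 1), ((n : ℤ) - 2, y), (y, 0)])
    (hG' : Has n G' [(y + 2, (n : ℤ) - 1), (0, y - 1)]
      [(y, (n : ℤ) - 1), (0, y + 1)]) :
    (cycleGraph n).IsContained (G ⊔ G') := by
  refine ham_of_check (by omega) (hG.sup hG') 0 (0, y - 1)
    [((n : ℤ) - 1, (n : ℤ) - 1), (y, y), ((n : ℤ) - 2, y + 1)] ?_ ?_ ?_
  · constructor
    · simp only [slen, List.map_cons, List.map_nil, List.sum_cons, List.sum_nil]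
      omega
    · intro v h1 h2
      simp only [List.mem_cons, List.not_mem_nil, or_false, exists_eq_or_imp, exists_eq_left]
      omega
  · simp only [List.mem_cons, List.not_mem_nil, or_false, forall_eq_or_imp, forall_eq,
      List.cons_append, List.nil_append, exists_eq_or_imp, exists_eq_left, false_and, exists_false, false_or]
    refine ⟨?_, ?_, ?_, ?_⟩ <;> intro u h1 h2 <;> omega
  · simp only [joins, List.mem_cons, List.not_mem_nil, or_false, forall_eq_or_imp, forall_eq,
      List.cons_append, List.nil_append, exists_eq_or_imp, exists_eq_left, false_and, exists_false, false_or]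
    refine ⟨?_, ?_, ?_, ?_⟩ <;> (try simp only [true_and, and_true, true_or, or_true]) <;> omega

theorem ham_LM (hn : 9 ≤ n)
    (hG : Has n G [(4, 5), (6, (n : ℤ) - 2)]
      [(2, 0), (0, (n : ℤ) - 1), ((n : ℤ) - 1, 5), (4, (n : ℤ) - 2), (6, 1), (1, 3)])
    (hG' : Has n G' [(2, 2), (2 + 1, (n : ℤ) - 2)]
      [((n : ℤ) - 1, 2), (2, 0), (0, (n : ℤ) - 2), (2 + 1, 1)]) :
    (cycleGraph n).IsContained (G ⊔ G') := by
  refine ham_of_check (by omega) (hG.sup hG') 0 (0, 0)
    [(2, 2), ((n : ℤ) - 1, (n : ℤ) - 1), (5, 3), (1, 1), (6, (n : ℤ) - 2)] ?_ ?_ ?_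
  · constructor
    · simp only [slen, List.map_cons, List.map_nil, List.sum_cons, List.sum_nil]
      omega
    · intro v h1 h2
      simp only [List.mem_cons, List.not_mem_nil, or_false, exists_eq_or_imp, exists_eq_left]
      omega
  · simp only [List.mem_cons, List.not_mem_nil, or_false, forall_eq_or_imp, forall_eq,
      List.cons_append, List.nil_append, exists_eq_or_imp, exists_eq_left, false_and, exists_false, false_or]
    refine ⟨?_, ?_, ?_, ?_, ?_, ?_⟩ <;> intro u h1 h2 <;> omega
  · simp only [joins, List.mem_cons, List.not_mem_nil, or_false, forall_eq_or_imp, forall_eq,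
      List.cons_append, List.nil_append, exists_eq_or_imp, exists_eq_left, false_and, exists_false, false_or]
    refine ⟨?_, ?_, ?_, ?_, ?_, ?_⟩ <;> (try simp only [true_and, and_true, true_or, or_true]) <;> omega

theorem ham_MP1 (hn : 9 ≤ n)
    (hG : Has n G [(2, 2), (2 + 1, (n : ℤ) - 2)]
      [((n : ℤ) - 1, 2), (2, 0), (0, (n : ℤ) - 2), (2 + 1, 1)])
    (hG' : Has n G' [(4, (n : ℤ) - 2), (0, 1)]
      [(2, (n : ℤ) - 2), ((n : ℤ) - 1, 0)]) :
    (cycleGraph n).IsContained (G ⊔ G') := by
  refine ham_of_check (by omega) (hG.sup hG') 0 (0, 1)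
    [(3, (n : ℤ) - 2), (2, 2), ((n : ℤ) - 1, (n : ℤ) - 1)] ?_ ?_ ?_
  · constructor
    · simp only [slen, List.map_cons, List.map_nil, List.sum_cons, List.sum_nil]
      omega
    · intro v h1 h2
      simp only [List.mem_cons, List.not_mem_nil, or_false, exists_eq_or_imp, exists_eq_left]
      omega
  · simp only [List.mem_cons, List.not_mem_nil, or_false, forall_eq_or_imp, forall_eq,
      List.cons_append, List.nil_append, exists_eq_or_imp, exists_eq_left, false_and, exists_false, false_or]
    refine ⟨?_, ?_, ?_, ?_⟩ <;> intro u h1 h2 <;> omega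
  · simp only [joins, List.mem_cons, List.not_mem_nil, or_false, forall_eq_or_imp, forall_eq,
      List.cons_append, List.nil_append, exists_eq_or_imp, exists_eq_left, false_and, exists_false, false_or]
    refine ⟨?_, ?_, ?_, ?_⟩ <;> (try simp only [true_and, and_true, true_or, or_true]) <;> omega

theorem ham_MP2 (hn : 9 ≤ n)
    (hG : Has n G [(2, ((n : ℤ) - 3)), (((n : ℤ) - 3) + 1, (n : ℤ) - 2)]
      [((n : ℤ) - 1, ((n : ℤ) - 3)), (2, 0), (0, (n : ℤ) - 2), (((n : ℤ) - 3) + 1, 1)])
    (hG' : Has n G' [(0, 1)]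
      [(2, (n : ℤ) - 2), ((n : ℤ) - 1, 0)]) :
    (cycleGraph n).IsContained (G ⊔ G') := by
  refine ham_of_check (by omega) (hG.sup hG') 0 (0, 1)
    [((n : ℤ) - 2, (n : ℤ) - 2), (2, (n : ℤ) - 3), ((n : ℤ) - 1, (n : ℤ) - 1)] ?_ ?_ ?_
  · constructor
    · simp only [slen, List.map_cons, List.map_nil, List.sum_cons, List.sum_nil]
      omega
    · intro v h1 h2
      simp only [List.mem_cons, List.not_mem_nil, or_false, exists_eq_or_imp, exists_eq_left]
      omega
  · simp only [List.mem_cons, List.not_mem_nil, or_false, forall_eq_or_imp, forall_eq,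
      List.cons_append, List.nil_append, exists_eq_or_imp, exists_eq_left, false_and, exists_false, false_or]
    refine ⟨?_, ?_, ?_, ?_⟩ <;> intro u h1 h2 <;> omega
  · simp only [joins, List.mem_cons, List.not_mem_nil, or_false, forall_eq_or_imp, forall_eq,
      List.cons_append, List.nil_append, exists_eq_or_imp, exists_eq_left, false_and, exists_false, false_or]
    refine ⟨?_, ?_, ?_, ?_⟩ <;> (try simp only [true_and, and_true, true_or, or_true]) <;> omega

theorem ham_AM (hn : 9 ≤ n)
    (hG : Has n G [(2, ((n : ℤ) - 3)), (((n : ℤ) - 3) + 1, (n : ℤ) - 2)]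
      [((n : ℤ) - 1, ((n : ℤ) - 3)), (2, 0), (0, (n : ℤ) - 2), (((n : ℤ) - 3) + 1, 1)])
    (hG' : Has n G' []
      [((n : ℤ) - 1, 1)]) :
    (cycleGraph n).IsContained (G ⊔ G') := by
  refine ham_of_check (by omega) (hG.sup hG') 0 (0, 0)
    [(2, (n : ℤ) - 3), ((n : ℤ) - 1, (n : ℤ) - 1), (1, 1), ((n : ℤ) - 2, (n : ℤ) - 2)] ?_ ?_ ?_
  · constructor
    · simp only [slen, List.map_cons, List.map_nil, List.sum_cons, List.sum_nil]
      omega
    · intro v h1 h2
      simp only [List.mem_cons, List.not_mem_nil, or_false, exists_eq_or_imp, exists_eq_left]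
      omega
  · simp only [List.mem_cons, List.not_mem_nil, or_false, forall_eq_or_imp, forall_eq,
      List.cons_append, List.nil_append, exists_eq_or_imp, exists_eq_left, false_and, exists_false, false_or]
    refine ⟨?_, ?_, ?_, ?_, ?_⟩ <;> intro u h1 h2 <;> omega
  · simp only [joins, List.mem_cons, List.not_mem_nil, or_false, forall_eq_or_imp, forall_eq,
      List.cons_append, List.nil_append, exists_eq_or_imp, exists_eq_left, false_and, exists_false, false_or]
    refine ⟨?_, ?_, ?_, ?_, ?_⟩ <;> (try simp only [true_and, and_true, true_or, or_true]) <;> omega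

end Pool.Agent.Work.MP_6b8b27_co
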