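import Mathlib

/-!
# Hamiltonian paths whose pairwise unions contain Hamiltonian cycles: definitions
-/

namespace Pool.Agent.Work.MP_6b8b27_co

open SimpleGraph

/-- `P` is (the edge set of) a Hamiltonian path of the vertex set `Fin n`: the spanning graph `P`
is isomorphic to the path graph on `n` vertices. -/
def IsHamPath {n : ℕ} (P : SimpleGraph (Fin n)) : Prop :=
  Nonempty (pathGraph n ≃g P)

/-- `P` and `Q` are Hamiltonian-cycle-different: the union `P ∪ Q` contains a copy of the cycle
graph on `n` vertices (which uses all `n` vertices, that is, a Hamiltonian cycle). -/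
def HamCycleDifferent {n : ℕ} (P Q : SimpleGraph (Fin n)) : Prop :=
  (cycleGraph n).IsContained (P ⊔ Q)

/-- A pairwise Hamiltonian-cycle-different family of Hamiltonian paths on `Fin n`. -/
def IsHamCycleDifferentFamily {n : ℕ} (F : Finset (SimpleGraph (Fin n))) : Prop :=
  (∀ P ∈ F, IsHamPath P) ∧ ∀ P ∈ F, ∀ Q ∈ F, P ≠ Q → HamCycleDifferent P Q

/-- `h n`: the largest size of a pairwise Hamiltonian-cycle-different family of Hamiltonian paths
on an `n`-element vertex set. -/
noncomputable def h (n : ℕ) : ℕ :=
  sSup {m | ∃ F : Finset (SimpleGraph (Fin n)), IsHamCycleDifferentFamily F ∧ F.card = m}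

end Pool.Agent.Work.MP_6b8b27_co
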