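import Pool.Agent.Work.MP_6b8b27_co.Paths

namespace Pool.Agent.Work.MP_6b8b27_co

open SimpleGraph List

variable {n : ℕ} [NeZero n] {G : SimpleGraph (Fin n)}

/-- unit step `u, u + 1` is an edge -/
def E (n : ℕ) [NeZero n] (G : SimpleGraph (Fin n)) (u : ℤ) : Prop := G.Adj (z n u) (z n (u + 1))

theorem E_add {u : ℤ} : E n G (u + n) ↔ E n G u := by
  unfold E
  rw [show u + (n : ℤ) + 1 = (u + 1) + n by ring, z_add, z_add]

theorem E_sub {u : ℤ} : E n G (u - n) ↔ E n G u := by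
  rw [← E_add (u := u - n), sub_add_cancel]

theorem Has.nil : Has n G [] [] := ⟨by simp, by simp⟩

theorem Has.consI {I C : List (ℤ × ℤ)} (h : Has n G I C) {u : ℤ} (hu : E n G u) :
    Has n G ((u, u + 1) :: I) C := by
  refine ⟨?_, h.ch⟩
  intro p hp v h1 h2
  rw [List.mem_cons] at hp
  rcases hp with rfl | hp
  · simp only at h1 h2
    have : v = u := by omega
    subst this
    exact hu
  · exact h.int p hp v h1 h2

theorem Has.consC {I C : List (ℤ × ℤ)} (h : Has n G I C) {a b : ℤ} (hab : G.Adj (z n a) (z n b)) :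
    Has n G I ((a, b) :: C) := by
  refine ⟨h.int, ?_⟩
  intro p hp
  rw [List.mem_cons] at hp
  rcases hp with rfl | hp
  · exact hab
  · exact h.ch p hp

theorem Has.mono {I C I' C' : List (ℤ × ℤ)} (h : Has n G I C)
    (hI : ∀ p ∈ I', ∀ u, p.1 ≤ u → u < p.2 → ∃ q ∈ I, q.1 ≤ u ∧ u < q.2)
    (hC : ∀ p ∈ C', p ∈ C) : Has n G I' C' := by
  constructor
  · intro p hp u h1 h2
    obtain ⟨q, hq, h3, h4⟩ := hI p hp u h1 h2
    exact h.int q hq u h3 h4
  · intro p hp
    exact h.ch p (hC p hp)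

theorem hasC {j : ℤ} (hn : 9 ≤ n) : Has n (gr n (TC n j)) [(j, j + n - 1)] [] := by
  refine (has_gr (covC (j := j) hn)).mono ?_ ?_
  · simp only [TC, List.map_cons, List.map_nil, List.mem_cons, List.not_mem_nil, or_false,
      forall_eq, exists_eq_left]
    intro u h1 h2
    omega
  · simp

theorem hasP {x d : ℤ} (hn : 9 ≤ n) (hd : 2 ≤ d) (hd' : d ≤ n - 2) :
    Has n (gr n (TP n x d)) [(x + 2, x + d), (x + d + 1, x + n - 1)]
      [(x, x + d), (x + 2, x + n - 1), (x + d + 1, x + 1)] := by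
  refine (has_gr (covP (x := x) hn hd hd')).mono ?_ ?_
  · simp only [TP, List.map_cons, List.map_nil, List.mem_cons, List.not_mem_nil, or_false,
      forall_eq_or_imp, forall_eq, exists_eq_or_imp, exists_eq_left]
    constructor <;> intro u h1 h2 <;> omega
  · simp [TP, joins]

theorem hasA {x : ℤ} (hn : 9 ≤ n) :
    Has n (gr n (TA n x)) [(x + 4, x + n - 1)]
      [(x, x + 2), (x + 2, x + 4), (x + n - 1, x + 3), (x + 3, x + 1)] := by
  refine (has_gr (covA (x := x) hn)).mono ?_ ?_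
  · simp only [TA, List.map_cons, List.map_nil, List.mem_cons, List.not_mem_nil, or_false,
      forall_eq, exists_eq_or_imp, exists_eq_left]
    intro u h1 h2
    omega
  · simp [TA, joins]

theorem hasB {x : ℤ} (hn : 9 ≤ n) :
    Has n (gr n (TB n x)) [(x + 2, x + n - 4), (x + n - 3, x + n - 2)]
      [(x, x + n - 2), (x + n - 3, x + 2), (x + n - 4, x + n - 1), (x + n - 1, x + 1)] := by
  refine (has_gr (covB (x := x) hn)).mono ?_ ?_
  · simp only [TB, List.map_cons, List.map_nil, List.mem_cons, List.not_mem_nil, or_false,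
      forall_eq_or_imp, forall_eq, exists_eq_or_imp, exists_eq_left]
    constructor <;> intro u h1 h2 <;> omega
  · simp [TB, joins]

theorem hasM {c : ℤ} (hn : 9 ≤ n) (hc : 2 ≤ c) (hc' : c ≤ n - 3) :
    Has n (gr n (TM n c)) [(2, c), (c + 1, (n : ℤ) - 2)]
      [((n : ℤ) - 1, c), (2, 0), (0, (n : ℤ) - 2), (c + 1, 1)] := by
  refine (has_gr (covM (c := c) hn hc hc')).mono ?_ ?_
  · simp only [TM, List.map_cons, List.map_nil, List.mem_cons, List.not_mem_nil, or_false,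
      forall_eq_or_imp, forall_eq, exists_eq_or_imp, exists_eq_left]
    constructor <;> intro u h1 h2 <;> omega
  · simp [TM, joins]

theorem hasD {c : ℤ} (hn : 9 ≤ n) (hc : 1 ≤ c) (hc' : c ≤ n - 4) :
    Has n (gr n (TD n c)) [(1, c), (c + 2, (n : ℤ) - 2)]
      [((n : ℤ) - 1, c), (1, c + 2), ((n : ℤ) - 2, c + 1), (c + 1, 0)] := by
  refine (has_gr (covD (c := c) hn hc hc')).mono ?_ ?_
  · simp only [TD, List.map_cons, List.map_nil, List.mem_cons, List.not_mem_nil, or_false,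
      forall_eq_or_imp, forall_eq, exists_eq_or_imp, exists_eq_left]
    constructor <;> intro u h1 h2 <;> omega
  · simp [TD, joins]

theorem hasL (hn : 9 ≤ n) :
    Has n (gr n (TL n)) [(4, 5), (6, (n : ℤ) - 2)]
      [(2, 0), (0, (n : ℤ) - 1), ((n : ℤ) - 1, 5), (4, (n : ℤ) - 2), (6, 1), (1, 3)] := by
  refine (has_gr (covL hn)).mono ?_ ?_
  · simp only [TL, List.map_cons, List.map_nil, List.mem_cons, List.not_mem_nil, or_false,
      forall_eq_or_imp, forall_eq, exists_eq_or_imp, exists_eq_left]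
    constructor <;> intro u h1 h2 <;> omega
  · simp [TL, joins]

/-! ### unit edges in general position -/

theorem Has.unit {I C : List (ℤ × ℤ)} (h : Has n G I C) {u : ℤ}
    (hu : (∃ q ∈ I, q.1 ≤ u ∧ u < q.2) ∨ (∃ q ∈ I, q.1 ≤ u + n ∧ u + n < q.2) ∨
      (∃ q ∈ I, q.1 ≤ u - n ∧ u - n < q.2)) : E n G u := by
  rcases hu with ⟨q, hq, h1, h2⟩ | ⟨q, hq, h1, h2⟩ | ⟨q, hq, h1, h2⟩
  · exact h.int q hq u h1 h2
  · exact E_add.mp (h.int q hq _ h1 h2)
  · exact E_sub.mp (h.int q hq _ h1 h2)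

theorem EC {j u : ℤ} (hn : 9 ≤ n) (h1 : j - n ≤ u) (h2 : u < j + 2 * n) (h3 : u ≠ j - 1)
    (h4 : u ≠ j - 1 + n) (h5 : u ≠ j - 1 + 2 * n) : E n (gr n (TC n j)) u := by
  apply (hasC hn).unit
  simp only [List.mem_cons, List.not_mem_nil, or_false, exists_eq_left]
  omega

theorem EP {x d u : ℤ} (hn : 9 ≤ n) (hd : 2 ≤ d) (hd' : d ≤ n - 2)
    (h1 : x - n ≤ u) (h2 : u < x + n) (h3 : u ≠ x) (h4 : u ≠ x + 1) (h5 : u ≠ x - 1)
    (h6 : u ≠ x + n - 1) (h7 : u ≠ x + 1 - n) (h8 : u ≠ x - n) (h9 : u ≠ x + d)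
    (h10 : u ≠ x + d - n) : E n (gr n (TP n x d)) u := by
  apply (hasP hn hd hd').unit
  simp only [List.mem_cons, List.not_mem_nil, or_false, exists_eq_or_imp, exists_eq_left]
  omega

theorem EA {x u : ℤ} (hn : 9 ≤ n) (h1 : x - n ≤ u) (h2 : u < x + n)
    (h3 : u ≠ x) (h4 : u ≠ x + 1) (h5 : u ≠ x - 1) (h6 : u ≠ x + n - 1) (h7 : u ≠ x + 1 - n)
    (h8 : u ≠ x - n) (h9 : u ≠ x + 2) (h10 : u ≠ x + 2 - n) (h11 : u ≠ x + 3)
    (h12 : u ≠ x + 3 - n) : E n (gr n (TA n x)) u := by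
  apply (hasA hn).unit
  simp only [List.mem_cons, List.not_mem_nil, or_false, exists_eq_left]
  omega

theorem EB {x u : ℤ} (hn : 9 ≤ n) (h1 : x - n ≤ u) (h2 : u < x + n)
    (h3 : u ≠ x) (h4 : u ≠ x + 1) (h5 : u ≠ x - 1) (h6 : u ≠ x + n - 1) (h7 : u ≠ x + 1 - n)
    (h8 : u ≠ x - n) (h9 : u ≠ x - 2) (h10 : u ≠ x - 2 + n) (h11 : u ≠ x - 4)
    (h12 : u ≠ x - 4 + n) : E n (gr n (TB n x)) u := by
  apply (hasB hn).unit
  simp only [List.mem_cons, List.not_mem_nil, or_false, exists_eq_or_imp, exists_eq_left]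
  omega

theorem EM {c u : ℤ} (hn : 9 ≤ n) (hc : 2 ≤ c) (hc' : c ≤ n - 3) (h1 : 2 ≤ u) (h2 : u < n - 2)
    (h3 : u ≠ c) : E n (gr n (TM n c)) u := by
  apply (hasM hn hc hc').unit
  simp only [List.mem_cons, List.not_mem_nil, or_false, exists_eq_or_imp, exists_eq_left]
  omega

theorem ED {c u : ℤ} (hn : 9 ≤ n) (hc : 1 ≤ c) (hc' : c ≤ n - 4) (h1 : 1 ≤ u) (h2 : u < n - 2)
    (h3 : u ≠ c) (h4 : u ≠ c + 1 ∨ c = n - 4) : E n (gr n (TD n c)) u := by
  by_cases h : u = c + 1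
  · have h5 : c = n - 4 := by omega
    have := (hasD hn hc hc').ch ((n : ℤ) - 2, c + 1) (by simp)
    subst h
    unfold E
    rw [show c + 1 + 1 = (n : ℤ) - 2 by omega]
    exact this.symm
  · apply (hasD hn hc hc').unit
    simp only [List.mem_cons, List.not_mem_nil, or_false, exists_eq_or_imp, exists_eq_left]
    omega

theorem EL {u : ℤ} (hn : 9 ≤ n) (h1 : u = -1 ∨ u = 4 ∨ (6 ≤ u ∧ u < n - 2) ∨ u = n - 1) :
    E n (gr n (TL n)) u := by
  have key : E n (gr n (TL n)) (-1) := by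
    have := (hasL hn).ch (0, (n : ℤ) - 1) (by simp)
    unfold E
    rw [← z_add (-1 : ℤ), show (-1 : ℤ) + n = n - 1 by ring, show (-1 : ℤ) + 1 = 0 by ring]
    exact this.symm
  rcases h1 with rfl | h1 | h1 | rfl
  · exact key
  · apply (hasL hn).unit
    simp only [List.mem_cons, List.not_mem_nil, or_false, exists_eq_or_imp, exists_eq_left]
    omega
  · apply (hasL hn).unit
    simp only [List.mem_cons, List.not_mem_nil, or_false, exists_eq_or_imp, exists_eq_left]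
    omega
  · rw [show (n : ℤ) - 1 = -1 + n by ring, E_add]
    exact key

end Pool.Agent.Work.MP_6b8b27_co
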