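import Pool.Agent.Work.MP_6b8b27_co.Assemble

namespace Pool.Agent.Work.MP_6b8b27_co

open SimpleGraph

/-- ordered pairs `(v, w)` such that `v` is an end of `P` with only neighbour `w` -/
def ends {n : ℕ} (P : SimpleGraph (Fin n)) : Set (Fin n × Fin n) :=
  {x | P.Adj x.1 x.2 ∧ ∀ c, P.Adj x.1 c → c = x.2}

theorem two_le_ends {n : ℕ} (hn : 3 ≤ n) {P : SimpleGraph (Fin n)} (h : IsHamPath P) :
    ∃ x y, x ≠ y ∧ x ∈ ends P ∧ y ∈ ends P := by
  obtain ⟨e⟩ := h
  refine ⟨(e ⟨0, by omega⟩, e ⟨1, by omega⟩), (e ⟨n - 1, by omega⟩, e ⟨n - 2, by omega⟩), ?_,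
    ⟨?_, ?_⟩, ⟨?_, ?_⟩⟩
  · intro he
    have h1 := e.injective (congrArg Prod.fst he)
    have h2 := congrArg Fin.val h1
    simp only at h2
    omega
  · rw [e.map_adj_iff, pathGraph_adj]
    simp
  · intro c hc
    obtain ⟨i, rfl⟩ := e.surjective c
    rw [e.map_adj_iff, pathGraph_adj] at hc
    simp only at hc
    congr 1
    apply Fin.ext
    simp only
    omega
  · rw [e.map_adj_iff, pathGraph_adj]
    simp only
    omega
  · intro c hc
    obtain ⟨i, rfl⟩ := e.surjective c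
    rw [e.map_adj_iff, pathGraph_adj] at hc
    simp only at hc
    congr 1
    apply Fin.ext
    simp only
    omega

theorem ends_disjoint {n : ℕ} (hn : 3 ≤ n) {P Q : SimpleGraph (Fin n)} (h : HC P Q) :
    Disjoint (ends P) (ends Q) := by
  rw [Set.disjoint_left]
  rintro ⟨v, w⟩ ⟨h1, h2⟩ ⟨h3, h4⟩
  simp only at h1 h2 h3 h4
  obtain ⟨a, b, hab, ha, hb⟩ := two_nbrs hn h v
  have key : ∀ c, (P ⊔ Q).Adj v c → c = w := by
    rintro c (hc | hc)
    · exact h2 c hc
    · exact h4 c hc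
  exact hab ((key a ha).trans (key b hb).symm)

theorem upper {n : ℕ} (hn : 3 ≤ n) (F : Finset (SimpleGraph (Fin n)))
    (hF : IsHamCycleDifferentFamily F) : F.card ≤ n.choose 2 := by
  classical
  obtain ⟨hF1, hF2⟩ := hF
  have h1 : (F.biUnion fun P => (ends P).toFinset) ⊆
      (Finset.univ : Finset (Fin n)).offDiag := by
    intro x hx
    rw [Finset.mem_biUnion] at hx
    obtain ⟨P, hP, hx⟩ := hx
    rw [Set.mem_toFinset] at hx
    rw [Finset.mem_offDiag]
    exact ⟨Finset.mem_univ _, Finset.mem_univ _, hx.1.ne⟩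
  have h2 : (F.biUnion fun P => (ends P).toFinset).card = ∑ P ∈ F, (ends P).toFinset.card := by
    apply Finset.card_biUnion
    intro P hP Q hQ hPQ
    have := ends_disjoint hn (hF2 P hP Q hQ hPQ)
    simp only [Function.onFun]
    rwa [Set.disjoint_toFinset]
  have h3 : ∀ P ∈ F, 2 ≤ (ends P).toFinset.card := by
    intro P hP
    obtain ⟨x, y, hxy, hx, hy⟩ := two_le_ends hn (hF1 P hP)
    exact Finset.one_lt_card.mpr ⟨x, Set.mem_toFinset.mpr hx, y, Set.mem_toFinset.mpr hy, hxy⟩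
  have h4 : F.card * 2 ≤ n * n - n := by
    calc F.card * 2 = ∑ _P ∈ F, 2 := by rw [Finset.sum_const, smul_eq_mul]
      _ ≤ ∑ P ∈ F, (ends P).toFinset.card := Finset.sum_le_sum h3
      _ = (F.biUnion fun P => (ends P).toFinset).card := h2.symm
      _ ≤ ((Finset.univ : Finset (Fin n)).offDiag).card := Finset.card_le_card h1
      _ = n * n - n := by rw [Finset.offDiag_card]; simp
  rw [Nat.choose_two_right, Nat.le_div_iff_mul_le (by norm_num), Nat.mul_sub_one]
  exact h4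

end Pool.Agent.Work.MP_6b8b27_co
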