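import Pool.Agent.Work.MP_6b8b27_co.Small
import Pool.Agent.Work.MP_6b8b27_co.Upper

namespace Pool.Agent.Work.MP_6b8b27_co

open SimpleGraph

theorem lower {n : ℕ} (hn : 3 ≤ n) : ∃ F : Finset (SimpleGraph (Fin n)),
    IsHamCycleDifferentFamily F ∧ F.card = n.choose 2 := by
  rcases Nat.lt_or_ge n 9 with h | h
  · rcases (show n = 3 ∨ n = 4 ∨ n = 5 ∨ n = 6 ∨ n = 7 ∨ n = 8 by omega) with
      rfl | rfl | rfl | rfl | rfl | rfl
    · exact small3
    · exact small4
    · exact small5
    · exact small6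
    · exact small7
    · exact small8
  · exact lower_large h

theorem main (n : ℕ) (hn : 3 ≤ n) : h n = n.choose 2 := by
  have hg : IsGreatest {m | ∃ F : Finset (SimpleGraph (Fin n)),
      IsHamCycleDifferentFamily F ∧ F.card = m} (n.choose 2) := by
    refine ⟨lower hn, ?_⟩
    rintro m ⟨F, hF, rfl⟩
    exact upper hn F hF
  exact hg.csSup_eq

end Pool.Agent.Work.MP_6b8b27_co
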