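import Pool.Agent.Work.MP_6b8b27_co.Blocks2

namespace Pool.Agent.Work.MP_6b8b27_co

open SimpleGraph List

variable {n : ℕ} [NeZero n] {G G' : SimpleGraph (Fin n)}

set_option linter.unusedSimpArgs false
set_option linter.unnecessarySeqFocus false

/-! ### the exceptional path `L` -/

theorem AL_same (hn : 9 ≤ n) : HC (gr n (TA n 2)) (gr n (TL n)) := by
  apply ham_AL hn ?_ (hasL hn)
  have h := hasA (n := n) (x := 2) hn
  have c1 := h.int (2 + 4, 2 + n - 1) (by simp) (n - 1) (by simp only; omega) (by simp only; omega)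
  rw [show (n : ℤ) - 1 + 1 = 0 + n by ring, z_add] at c1
  have c2 := h.ch (2, 2 + 2) (by simp)
  have c3 := h.ch (2 + 3, 2 + 1) (by simp)
  norm_num at c2 c3
  constructor
  · refine (h.mono (C' := []) ?_ (by simp)).int
    simp only [List.mem_cons, List.not_mem_nil, or_false, forall_eq_or_imp, forall_eq,
      exists_eq_or_imp, exists_eq_left]
    intro u h1 h2
    omega
  · simp only [List.mem_cons, List.not_mem_nil, or_false, forall_eq_or_imp, forall_eq]
    exact ⟨c2, c1.symm, c3⟩

theorem PL_same {e : ℤ} (hn : 9 ≤ n) (he : 3 ≤ e) (he' : e ≤ n - 3) :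
    HC (gr n (TP n 2 e)) (gr n (TL n)) := by
  apply ham_same (d := e) (e := n - 2) hn (by omega) (by omega) (by omega)
    (hasP hn (by omega) (by omega))
  have h := hasL (n := n) hn
  constructor
  · simp
  · simp only [List.mem_cons, List.not_mem_nil, or_false, forall_eq_or_imp, forall_eq]
    have c1 := h.ch (2, 0) (by simp)
    have c2 := h.ch (1, 3) (by simp)
    rw [show (2 : ℤ) + (n - 2) = 0 + n by ring, z_add,
      show (0 : ℤ) + n + 1 = 1 + n by ring, z_add]
    exact ⟨c1, c2⟩

theorem LA {y : ℤ} (hn : 9 ≤ n) (h1 : y = 4 ∨ (6 ≤ y ∧ y ≤ n - 3)) :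
    HC (gr n (TA n y)) (gr n (TL n)) := by
  apply useA1 hn
  apply EL hn
  omega

theorem LB {y : ℤ} (hn : 9 ≤ n) (h1 : y = 4 ∨ (6 ≤ y ∧ y ≤ n - 3)) :
    HC (gr n (TB n y)) (gr n (TL n)) := by
  apply useB1 hn
  apply EL hn
  omega

theorem LP {y e : ℤ} (hn : 9 ≤ n) (h1 : y = 4 ∨ (6 ≤ y ∧ y ≤ n - 3)) (he : 3 ≤ e)
    (he' : e ≤ n - 3) : HC (gr n (TP n y e)) (gr n (TL n)) := by
  apply useP1 hn (by omega) (by omega)
  apply EL hn
  omega

/-! ### the paths `U` (that is, `P` with `x = 0` and odd `d`) -/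

theorem AU {y c : ℤ} (hn : 9 ≤ n) (hc : 3 ≤ c) (hc' : c ≤ n - 2) (hy : 2 ≤ y) (hy' : y ≤ n - 3)
    (hyc : y ≠ c) : HC (gr n (TA n y)) (gr n (TP n 0 c)) := by
  apply useA1 hn
  apply EP hn <;> omega

theorem BU {y c : ℤ} (hn : 9 ≤ n) (hc : 3 ≤ c) (hc' : c ≤ n - 2) (hy : 2 ≤ y) (hy' : y ≤ n - 3)
    (hyc : y ≠ c) : HC (gr n (TB n y)) (gr n (TP n 0 c)) := by
  apply useB1 hn
  apply EP hn <;> omega

theorem PU {y c e : ℤ} (hn : 9 ≤ n) (hc : 3 ≤ c) (hc' : c ≤ n - 2) (hy : 2 ≤ y) (hy' : y ≤ n - 3)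
    (hyc : y ≠ c) (he : 3 ≤ e) (he' : e ≤ n - 3) : HC (gr n (TP n y e)) (gr n (TP n 0 c)) := by
  apply useP1 hn (by omega) (by omega)
  apply EP hn <;> omega

theorem LU {c : ℤ} (hn : 9 ≤ n) (hc : 3 ≤ c) (hc' : c ≤ n - 2) :
    HC (gr n (TL n)) (gr n (TP n 0 c)) := by
  apply useL1 hn
  apply EP hn <;> omega

/-! ### the paths `M` -/

theorem AM {y c : ℤ} (hn : 9 ≤ n) (hc : 2 ≤ c) (hc' : c ≤ n - 3) (hy : 2 ≤ y) (hy' : y ≤ n - 3)
    (hy3 : y ≠ 3) (hy4 : y ≠ n - 4) : HC (gr n (TA n y)) (gr n (TM n c)) := by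
  by_cases h : y = c
  · subst h
    apply HC.symm
    by_cases h2 : y = 2
    · subst h2
      apply useM1 hn (by omega) (by omega) <;> apply EA hn <;> omega
    · by_cases h3 : y = n - 3
      · subst h3
        apply ham_AM hn (hasM hn hc hc')
        have h := hasA (n := n) (x := n - 3) hn
        have c1 := h.ch ((n : ℤ) - 3 + 2, (n : ℤ) - 3 + 4) (by simp)
        simp only at c1
        rw [show (n : ℤ) - 3 + 4 = 1 + n by ring, z_add,
          show (n : ℤ) - 3 + 2 = n - 1 by ring] at c1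
        exact Has.nil.consC c1
      · apply useM2 hn (by omega) (by omega) <;> apply EA hn <;> omega
  · apply useA1 hn
    apply EM hn <;> omega

theorem BM {y c : ℤ} (hn : 9 ≤ n) (hc : 2 ≤ c) (hc' : c ≤ n - 3) (hy : 4 ≤ y) (hy' : y ≤ n - 3)
    (hy5 : y ≠ 5) : HC (gr n (TB n y)) (gr n (TM n c)) := by
  by_cases h : y = c
  · subst h
    apply HC.symm
    apply useM2 hn (by omega) (by omega) <;> apply EB hn <;> omega
  · apply useB1 hn
    apply EM hn <;> omega

theorem PM {y c e : ℤ} (hn : 9 ≤ n) (hc : 2 ≤ c) (hc' : c ≤ n - 3) (hy : 2 ≤ y) (hy' : y ≤ n - 3)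
    (hy3 : y ≠ 3) (hy4 : y ≠ n - 4) (he : 3 ≤ e) (he' : e ≤ n - 3) :
    HC (gr n (TP n y e)) (gr n (TM n c)) := by
  by_cases h : y = c
  · subst h
    apply HC.symm
    by_cases h2 : y = 2
    · subst h2
      by_cases h4 : e = n - 4
      · subst h4
        apply ham_MP1 hn (hasM hn hc hc')
        have h := hasP (n := n) (x := 2) (d := n - 4) hn (by omega) (by omega)
        have c1 := h.ch (2, 2 + ((n : ℤ) - 4)) (by simp)
        have c2 := h.int (2 + ((n : ℤ) - 4) + 1, 2 + n - 1) (by simp) (n - 1) (by simp only; omega)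
          (by simp only; omega)
        have c3 := h.int (2 + ((n : ℤ) - 4) + 1, 2 + n - 1) (by simp) n (by simp only; omega)
          (by simp only; omega)
        simp only at c1
        rw [show (2 : ℤ) + (n - 4) = n - 2 by ring] at c1
        rw [show (n : ℤ) - 1 + 1 = 0 + n by ring, z_add] at c2
        rw [show (n : ℤ) + 1 = 1 + n by ring, z_add, show z n (n : ℤ) = z n 0 by
          rw [← z_add (0 : ℤ), zero_add]] at c3
        constructor
        · simp only [List.mem_cons, List.not_mem_nil, or_false, forall_eq_or_imp, forall_eq]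
          constructor
          · intro u h1 h2
            exact h.int (2 + 2, 2 + ((n : ℤ) - 4)) (by simp) u (by simp only; omega) (by simp only; omega)
          · intro u h1 h2
            have : u = 0 := by omega
            subst this
            exact c3
        · simp only [List.mem_cons, List.not_mem_nil, or_false, forall_eq_or_imp, forall_eq]
          exact ⟨c1, c2⟩
      · apply useM1 hn (by omega) (by omega) <;> apply EP hn <;> omega
    · by_cases h3 : y = n - 3
      · subst h3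
        by_cases h4 : e = 4
        · subst h4
          apply ham_MP2 hn (hasM hn hc hc')
          have h := hasP (n := n) (x := n - 3) (d := 4) hn (by omega) (by omega)
          have c1 := h.ch ((n : ℤ) - 3 + 4 + 1, (n : ℤ) - 3 + 1) (by simp)
          have c2 := h.int ((n : ℤ) - 3 + 2, (n : ℤ) - 3 + 4) (by simp) (n - 1) (by simp only; omega)
            (by simp only; omega)
          have c3 := h.int ((n : ℤ) - 3 + 2, (n : ℤ) - 3 + 4) (by simp) n (by simp only; omega)
            (by simp only; omega)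
          simp only at c1
          rw [show (n : ℤ) - 3 + 4 + 1 = 2 + n by ring, z_add,
            show (n : ℤ) - 3 + 1 = n - 2 by ring] at c1
          rw [show (n : ℤ) - 1 + 1 = 0 + n by ring, z_add] at c2
          rw [show (n : ℤ) + 1 = 1 + n by ring, z_add, show z n (n : ℤ) = z n 0 by
            rw [← z_add (0 : ℤ), zero_add]] at c3
          constructor
          · simp only [List.mem_cons, List.not_mem_nil, or_false, forall_eq_or_imp, forall_eq]
            intro u h1 h2
            have : u = 0 := by omega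
            subst this
            exact c3
          · simp only [List.mem_cons, List.not_mem_nil, or_false, forall_eq_or_imp, forall_eq]
            exact ⟨c1, c2⟩
        · apply useM2 hn (by omega) (by omega) <;> apply EP hn <;> omega
      · by_cases h5 : y + e = n ∨ y + e = n - 2
        · apply useM2 hn (by omega) (by omega) <;> apply EP hn <;> omega
        · apply useM1 hn (by omega) (by omega) <;> apply EP hn <;> omega
  · apply useP1 hn (by omega) (by omega)
    apply EM hn <;> omega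

theorem LM {c : ℤ} (hn : 9 ≤ n) (hc : 2 ≤ c) (hc' : c ≤ n - 3) :
    HC (gr n (TL n)) (gr n (TM n c)) := by
  by_cases h : c = 2
  · subst h
    exact ham_LM hn (hasL hn) (hasM hn hc hc')
  · apply useL1 hn
    apply EM hn <;> omega

theorem UM {u c : ℤ} (hn : 9 ≤ n) (hc : 2 ≤ c) (hc' : c ≤ n - 3) (hu : 3 ≤ u) (hu' : u ≤ n - 2)
    (hne : u ≠ c) : HC (gr n (TP n 0 u)) (gr n (TM n c)) := by
  apply HC.symm
  rcases lt_or_gt_of_ne hne with h | h
  · exact ham_MU2 hn (by omega) h hc' (hasM hn hc hc') (hasP hn (by omega) hu')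
  · exact ham_MU1 hn hc h hu' (hasM hn hc hc') (hasP hn (by omega) hu')

theorem MM {c e : ℤ} (hn : 9 ≤ n) (hc : 2 ≤ c) (h : c < e) (he' : e ≤ n - 3) :
    HC (gr n (TM n c)) (gr n (TM n e)) :=
  ham_MM hn hc h he' (hasM hn hc (by omega)) (hasM hn (by omega) he')

theorem DM {d c : ℤ} (hn : 9 ≤ n) (hc : 2 ≤ c) (hc' : c ≤ n - 3) (hd : 1 ≤ d) (hd' : d ≤ n - 4)
    (hne : d ≠ c) : HC (gr n (TD n d)) (gr n (TM n c)) := by
  rcases lt_or_gt_of_ne hne with h | h
  · exact ham_DM1 hn hd h hc' (hasD hn hd hd') (hasM hn hc hc')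
  · exact ham_DM2 hn hc h hd' (hasD hn hd hd') (hasM hn hc hc')

/-! ### the paths `D` -/

theorem AD {y c : ℤ} (hn : 9 ≤ n) (hc : 1 ≤ c) (hc' : c ≤ n - 4) (hy : 2 ≤ y) (hy' : y ≤ n - 3)
    (hyc : y ≠ c) (hy4 : y ≠ n - 4) : HC (gr n (TA n y)) (gr n (TD n c)) := by
  by_cases h : y = c + 1 ∧ c ≠ n - 4
  · apply HC.symm
    apply useD1 hn hc hc'
    apply EA hn <;> omega
  · apply useA1 hn
    apply ED hn <;> omega

theorem BD {y c : ℤ} (hn : 9 ≤ n) (hc : 1 ≤ c) (hc' : c ≤ n - 4) (hy : 4 ≤ y) (hy' : y ≤ n - 3)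
    (hyc : y ≠ c) : HC (gr n (TB n y)) (gr n (TD n c)) := by
  by_cases h : y = c + 1 ∧ c ≠ n - 4
  · apply HC.symm
    apply useD1 hn hc hc'
    apply EB hn <;> omega
  · apply useB1 hn
    apply ED hn <;> omega

theorem PD {y c e : ℤ} (hn : 9 ≤ n) (hc : 1 ≤ c) (hc' : c ≤ n - 4) (hy : 2 ≤ y) (hy' : y ≤ n - 3)
    (hyc : y ≠ c) (he : 3 ≤ e) (he' : e ≤ n - 3) : HC (gr n (TP n y e)) (gr n (TD n c)) := by
  by_cases h : y = c + 1 ∧ c ≠ n - 4
  · obtain ⟨h1, h2⟩ := h
    apply HC.symm
    by_cases h3 : y + e = n - 1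
    · obtain rfl : e = n - 1 - y := by omega
      obtain rfl : c = y - 1 := by omega
      apply ham_DP (y := y) hn (by omega) (by omega)
      · refine (hasD hn hc hc').mono ?_ ?_
        · simp only [List.mem_cons, List.not_mem_nil, or_false, forall_eq_or_imp, forall_eq,
            exists_eq_or_imp, exists_eq_left]
          constructor <;> intro u h1 h2 <;> omega
        · simp only [List.mem_cons, List.not_mem_nil, or_false, forall_eq_or_imp, forall_eq,
            Prod.mk.injEq]
          refine ⟨?_, ?_, ?_, ?_⟩ <;> (try simp only [true_and, and_true, true_or, or_true]) <;>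
            omega
      · have h := hasP (n := n) (x := y) (d := n - 1 - y) hn (by omega) (by omega)
        have c1 := h.ch (y, y + ((n : ℤ) - 1 - y)) (by simp)
        have c2 := h.ch (y + ((n : ℤ) - 1 - y) + 1, y + 1) (by simp)
        simp only at c1 c2
        rw [show y + ((n : ℤ) - 1 - y) = n - 1 by ring] at c1
        rw [show y + ((n : ℤ) - 1 - y) + 1 = 0 + n by ring, z_add] at c2
        constructor
        · simp only [List.mem_cons, List.not_mem_nil, or_false, forall_eq_or_imp, forall_eq]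
          constructor
          · intro u h1 h2
            exact h.int (y + 2, y + ((n : ℤ) - 1 - y)) (by simp) u h1 (by simp only; omega)
          · intro u h1 h2
            exact E_add.mp (h.int (y + ((n : ℤ) - 1 - y) + 1, y + n - 1) (by simp) (u + n)
              (by simp only; omega) (by simp only; omega))
        · simp only [List.mem_cons, List.not_mem_nil, or_false, forall_eq_or_imp, forall_eq]
          exact ⟨c1, c2⟩
    · apply useD1 hn hc hc'
      apply EP hn <;> omega
  · apply useP1 hn (by omega) (by omega)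
    apply ED hn <;> omega

theorem LD {c : ℤ} (hn : 9 ≤ n) (hc : 1 ≤ c) (hc' : c ≤ n - 4) (hc2 : c ≠ 2) :
    HC (gr n (TL n)) (gr n (TD n c)) := by
  by_cases h : c = 1
  · apply HC.symm
    apply useD1 hn hc hc'
    apply EL hn
    omega
  · apply useL1 hn
    apply ED hn <;> omega

theorem UD {u d : ℤ} (hn : 9 ≤ n) (hu : 3 ≤ u) (hu' : u ≤ n - 2) (hd : 1 ≤ d) (hd' : d ≤ n - 4)
    (hne : u ≠ d + 1) : HC (gr n (TP n 0 u)) (gr n (TD n d)) := by
  apply HC.symm
  rcases lt_trichotomy u d with h | h | h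
  · exact ham_DU3 hn (by omega) h hd' (hasD hn hd hd') (hasP hn (by omega) hu')
  · subst h
    exact ham_DU2 hn (by omega) hd' (hasD hn hd hd') (hasP hn (by omega) hu')
  · exact ham_DU1 hn hd (by omega) hu' (hasD hn hd hd') (hasP hn (by omega) hu')

theorem DD {c e : ℤ} (hn : 9 ≤ n) (hc : 1 ≤ c) (h : c < e) (he' : e ≤ n - 4) :
    HC (gr n (TD n c)) (gr n (TD n e)) :=
  ham_DD hn hc h he' (hasD hn hc (by omega)) (hasD hn (by omega) he')

end Pool.Agent.Work.MP_6b8b27_co
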