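import Pool.Agent.Work.MP_6b8b27_co.Segs

namespace Pool.Agent.Work.MP_6b8b27_co

open SimpleGraph List

/-- rotation path -/
def TC (n : ℕ) (j : ℤ) : List (ℤ × ℤ) := [(j, j + n - 1)]
/-- main block path -/
def TP (n : ℕ) (x d : ℤ) : List (ℤ × ℤ) := [(x, x), (x + d, x + 2), (x + n - 1, x + d + 1), (x + 1, x + 1)]
/-- block path with first neighbour `x + 2` -/
def TA (n : ℕ) (x : ℤ) : List (ℤ × ℤ) :=
  [(x, x), (x + 2, x + 2), (x + 4, x + n - 1), (x + 3, x + 3), (x + 1, x + 1)]
/-- block path with first neighbour `x - 2` -/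
def TB (n : ℕ) (x : ℤ) : List (ℤ × ℤ) :=
  [(x, x), (x + n - 2, x + n - 3), (x + 2, x + n - 4), (x + n - 1, x + n - 1), (x + 1, x + 1)]
/-- special path, ends `-1` and `1` -/
def TM (n : ℕ) (c : ℤ) : List (ℤ × ℤ) :=
  [((n : ℤ) - 1, (n : ℤ) - 1), (c, 2), (0, 0), ((n : ℤ) - 2, c + 1), (1, 1)]
/-- special path, ends `-1` and `0` -/
def TD (n : ℕ) (c : ℤ) : List (ℤ × ℤ) :=
  [((n : ℤ) - 1, (n : ℤ) - 1), (c, 1), (c + 2, (n : ℤ) - 2), (c + 1, c + 1), (0, 0)]
/-- exceptional block path of the block `{2, 3}` -/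
def TL (n : ℕ) : List (ℤ × ℤ) :=
  [(2, 2), (0, 0), ((n : ℤ) - 1, (n : ℤ) - 1), (5, 4), ((n : ℤ) - 2, 6), (1, 1), (3, 3)]

theorem covC {n : ℕ} {j : ℤ} (hn : 9 ≤ n) : Cov n j (TC n j) := by
  constructor
  · simp only [TC, slen, List.map_cons, List.map_nil, List.sum_cons, List.sum_nil]
    omega
  · intro v h1 h2
    simp only [TC, List.mem_cons, List.not_mem_nil, or_false, exists_eq_left]
    omega

theorem covP {n : ℕ} {x d : ℤ} (hn : 9 ≤ n) (hd : 2 ≤ d) (hd' : d ≤ n - 2) : Cov n x (TP n x d) := by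
  constructor
  · simp only [TP, slen, List.map_cons, List.map_nil, List.sum_cons, List.sum_nil]
    omega
  · intro v h1 h2
    simp only [TP, List.mem_cons, List.not_mem_nil, or_false, exists_eq_or_imp, exists_eq_left]
    omega

theorem covA {n : ℕ} {x : ℤ} (hn : 9 ≤ n) : Cov n x (TA n x) := by
  constructor
  · simp only [TA, slen, List.map_cons, List.map_nil, List.sum_cons, List.sum_nil]
    omega
  · intro v h1 h2
    simp only [TA, List.mem_cons, List.not_mem_nil, or_false, exists_eq_or_imp, exists_eq_left]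
    omega

theorem covB {n : ℕ} {x : ℤ} (hn : 9 ≤ n) : Cov n x (TB n x) := by
  constructor
  · simp only [TB, slen, List.map_cons, List.map_nil, List.sum_cons, List.sum_nil]
    omega
  · intro v h1 h2
    simp only [TB, List.mem_cons, List.not_mem_nil, or_false, exists_eq_or_imp, exists_eq_left]
    omega

theorem covM {n : ℕ} {c : ℤ} (hn : 9 ≤ n) (hc : 2 ≤ c) (hc' : c ≤ n - 3) : Cov n 0 (TM n c) := by
  constructor
  · simp only [TM, slen, List.map_cons, List.map_nil, List.sum_cons, List.sum_nil]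
    omega
  · intro v h1 h2
    simp only [TM, List.mem_cons, List.not_mem_nil, or_false, exists_eq_or_imp, exists_eq_left]
    omega

theorem covD {n : ℕ} {c : ℤ} (hn : 9 ≤ n) (hc : 1 ≤ c) (hc' : c ≤ n - 4) : Cov n 0 (TD n c) := by
  constructor
  · simp only [TD, slen, List.map_cons, List.map_nil, List.sum_cons, List.sum_nil]
    omega
  · intro v h1 h2
    simp only [TD, List.mem_cons, List.not_mem_nil, or_false, exists_eq_or_imp, exists_eq_left]
    omega

theorem covL {n : ℕ} (hn : 9 ≤ n) : Cov n 0 (TL n) := by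
  constructor
  · simp only [TL, slen, List.map_cons, List.map_nil, List.sum_cons, List.sum_nil]
    omega
  · intro v h1 h2
    simp only [TL, List.mem_cons, List.not_mem_nil, or_false, exists_eq_or_imp, exists_eq_left]
    omega

end Pool.Agent.Work.MP_6b8b27_co
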