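import Pool.Agent.Work.MP_6b8b27_co.Basic

namespace Pool.Agent.Work.MP_6b8b27_co

open SimpleGraph List

/-- the residue of an integer, as an element of `Fin n` -/
def z (n : ℕ) [NeZero n] (i : ℤ) : Fin n :=
  ⟨(i % n).toNat, by
    have hn : (0 : ℤ) < n := by exact_mod_cast Nat.pos_of_ne_zero (NeZero.ne n)
    have h1 := Int.emod_nonneg i (ne_of_gt hn)
    have h2 := Int.emod_lt_of_pos i hn
    omega⟩

theorem z_eq_iff {n : ℕ} [NeZero n] {i j : ℤ} : z n i = z n j ↔ i % n = j % n := by
  have hn : (0 : ℤ) < n := by exact_mod_cast Nat.pos_of_ne_zero (NeZero.ne n)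
  have h1 := Int.emod_nonneg i (ne_of_gt hn)
  have h2 := Int.emod_nonneg j (ne_of_gt hn)
  simp only [z, Fin.mk.injEq]
  omega

theorem z_add {n : ℕ} [NeZero n] (i : ℤ) : z n (i + n) = z n i := by
  rw [z_eq_iff]; simp

theorem z_surj {n : ℕ} [NeZero n] (w : ℤ) (v : Fin n) : ∃ i, w ≤ i ∧ i < w + n ∧ z n i = v := by
  have hn : (0 : ℤ) < n := by exact_mod_cast Nat.pos_of_ne_zero (NeZero.ne n)
  refine ⟨w + ((v.val : ℤ) - w) % n, ?_, ?_, ?_⟩
  · have := Int.emod_nonneg ((v.val : ℤ) - w) (ne_of_gt hn)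
    omega
  · have := Int.emod_lt_of_pos ((v.val : ℤ) - w) hn
    omega
  · apply Fin.ext
    simp only [z]
    have h3 : (w + ((v.val : ℤ) - w) % n) % n = (v.val : ℤ) := by
      rw [Int.add_emod_emod, add_sub_cancel]
      exact Int.emod_eq_of_lt (by omega) (by exact_mod_cast v.isLt)
    rw [h3]
    simp

/-- the integers from `p.1` to `p.2`, in increasing or decreasing order -/
def seg (p : ℤ × ℤ) : List ℤ :=
  if p.1 ≤ p.2 then (List.range (p.2 - p.1 + 1).toNat).map (fun i : ℕ => p.1 + (i : ℤ))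
  else (List.range (p.1 - p.2 + 1).toNat).map (fun i : ℕ => p.1 - (i : ℤ))

theorem mem_seg {p : ℤ × ℤ} {v : ℤ} : v ∈ seg p ↔ min p.1 p.2 ≤ v ∧ v ≤ max p.1 p.2 := by
  unfold seg
  split_ifs with h
  · simp only [List.mem_map, List.mem_range]
    constructor
    · rintro ⟨i, hi, rfl⟩
      omega
    · intro hv
      exact ⟨(v - p.1).toNat, by omega, by omega⟩
  · simp only [List.mem_map, List.mem_range]
    constructor
    · rintro ⟨i, hi, rfl⟩
      omega
    · intro hv
      exact ⟨(p.1 - v).toNat, by omega, by omega⟩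

/-- number of entries of a segment -/
def slen (p : ℤ × ℤ) : ℤ := max p.1 p.2 - min p.1 p.2 + 1

theorem length_seg (p : ℤ × ℤ) : ((seg p).length : ℤ) = slen p := by
  unfold seg slen
  split_ifs with h
  · simp only [List.length_map, List.length_range]
    omega
  · simp only [List.length_map, List.length_range]
    omega

theorem head_seg (p : ℤ × ℤ) : (seg p).head? = some p.1 := by
  unfold seg
  split_ifs with h
  · rw [List.head?_eq_getElem?, List.getElem?_eq_getElem (by simp; omega)]
    simp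
  · rw [List.head?_eq_getElem?, List.getElem?_eq_getElem (by simp; omega)]
    simp

theorem getLast_seg (p : ℤ × ℤ) : (seg p).getLast? = some p.2 := by
  unfold seg
  split_ifs with h
  · rw [List.getLast?_eq_getElem?, List.getElem?_eq_getElem (by simp; omega)]
    simp
    omega
  · rw [List.getLast?_eq_getElem?, List.getElem?_eq_getElem (by simp; omega)]
    simp
    omega

theorem nxt_seg {p : ℤ × ℤ} {a b : ℤ} (h : Nxt (seg p) a b) :
    (b = a + 1 ∧ min p.1 p.2 ≤ a ∧ a < max p.1 p.2) ∨
    (a = b + 1 ∧ min p.1 p.2 ≤ b ∧ b < max p.1 p.2) := by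
  rw [nxt_iff] at h
  obtain ⟨i, hi, h1, h2⟩ := h
  unfold seg at hi h1 h2
  split_ifs at hi h1 h2 with hp
  · simp only [List.length_map, List.length_range, List.getElem_map, List.getElem_range] at hi h1 h2
    omega
  · simp only [List.length_map, List.length_range, List.getElem_map, List.getElem_range] at hi h1 h2
    omega

theorem seg_nxt {p : ℤ × ℤ} {u : ℤ} (h1 : min p.1 p.2 ≤ u) (h2 : u < max p.1 p.2) :
    Nxt (seg p) u (u + 1) ∨ Nxt (seg p) (u + 1) u := by
  by_cases hp : p.1 ≤ p.2
  · left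
    rw [nxt_iff]
    unfold seg
    simp only [hp, if_true, List.length_map, List.length_range, List.getElem_map,
      List.getElem_range]
    exact ⟨(u - p.1).toNat, by omega, by omega, by omega⟩
  · right
    rw [nxt_iff]
    unfold seg
    simp only [hp, if_false, List.length_map, List.length_range, List.getElem_map,
      List.getElem_range]
    exact ⟨(p.1 - u - 1).toNat, by omega, by omega, by omega⟩

/-- the junctions between consecutive segments -/
def joins : List (ℤ × ℤ) → List (ℤ × ℤ)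
  | [] => []
  | [_] => []
  | p :: q :: t => (p.2, q.1) :: joins (q :: t)

/-- list of all entries of a list of segments -/
def expand (T : List (ℤ × ℤ)) : List ℤ := T.flatMap seg

theorem nxt_append {α : Type*} {l₁ l₂ : List α} {a b : α} :
    Nxt (l₁ ++ l₂) a b ↔
      Nxt l₁ a b ∨ Nxt l₂ a b ∨ (l₁.getLast? = some a ∧ l₂.head? = some b) := by
  constructor
  · intro h
    rw [nxt_iff] at h
    obtain ⟨i, hi, h1, h2⟩ := h
    rw [List.length_append] at hi
    by_cases c1 : i + 1 < l₁.length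
    · left
      rw [nxt_iff]
      refine ⟨i, c1, ?_, ?_⟩
      · rw [← h1, List.getElem_append_left]
      · rw [← h2, List.getElem_append_left]
    · by_cases c2 : l₁.length ≤ i
      · right; left
        rw [nxt_iff]
        refine ⟨i - l₁.length, by omega, ?_, ?_⟩
        · rw [← h1, List.getElem_append_right c2]
        · rw [← h2, List.getElem_append_right (by omega)]
          congr 1
          omega
      · right; right
        have c3 : i + 1 = l₁.length := by omega
        constructor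
        · rw [List.getLast?_eq_getElem?, List.getElem?_eq_getElem (by omega)]
          rw [← h1, List.getElem_append_left (by omega)]
          congr 2
          omega
        · rw [List.head?_eq_getElem?, List.getElem?_eq_getElem (by omega)]
          rw [← h2, List.getElem_append_right (by omega)]
          congr 2
          omega
  · rintro (h | h | ⟨h1, h2⟩)
    · exact h.trans (List.prefix_append _ _).isInfix
    · exact h.trans (List.suffix_append _ _).isInfix
    · rw [List.getLast?_eq_some_iff] at h1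
      obtain ⟨ys, rfl⟩ := h1
      rw [List.head?_eq_some_iff] at h2
      obtain ⟨zs, rfl⟩ := h2
      exact ⟨ys, zs, by simp⟩

theorem head_expand (p : ℤ × ℤ) (T : List (ℤ × ℤ)) : (expand (p :: T)).head? = some p.1 := by
  unfold expand
  rw [List.flatMap_cons, List.head?_append, head_seg]
  rfl

theorem nxt_expand {T : List (ℤ × ℤ)} {a b : ℤ} :
    Nxt (expand T) a b ↔ (∃ p ∈ T, Nxt (seg p) a b) ∨ (a, b) ∈ joins T := by
  induction T with
  | nil =>
    simp only [expand, List.flatMap_nil, List.not_mem_nil, false_and, exists_false, joins, or_false,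
      iff_false]
    intro h
    rw [nxt_iff] at h
    obtain ⟨i, hi, -⟩ := h
    simp at hi
  | cons p t ih =>
    have e : expand (p :: t) = seg p ++ expand t := by simp [expand]
    rw [e, nxt_append, ih, getLast_seg]
    cases t with
    | nil =>
      simp [joins, expand]
    | cons q t =>
      rw [head_expand]
      simp only [List.mem_cons, joins, Prod.mk.injEq, Option.some.injEq]
      constructor
      · rintro (h | (⟨r, hr, h⟩ | h) | ⟨h1, h2⟩)
        · exact Or.inl ⟨p, Or.inl rfl, h⟩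
        · exact Or.inl ⟨r, Or.inr hr, h⟩
        · exact Or.inr (Or.inr h)
        · exact Or.inr (Or.inl ⟨h1.symm, h2.symm⟩)
      · rintro (⟨r, rfl | hr, h⟩ | ⟨h1, h2⟩ | h)
        · exact Or.inl h
        · exact Or.inr (Or.inl (Or.inl ⟨r, hr, h⟩))
        · exact Or.inr (Or.inr ⟨h1.symm, h2.symm⟩)
        · exact Or.inr (Or.inl (Or.inr h))


/-- the segments of `T` form an arrangement of the window `[w, w + n)` -/
structure Cov (n : ℕ) (w : ℤ) (T : List (ℤ × ℤ)) : Prop where
  len : (T.map slen).sum = n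
  cov : ∀ v, w ≤ v → v < w + n → ∃ p ∈ T, min p.1 p.2 ≤ v ∧ v ≤ max p.1 p.2

theorem length_expand (T : List (ℤ × ℤ)) : ((expand T).length : ℤ) = (T.map slen).sum := by
  induction T with
  | nil => simp [expand]
  | cons p t ih =>
    have e : expand (p :: t) = seg p ++ expand t := by simp [expand]
    rw [e, List.length_append, Nat.cast_add, length_seg, ih]
    simp

theorem Cov.length {n : ℕ} {w : ℤ} {T : List (ℤ × ℤ)} (h : Cov n w T) :
    (expand T).length = n := by
  have := length_expand T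
  rw [h.len] at this
  exact_mod_cast this

theorem Cov.nodup {n : ℕ} [NeZero n] {w : ℤ} {T : List (ℤ × ℤ)} (h : Cov n w T) :
    ((expand T).map (z n)).Nodup := by
  have hmem : ∀ v : Fin n, v ∈ (expand T).map (z n) := by
    intro v
    obtain ⟨i, h1, h2, rfl⟩ := z_surj w v
    obtain ⟨p, hp, h3⟩ := h.cov i h1 h2
    exact List.mem_map_of_mem (List.mem_flatMap.mpr ⟨p, hp, mem_seg.mpr h3⟩)
  have h1 : ((expand T).map (z n)).toFinset = Finset.univ := by
    ext v; simp [hmem v]
  have h2 : ((expand T).map (z n)).toFinset.card = n := by rw [h1]; simp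
  rw [List.card_toFinset] at h2
  have h3 : ((expand T).map (z n)).dedup = (expand T).map (z n) := by
    apply List.Sublist.eq_of_length (List.dedup_sublist _)
    rw [h2, List.length_map, h.length]
  rw [← h3]
  exact List.nodup_dedup _

theorem nxt_map {α β : Type*} {f : α → β} {L : List α} {u v : β} :
    Nxt (L.map f) u v ↔ ∃ a b, Nxt L a b ∧ f a = u ∧ f b = v := by
  rw [nxt_iff]
  constructor
  · rintro ⟨i, hi, h1, h2⟩
    rw [List.length_map] at hi
    rw [List.getElem_map] at h1 h2
    exact ⟨L[i], L[i+1], nxt_iff.mpr ⟨i, hi, rfl, rfl⟩, h1, h2⟩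
  · rintro ⟨a, b, h, h1, h2⟩
    rw [nxt_iff] at h
    obtain ⟨i, hi, h3, h4⟩ := h
    exact ⟨i, by rwa [List.length_map], by rw [List.getElem_map, h3, h1],
      by rw [List.getElem_map, h4, h2]⟩

theorem Nxt.ne {α : Type*} {L : List α} (hL : L.Nodup) {a b : α} (h : Nxt L a b) : a ≠ b := by
  rw [nxt_iff] at h
  obtain ⟨i, hi, rfl, rfl⟩ := h
  intro he
  have := (hL.getElem_inj_iff).mp he
  omega

/-- the path given by a list of segments -/
def gr (n : ℕ) [NeZero n] (T : List (ℤ × ℤ)) : SimpleGraph (Fin n) :=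
  ofList ((expand T).map (z n))

theorem isHamPath_gr {n : ℕ} [NeZero n] {w : ℤ} {T : List (ℤ × ℤ)} (h : Cov n w T) :
    IsHamPath (gr n T) :=
  isHamPath_ofList _ h.nodup (by rw [List.length_map, h.length])

/-- known edges: unit steps inside the intervals of `I`, and the chords `C` -/
structure Has (n : ℕ) [NeZero n] (G : SimpleGraph (Fin n)) (I C : List (ℤ × ℤ)) : Prop where
  int : ∀ p ∈ I, ∀ u, p.1 ≤ u → u < p.2 → G.Adj (z n u) (z n (u + 1))
  ch : ∀ p ∈ C, G.Adj (z n p.1) (z n p.2)

theorem has_gr {n : ℕ} [NeZero n] {w : ℤ} {T : List (ℤ × ℤ)} (h : Cov n w T) :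
    Has n (gr n T) (T.map fun p => (min p.1 p.2, max p.1 p.2)) (joins T) := by
  have key : ∀ a b, Nxt (expand T) a b → (gr n T).Adj (z n a) (z n b) := by
    intro a b hab
    have h1 : Nxt ((expand T).map (z n)) (z n a) (z n b) := nxt_map.mpr ⟨a, b, hab, rfl, rfl⟩
    exact ⟨h1.ne h.nodup, Or.inl h1⟩
  constructor
  · intro q hq u hu1 hu2
    rw [List.mem_map] at hq
    obtain ⟨p, hp, rfl⟩ := hq
    simp only at hu1 hu2
    rcases seg_nxt hu1 hu2 with h1 | h1
    · exact key _ _ (nxt_expand.mpr (Or.inl ⟨p, hp, h1⟩))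
    · exact (key _ _ (nxt_expand.mpr (Or.inl ⟨p, hp, h1⟩))).symm
  · intro p hp
    exact key _ _ (nxt_expand.mpr (Or.inr hp))

theorem Has.sup {n : ℕ} [NeZero n] {G G' : SimpleGraph (Fin n)} {I C I' C' : List (ℤ × ℤ)}
    (h : Has n G I C) (h' : Has n G' I' C') : Has n (G ⊔ G') (I ++ I') (C ++ C') := by
  constructor
  · intro p hp u h1 h2
    rw [List.mem_append] at hp
    rcases hp with hp | hp
    · exact Or.inl (h.int p hp u h1 h2)
    · exact Or.inr (h'.int p hp u h1 h2)
  · intro p hp
    rw [List.mem_append] at hp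
    rcases hp with hp | hp
    · exact Or.inl (h.ch p hp)
    · exact Or.inr (h'.ch p hp)

theorem ham_of_check {n : ℕ} [NeZero n] (hn : 3 ≤ n) {G : SimpleGraph (Fin n)}
    {I C : List (ℤ × ℤ)} (hG : Has n G I C) (w : ℤ) (p₀ : ℤ × ℤ) (T : List (ℤ × ℤ))
    (hT : Cov n w (p₀ :: T))
    (h3 : ∀ p ∈ p₀ :: T, ∀ u, min p.1 p.2 ≤ u → u < max p.1 p.2 → ∃ q ∈ I, q.1 ≤ u ∧ u < q.2)
    (h4 : ∀ r ∈ joins (p₀ :: T ++ [(p₀.1, p₀.1)]),
      (∃ q ∈ C, (r.1 = q.1 ∧ r.2 = q.2) ∨ (r.1 = q.2 ∧ r.2 = q.1)) ∨
      (∃ q ∈ I, (q.1 ≤ r.1 ∧ r.1 < q.2 ∧ r.2 = r.1 + 1) ∨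
        (q.1 ≤ r.2 ∧ r.2 < q.2 ∧ r.1 = r.2 + 1))) :
    (cycleGraph n).IsContained G := by
  have hj : ∀ a b, (a, b) ∈ joins (p₀ :: T ++ [(p₀.1, p₀.1)]) → G.Adj (z n a) (z n b) := by
    intro a b hab
    rcases h4 _ hab with ⟨q, hq, ⟨h1, h2⟩ | ⟨h1, h2⟩⟩ | ⟨q, hq, ⟨h1, h2, h3⟩ | ⟨h1, h2, h3⟩⟩
    · simp only at h1 h2
      subst h1 h2
      exact hG.ch q hq
    · simp only at h1 h2
      subst h1 h2
      exact (hG.ch q hq).symm
    · simp only at h1 h2 h3
      subst h3
      exact hG.int q hq a h1 h2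
    · simp only at h1 h2 h3
      subst h3
      exact (hG.int q hq b h1 h2).symm
  have hall : ∀ a b, Nxt (expand (p₀ :: T ++ [(p₀.1, p₀.1)])) a b → G.Adj (z n a) (z n b) := by
    intro a b hab
    rw [nxt_expand] at hab
    rcases hab with ⟨p, hp, h⟩ | h
    · rw [List.mem_append, List.mem_singleton] at hp
      rcases hp with hp | rfl
      · rcases nxt_seg h with ⟨rfl, h1, h2⟩ | ⟨rfl, h1, h2⟩
        · obtain ⟨q, hq, h5, h6⟩ := h3 p hp _ h1 h2
          exact hG.int q hq _ h5 h6
        · obtain ⟨q, hq, h5, h6⟩ := h3 p hp _ h1 h2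
          exact (hG.int q hq _ h5 h6).symm
      · rcases nxt_seg h with ⟨rfl, h1, h2⟩ | ⟨rfl, h1, h2⟩
        · simp only at h1 h2; omega
        · simp only at h1 h2; omega
    · exact hj _ _ h
  have eexp : expand (p₀ :: T ++ [(p₀.1, p₀.1)]) = expand (p₀ :: T) ++ [p₀.1] := by
    simp [expand, seg]
  rw [eexp] at hall
  apply hamCycle_of_list G ((expand (p₀ :: T)).map (z n)) hn hT.nodup
    (by rw [List.length_map, hT.length])
  · intro a b hab
    rw [nxt_map] at hab
    obtain ⟨i, j, h, rfl, rfl⟩ := hab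
    exact hall i j (nxt_append.mpr (Or.inl h))
  · intro a b ha hb
    rw [List.getLast?_map, Option.map_eq_some_iff] at ha
    rw [List.head?_map, Option.map_eq_some_iff] at hb
    obtain ⟨i, hi, rfl⟩ := ha
    obtain ⟨j, hj', rfl⟩ := hb
    rw [head_expand] at hj'
    refine hall i j (nxt_append.mpr (Or.inr (Or.inr ⟨hi, ?_⟩)))
    simpa using hj'

end Pool.Agent.Work.MP_6b8b27_co
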