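import Pool.Agent.Work.MP_6b8b27_co.Assemble

namespace Pool.Agent.Work.MP_6b8b27_co

open SimpleGraph List

/-- `a` and `b` are neighbours in the list -/
def adjB {α : Type*} [DecidableEq α] : List α → α → α → Bool
  | x :: y :: t, a, b => (x == a && y == b) || (x == b && y == a) || adjB (y :: t) a b
  | _, _, _ => false

theorem adjB_spec {α : Type*} [DecidableEq α] {L : List α} {a b : α} (h : adjB L a b = true) :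
    Nxt L a b ∨ Nxt L b a := by
  induction L with
  | nil => simp [adjB] at h
  | cons x t ih =>
    cases t with
    | nil => simp [adjB] at h
    | cons y t =>
      simp only [adjB, Bool.or_eq_true, Bool.and_eq_true, beq_iff_eq] at h
      rcases h with (⟨rfl, rfl⟩ | ⟨rfl, rfl⟩) | h
      · exact Or.inl ⟨[], t, rfl⟩
      · exact Or.inr ⟨[], t, rfl⟩
      · rcases ih h with h | h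
        · exact Or.inl (h.trans (List.suffix_cons _ _).isInfix)
        · exact Or.inr (h.trans (List.suffix_cons _ _).isInfix)

/-- consecutive entries of the list are neighbours in `p` or in `q` -/
def chainB {α : Type*} [DecidableEq α] (p q : List α) : List α → Bool
  | x :: y :: t => (adjB p x y || adjB q x y) && chainB p q (y :: t)
  | _ => true

theorem chainB_spec {α : Type*} [DecidableEq α] {p q L : List α} {a b : α}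
    (h : chainB p q L = true) (hab : Nxt L a b) : adjB p a b = true ∨ adjB q a b = true := by
  induction L with
  | nil =>
    rw [nxt_iff] at hab
    obtain ⟨i, hi, -⟩ := hab
    simp at hi
  | cons x t ih =>
    cases t with
    | nil =>
      rw [nxt_iff] at hab
      obtain ⟨i, hi, -⟩ := hab
      simp at hi
    | cons y t =>
      simp only [chainB, Bool.and_eq_true, Bool.or_eq_true] at h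
      have h2 : Nxt ([x] ++ (y :: t)) a b := hab
      rw [nxt_append] at h2
      rcases h2 with h2 | h2 | ⟨h3, h4⟩
      · rw [nxt_iff] at h2
        obtain ⟨i, hi, -⟩ := h2
        simp at hi
      · exact ih h.2 h2
      · simp only [List.getLast?_singleton, List.head?_cons, Option.some.injEq] at h3 h4
        subst h3 h4
        exact h.1

/-- certificate check for one pair -/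
def okCycle (n : ℕ) (p q c : List (Fin n)) : Bool :=
  match c with
  | [] => false
  | x :: t => decide (x :: t).Nodup && decide ((x :: t).length = n) && chainB p q (x :: t ++ [x])

theorem okCycle_spec {n : ℕ} (hn : 3 ≤ n) {p q c : List (Fin n)} (hp : p.Nodup) (hq : q.Nodup)
    (h : okCycle n p q c = true) : HC (ofList p) (ofList q) := by
  cases c with
  | nil => simp [okCycle] at h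
  | cons x t =>
    simp only [okCycle, Bool.and_eq_true, decide_eq_true_eq] at h
    obtain ⟨⟨h1, h2⟩, h3⟩ := h
    have key : ∀ a b, Nxt (x :: t ++ [x]) a b → (ofList p ⊔ ofList q).Adj a b := by
      intro a b hab
      rcases chainB_spec h3 hab with h4 | h4
      · left
        have h5 := adjB_spec h4
        refine ⟨?_, h5⟩
        rcases h5 with h5 | h5
        · exact h5.ne hp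
        · exact (h5.ne hp).symm
      · right
        have h5 := adjB_spec h4
        refine ⟨?_, h5⟩
        rcases h5 with h5 | h5
        · exact h5.ne hq
        · exact (h5.ne hq).symm
    apply hamCycle_of_list _ (x :: t) hn h1 h2
    · intro a b hab
      exact key a b (nxt_append.mpr (Or.inl hab))
    · intro a b ha hb
      refine key a b (nxt_append.mpr (Or.inr (Or.inr ⟨ha, ?_⟩)))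
      simpa using hb

/-- certificate check for a family -/
def okFam (n : ℕ) : List (List (Fin n)) → List (List (List (Fin n))) → Bool
  | [], _ => true
  | p :: ps, cs :: css => decide p.Nodup && decide (p.length = n) && decide (ps.length = cs.length)
      && (ps.zip cs).all (fun x => okCycle n p x.1 x.2) && okFam n ps css
  | _ :: _, [] => false

theorem okFam_path {n : ℕ} {ps : List (List (Fin n))} {css : List (List (List (Fin n)))}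
    (h : okFam n ps css = true) : ∀ p ∈ ps, p.Nodup ∧ p.length = n := by
  induction ps generalizing css with
  | nil => simp
  | cons p ps ih =>
    cases css with
    | nil => simp [okFam] at h
    | cons cs css =>
      simp only [okFam, Bool.and_eq_true, decide_eq_true_eq] at h
      obtain ⟨⟨⟨⟨h1, h2⟩, -⟩, -⟩, h5⟩ := h
      intro q hq
      rw [List.mem_cons] at hq
      rcases hq with rfl | hq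
      · exact ⟨h1, h2⟩
      · exact ih h5 q hq

theorem okFam_spec {n : ℕ} (hn : 3 ≤ n) {ps : List (List (Fin n))}
    {css : List (List (List (Fin n)))} (h : okFam n ps css = true) :
    ps.Pairwise fun p q => HC (ofList p) (ofList q) := by
  induction ps generalizing css with
  | nil => exact List.Pairwise.nil
  | cons p ps ih =>
    have hall := okFam_path h
    cases css with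
    | nil => simp [okFam] at h
    | cons cs css =>
      simp only [okFam, Bool.and_eq_true, decide_eq_true_eq, List.all_eq_true] at h
      obtain ⟨⟨⟨⟨h1, h2⟩, h3⟩, h4⟩, h5⟩ := h
      rw [List.pairwise_cons]
      refine ⟨?_, ih h5⟩
      intro q hq
      obtain ⟨i, hi, rfl⟩ := List.getElem_of_mem hq
      have h6 : (ps[i], cs[i]'(by omega)) ∈ ps.zip cs := by
        rw [List.mem_iff_getElem]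
        exact ⟨i, by rw [List.length_zip]; omega, by simp⟩
      exact okCycle_spec hn h1 (hall _ (List.mem_cons_of_mem _ hq)).1 (h4 _ h6)

theorem small_of_cert {n : ℕ} (hn : 3 ≤ n) {ps : List (List (Fin n))}
    {css : List (List (List (Fin n)))} (h : okFam n ps css = true)
    (hl : ps.length = n.choose 2) : ∃ F : Finset (SimpleGraph (Fin n)),
    IsHamCycleDifferentFamily F ∧ F.card = n.choose 2 := by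
  have hp := okFam_path h
  have hpw := okFam_spec hn h
  rw [List.pairwise_iff_getElem] at hpw
  obtain ⟨F, hF, hc⟩ := family_of_fun hn (fun i : Fin ps.length => ofList ps[i])
    (fun i => isHamPath_ofList _ (hp _ (List.getElem_mem _)).1 (hp _ (List.getElem_mem _)).2) (by
      intro i j hij
      have hne : i.val ≠ j.val := fun h => hij (Fin.ext h)
      rcases lt_or_gt_of_ne hne with h | h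
      · exact hpw i.val j.val i.isLt j.isLt h
      · exact (hpw j.val i.val j.isLt i.isLt h).symm)
  exact ⟨F, hF, by rw [hc, Fintype.card_fin, hl]⟩

/-- family for `n = 3` -/
def ps3 : List (List (Fin 3)) :=
  [[0, 1, 2],
   [0, 2, 1],
   [1, 0, 2]]

/-- certificates for `n = 3` -/
def cs3 : List (List (List (Fin 3))) :=
  [[[0, 1, 2],
    [0, 1, 2]],
   [[0, 1, 2]],
   []]

theorem small3 : ∃ F : Finset (SimpleGraph (Fin 3)),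
    IsHamCycleDifferentFamily F ∧ F.card = Nat.choose 3 2 :=
  small_of_cert (by norm_num) (ps := ps3) (css := cs3) (by decide +kernel) (by decide +kernel)

/-- family for `n = 4` -/
def ps4 : List (List (Fin 4)) :=
  [[0, 1, 2, 3],
   [0, 2, 1, 3],
   [0, 3, 1, 2],
   [1, 0, 3, 2],
   [1, 2, 0, 3],
   [1, 3, 0, 2]]

/-- certificates for `n = 4` -/
def cs4 : List (List (List (Fin 4))) :=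
  [[[0, 1, 3, 2],
    [0, 1, 2, 3],
    [0, 1, 2, 3],
    [0, 1, 2, 3],
    [0, 1, 2, 3]],
   [[0, 2, 1, 3],
    [0, 1, 2, 3],
    [0, 2, 1, 3],
    [0, 2, 1, 3]],
   [[0, 1, 2, 3],
    [0, 2, 1, 3],
    [0, 2, 1, 3]],
   [[0, 1, 2, 3],
    [0, 1, 3, 2]],
   [[0, 2, 1, 3]],
   []]

theorem small4 : ∃ F : Finset (SimpleGraph (Fin 4)),
    IsHamCycleDifferentFamily F ∧ F.card = Nat.choose 4 2 :=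
  small_of_cert (by norm_num) (ps := ps4) (css := cs4) (by decide +kernel) (by decide +kernel)

/-- family for `n = 5` -/
def ps5 : List (List (Fin 5)) :=
  [[0, 1, 2, 3, 4],
   [0, 2, 1, 4, 3],
   [0, 3, 1, 2, 4],
   [0, 4, 2, 1, 3],
   [1, 0, 4, 3, 2],
   [1, 2, 3, 0, 4],
   [1, 3, 0, 4, 2],
   [1, 4, 3, 0, 2],
   [2, 1, 4, 0, 3],
   [3, 2, 0, 1, 4]]

/-- certificates for `n = 5` -/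
def cs5 : List (List (List (Fin 5))) :=
  [[[0, 1, 4, 3, 2],
    [0, 1, 2, 4, 3],
    [0, 1, 2, 3, 4],
    [0, 1, 2, 3, 4],
    [0, 1, 2, 3, 4],
    [0, 3, 1, 2, 4],
    [0, 1, 4, 3, 2],
    [0, 3, 2, 1, 4],
    [0, 1, 4, 3, 2]],
   [[0, 2, 1, 4, 3],
    [0, 2, 1, 3, 4],
    [0, 1, 4, 3, 2],
    [0, 3, 2, 1, 4],
    [0, 3, 1, 2, 4],
    [0, 2, 1, 4, 3],
    [0, 2, 1, 4, 3],
    [0, 1, 4, 3, 2]],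
   [[0, 3, 1, 2, 4],
    [0, 3, 1, 2, 4],
    [0, 3, 1, 2, 4],
    [0, 3, 1, 2, 4],
    [0, 2, 1, 4, 3],
    [0, 3, 1, 2, 4],
    [0, 1, 4, 2, 3]],
   [[0, 1, 2, 3, 4],
    [0, 3, 1, 2, 4],
    [0, 3, 1, 2, 4],
    [0, 3, 1, 2, 4],
    [0, 3, 1, 2, 4],
    [0, 1, 3, 2, 4]],
   [[0, 1, 2, 3, 4],
    [0, 1, 3, 2, 4],
    [0, 1, 4, 3, 2],
    [0, 3, 2, 1, 4],
    [0, 1, 4, 3, 2]],
   [[0, 3, 1, 2, 4],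
    [0, 3, 2, 1, 4],
    [0, 3, 2, 1, 4],
    [0, 3, 2, 1, 4]],
   [[0, 2, 4, 1, 3],
    [0, 3, 1, 2, 4],
    [0, 1, 4, 2, 3]],
   [[0, 2, 1, 4, 3],
    [0, 1, 4, 3, 2]],
   [[0, 3, 2, 1, 4]],
   []]

theorem small5 : ∃ F : Finset (SimpleGraph (Fin 5)),
    IsHamCycleDifferentFamily F ∧ F.card = Nat.choose 5 2 :=
  small_of_cert (by norm_num) (ps := ps5) (css := cs5) (by decide +kernel) (by decide +kernel)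

/-- family for `n = 6` -/
def ps6 : List (List (Fin 6)) :=
  [[0, 1, 2, 3, 4, 5],
   [1, 2, 3, 4, 5, 0],
   [2, 3, 4, 5, 0, 1],
   [3, 4, 5, 0, 1, 2],
   [4, 5, 0, 1, 2, 3],
   [5, 0, 1, 2, 3, 4],
   [0, 2, 4, 5, 3, 1],
   [0, 3, 2, 5, 4, 1],
   [0, 4, 3, 2, 5, 1],
   [2, 4, 0, 1, 5, 3],
   [2, 5, 4, 1, 0, 3],
   [2, 0, 5, 4, 1, 3],
   [4, 0, 2, 3, 1, 5],
   [4, 1, 0, 3, 2, 5],
   [4, 2, 1, 0, 3, 5]]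

/-- certificates for `n = 6` -/
def cs6 : List (List (List (Fin 6))) :=
  [[[0, 1, 2, 3, 4, 5],
    [0, 1, 2, 3, 4, 5],
    [0, 1, 2, 3, 4, 5],
    [0, 1, 2, 3, 4, 5],
    [0, 1, 2, 3, 4, 5],
    [0, 1, 3, 5, 4, 2],
    [0, 1, 4, 5, 2, 3],
    [0, 1, 5, 2, 3, 4],
    [0, 1, 2, 3, 5, 4],
    [0, 1, 4, 5, 2, 3],
    [0, 1, 2, 3, 4, 5],
    [0, 1, 5, 4, 3, 2],
    [0, 1, 4, 5, 2, 3],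
    [0, 1, 2, 4, 5, 3]],
   [[0, 1, 2, 3, 4, 5],
    [0, 1, 2, 3, 4, 5],
    [0, 1, 2, 3, 4, 5],
    [0, 1, 2, 3, 4, 5],
    [0, 2, 1, 3, 4, 5],
    [0, 3, 4, 1, 2, 5],
    [0, 4, 3, 2, 1, 5],
    [0, 1, 2, 3, 4, 5],
    [0, 3, 4, 1, 2, 5],
    [0, 2, 3, 1, 4, 5],
    [0, 2, 3, 1, 5, 4],
    [0, 3, 4, 1, 2, 5],
    [0, 1, 2, 3, 4, 5]],
   [[0, 1, 2, 3, 4, 5],
    [0, 1, 2, 3, 4, 5],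
    [0, 1, 2, 3, 4, 5],
    [0, 1, 3, 2, 4, 5],
    [0, 1, 4, 3, 2, 5],
    [0, 1, 5, 2, 3, 4],
    [0, 1, 5, 3, 2, 4],
    [0, 1, 4, 3, 2, 5],
    [0, 2, 3, 1, 4, 5],
    [0, 1, 5, 4, 3, 2],
    [0, 1, 4, 3, 2, 5],
    [0, 1, 2, 3, 4, 5]],
   [[0, 1, 2, 3, 4, 5],
    [0, 1, 2, 3, 4, 5],
    [0, 1, 2, 4, 3, 5],
    [0, 3, 4, 1, 2, 5],
    [0, 1, 2, 3, 4, 5],
    [0, 1, 2, 4, 3, 5],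
    [0, 3, 4, 1, 2, 5],
    [0, 2, 1, 3, 4, 5],
    [0, 1, 2, 3, 4, 5],
    [0, 3, 4, 1, 2, 5],
    [0, 1, 2, 4, 3, 5]],
   [[0, 1, 2, 3, 4, 5],
    [0, 1, 3, 2, 4, 5],
    [0, 3, 2, 1, 4, 5],
    [0, 1, 2, 3, 4, 5],
    [0, 1, 2, 3, 5, 4],
    [0, 3, 2, 1, 4, 5],
    [0, 2, 3, 1, 4, 5],
    [0, 2, 3, 1, 5, 4],
    [0, 3, 2, 1, 4, 5],
    [0, 1, 2, 4, 5, 3]],
   [[0, 1, 2, 3, 4, 5],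
    [0, 3, 4, 1, 2, 5],
    [0, 1, 5, 2, 3, 4],
    [0, 1, 2, 4, 3, 5],
    [0, 3, 4, 1, 2, 5],
    [0, 1, 2, 3, 4, 5],
    [0, 4, 3, 2, 1, 5],
    [0, 3, 4, 1, 2, 5],
    [0, 1, 2, 4, 3, 5]],
   [[0, 2, 5, 4, 1, 3],
    [0, 2, 3, 1, 5, 4],
    [0, 1, 3, 5, 4, 2],
    [0, 1, 4, 2, 5, 3],
    [0, 2, 4, 1, 3, 5],
    [0, 2, 3, 1, 5, 4],
    [0, 1, 4, 5, 2, 3],
    [0, 1, 2, 4, 5, 3]],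
   [[0, 3, 2, 5, 1, 4],
    [0, 3, 2, 5, 1, 4],
    [0, 1, 4, 5, 2, 3],
    [0, 2, 3, 1, 4, 5],
    [0, 3, 2, 5, 1, 4],
    [0, 1, 4, 5, 2, 3],
    [0, 1, 4, 5, 2, 3]],
   [[0, 1, 5, 2, 3, 4],
    [0, 3, 2, 5, 1, 4],
    [0, 2, 3, 4, 1, 5],
    [0, 2, 5, 1, 3, 4],
    [0, 3, 2, 5, 1, 4],
    [0, 3, 5, 1, 2, 4]],
   [[0, 1, 4, 2, 5, 3],
    [0, 1, 3, 5, 4, 2],
    [0, 1, 5, 3, 2, 4],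
    [0, 3, 2, 5, 1, 4],
    [0, 3, 5, 1, 2, 4]],
   [[0, 2, 5, 4, 1, 3],
    [0, 3, 2, 5, 1, 4],
    [0, 1, 4, 5, 2, 3],
    [0, 1, 4, 2, 5, 3]],
   [[0, 2, 3, 1, 4, 5],
    [0, 1, 4, 5, 2, 3],
    [0, 3, 1, 2, 4, 5]],
   [[0, 3, 2, 5, 1, 4],
    [0, 3, 5, 1, 2, 4]],
   [[0, 1, 4, 2, 5, 3]],
   []]

theorem small6 : ∃ F : Finset (SimpleGraph (Fin 6)),
    IsHamCycleDifferentFamily F ∧ F.card = Nat.choose 6 2 :=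
  small_of_cert (by norm_num) (ps := ps6) (css := cs6) (by decide +kernel) (by decide +kernel)

/-- family for `n = 7` -/
def ps7 : List (List (Fin 7)) :=
  [[0, 1, 2, 3, 4, 5, 6],
   [1, 2, 3, 4, 5, 6, 0],
   [2, 3, 4, 5, 6, 0, 1],
   [3, 4, 5, 6, 0, 1, 2],
   [4, 5, 6, 0, 1, 2, 3],
   [5, 6, 0, 1, 2, 3, 4],
   [6, 0, 1, 2, 3, 4, 5],
   [2, 5, 4, 1, 0, 6, 3],
   [2, 6, 5, 4, 1, 0, 3],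
   [4, 0, 6, 3, 2, 1, 5],
   [4, 1, 0, 6, 3, 2, 5],
   [2, 4, 6, 0, 1, 5, 3],
   [4, 2, 1, 6, 0, 3, 5],
   [0, 3, 2, 6, 5, 4, 1],
   [0, 5, 4, 3, 2, 6, 1],
   [6, 2, 0, 5, 4, 3, 1],
   [6, 4, 3, 2, 0, 5, 1],
   [6, 1, 3, 4, 5, 2, 0],
   [6, 3, 2, 1, 5, 4, 0],
   [2, 0, 4, 5, 6, 1, 3],
   [4, 6, 2, 3, 1, 0, 5]]

/-- certificates for `n = 7` -/
def cs7 : List (List (List (Fin 7))) :=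
  [[[0, 1, 2, 3, 4, 5, 6],
    [0, 1, 2, 3, 4, 5, 6],
    [0, 1, 2, 3, 4, 5, 6],
    [0, 1, 2, 3, 4, 5, 6],
    [0, 1, 2, 3, 4, 5, 6],
    [0, 1, 2, 3, 4, 5, 6],
    [0, 1, 4, 3, 2, 5, 6],
    [0, 1, 4, 5, 6, 2, 3],
    [0, 1, 2, 3, 4, 5, 6],
    [0, 1, 4, 3, 2, 5, 6],
    [0, 1, 2, 3, 4, 5, 6],
    [0, 3, 5, 4, 2, 1, 6],
    [0, 1, 4, 5, 6, 2, 3],
    [0, 1, 6, 2, 3, 4, 5],
    [0, 1, 3, 4, 5, 6, 2],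
    [0, 1, 2, 3, 4, 6, 5],
    [0, 1, 6, 5, 4, 3, 2],
    [0, 1, 2, 3, 6, 5, 4],
    [0, 1, 6, 5, 4, 3, 2],
    [0, 1, 2, 3, 4, 6, 5]],
   [[0, 1, 2, 3, 4, 5, 6],
    [0, 1, 2, 3, 4, 5, 6],
    [0, 1, 2, 3, 4, 5, 6],
    [0, 1, 2, 3, 4, 5, 6],
    [0, 1, 2, 3, 4, 5, 6],
    [0, 1, 4, 3, 2, 5, 6],
    [0, 1, 4, 5, 6, 2, 3],
    [0, 4, 3, 2, 1, 5, 6],
    [0, 1, 4, 3, 2, 5, 6],
    [0, 1, 2, 3, 4, 5, 6],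
    [0, 3, 5, 4, 2, 1, 6],
    [0, 3, 2, 1, 4, 5, 6],
    [0, 5, 4, 3, 2, 1, 6],
    [0, 2, 1, 3, 4, 5, 6],
    [0, 5, 1, 2, 3, 4, 6],
    [0, 2, 1, 3, 4, 5, 6],
    [0, 4, 3, 2, 1, 5, 6],
    [0, 2, 3, 1, 6, 5, 4],
    [0, 1, 2, 3, 4, 6, 5]],
   [[0, 1, 2, 3, 4, 5, 6],
    [0, 1, 2, 3, 4, 5, 6],
    [0, 1, 2, 3, 4, 5, 6],
    [0, 1, 2, 3, 4, 5, 6],
    [0, 1, 4, 3, 2, 5, 6],
    [0, 1, 4, 5, 6, 2, 3],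
    [0, 1, 2, 3, 4, 5, 6],
    [0, 1, 4, 3, 2, 5, 6],
    [0, 1, 5, 3, 2, 4, 6],
    [0, 3, 5, 4, 2, 1, 6],
    [0, 1, 4, 5, 6, 2, 3],
    [0, 1, 6, 2, 3, 4, 5],
    [0, 1, 3, 4, 5, 6, 2],
    [0, 1, 5, 6, 4, 3, 2],
    [0, 1, 6, 5, 4, 3, 2],
    [0, 1, 2, 3, 4, 5, 6],
    [0, 1, 6, 5, 4, 3, 2],
    [0, 1, 3, 2, 6, 4, 5]],
   [[0, 1, 2, 3, 4, 5, 6],
    [0, 1, 2, 3, 4, 5, 6],
    [0, 1, 2, 3, 4, 5, 6],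
    [0, 1, 2, 5, 4, 3, 6],
    [0, 1, 2, 6, 5, 4, 3],
    [0, 1, 2, 3, 4, 5, 6],
    [0, 1, 4, 3, 2, 5, 6],
    [0, 1, 2, 4, 3, 5, 6],
    [0, 3, 5, 4, 2, 1, 6],
    [0, 1, 4, 5, 6, 2, 3],
    [0, 1, 2, 3, 4, 5, 6],
    [0, 1, 3, 4, 5, 6, 2],
    [0, 1, 2, 3, 4, 6, 5],
    [0, 2, 1, 3, 4, 5, 6],
    [0, 1, 2, 3, 4, 5, 6],
    [0, 2, 1, 3, 4, 5, 6],
    [0, 1, 2, 3, 4, 6, 5]],
   [[0, 1, 2, 3, 4, 5, 6],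
    [0, 1, 2, 3, 4, 5, 6],
    [0, 1, 4, 5, 2, 3, 6],
    [0, 1, 4, 5, 6, 2, 3],
    [0, 1, 2, 3, 6, 5, 4],
    [0, 1, 4, 5, 2, 3, 6],
    [0, 1, 2, 3, 5, 4, 6],
    [0, 3, 5, 4, 2, 1, 6],
    [0, 1, 4, 5, 6, 2, 3],
    [0, 1, 2, 3, 4, 5, 6],
    [0, 1, 2, 3, 4, 5, 6],
    [0, 1, 2, 3, 4, 6, 5],
    [0, 1, 2, 3, 4, 5, 6],
    [0, 1, 2, 3, 6, 5, 4],
    [0, 2, 3, 1, 6, 5, 4],
    [0, 1, 3, 2, 6, 4, 5]],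
   [[0, 1, 2, 3, 4, 5, 6],
    [0, 1, 4, 3, 2, 5, 6],
    [0, 1, 4, 5, 6, 2, 3],
    [0, 4, 3, 2, 1, 5, 6],
    [0, 1, 4, 3, 2, 5, 6],
    [0, 1, 2, 4, 3, 5, 6],
    [0, 1, 2, 4, 3, 5, 6],
    [0, 1, 4, 5, 6, 2, 3],
    [0, 1, 2, 3, 4, 5, 6],
    [0, 1, 2, 3, 4, 5, 6],
    [0, 1, 2, 3, 4, 6, 5],
    [0, 1, 2, 3, 4, 5, 6],
    [0, 1, 2, 3, 4, 5, 6],
    [0, 1, 2, 3, 4, 5, 6],
    [0, 1, 2, 3, 4, 6, 5]],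
   [[0, 1, 4, 5, 2, 3, 6],
    [0, 1, 4, 5, 6, 2, 3],
    [0, 4, 5, 1, 2, 3, 6],
    [0, 1, 4, 5, 2, 3, 6],
    [0, 1, 2, 3, 5, 4, 6],
    [0, 3, 5, 4, 2, 1, 6],
    [0, 1, 4, 5, 6, 2, 3],
    [0, 1, 6, 2, 3, 4, 5],
    [0, 5, 4, 3, 1, 2, 6],
    [0, 5, 1, 2, 3, 4, 6],
    [0, 2, 5, 4, 3, 1, 6],
    [0, 4, 5, 1, 2, 3, 6],
    [0, 1, 2, 3, 4, 5, 6],
    [0, 1, 3, 2, 6, 4, 5]],
   [[0, 1, 4, 5, 2, 6, 3],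
    [0, 1, 4, 5, 2, 3, 6],
    [0, 1, 4, 5, 2, 3, 6],
    [0, 1, 4, 2, 5, 3, 6],
    [0, 3, 5, 4, 2, 1, 6],
    [0, 1, 4, 5, 2, 3, 6],
    [0, 1, 4, 3, 6, 2, 5],
    [0, 1, 4, 3, 6, 2, 5],
    [0, 1, 4, 6, 3, 2, 5],
    [0, 1, 6, 3, 4, 5, 2],
    [0, 1, 4, 5, 2, 3, 6],
    [0, 2, 5, 4, 1, 3, 6],
    [0, 1, 4, 6, 3, 2, 5]],
   [[0, 1, 4, 5, 6, 2, 3],
    [0, 1, 4, 5, 2, 3, 6],
    [0, 1, 4, 2, 6, 5, 3],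
    [0, 1, 4, 2, 6, 5, 3],
    [0, 1, 4, 5, 6, 2, 3],
    [0, 1, 4, 3, 2, 6, 5],
    [0, 1, 3, 4, 5, 6, 2],
    [0, 1, 4, 3, 2, 6, 5],
    [0, 1, 6, 2, 5, 4, 3],
    [0, 1, 4, 5, 6, 2, 3],
    [0, 2, 6, 5, 4, 1, 3],
    [0, 1, 4, 5, 6, 2, 3]],
   [[0, 4, 1, 5, 2, 3, 6],
    [0, 1, 5, 3, 2, 4, 6],
    [0, 4, 2, 3, 5, 1, 6],
    [0, 3, 2, 1, 4, 5, 6],
    [0, 4, 3, 2, 6, 1, 5],
    [0, 2, 1, 5, 4, 3, 6],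
    [0, 4, 6, 3, 2, 1, 5],
    [0, 2, 3, 4, 5, 1, 6],
    [0, 4, 5, 1, 2, 3, 6],
    [0, 2, 3, 6, 1, 5, 4],
    [0, 4, 6, 2, 3, 1, 5]],
   [[0, 1, 4, 2, 5, 3, 6],
    [0, 3, 5, 2, 4, 1, 6],
    [0, 1, 4, 5, 2, 3, 6],
    [0, 1, 4, 3, 6, 2, 5],
    [0, 1, 4, 3, 6, 2, 5],
    [0, 1, 4, 6, 3, 2, 5],
    [0, 1, 4, 5, 2, 3, 6],
    [0, 1, 4, 5, 2, 3, 6],
    [0, 1, 4, 5, 2, 3, 6],
    [0, 1, 4, 6, 3, 2, 5]],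
   [[0, 3, 5, 1, 2, 4, 6],
    [0, 1, 4, 5, 6, 2, 3],
    [0, 1, 5, 4, 3, 2, 6],
    [0, 1, 5, 3, 4, 6, 2],
    [0, 1, 5, 3, 2, 4, 6],
    [0, 1, 6, 4, 3, 5, 2],
    [0, 1, 2, 3, 5, 4, 6],
    [0, 1, 3, 5, 6, 4, 2],
    [0, 1, 5, 3, 2, 4, 6]],
   [[0, 3, 2, 1, 4, 5, 6],
    [0, 3, 5, 4, 2, 1, 6],
    [0, 3, 5, 4, 2, 1, 6],
    [0, 3, 2, 4, 6, 1, 5],
    [0, 3, 4, 5, 2, 1, 6],
    [0, 3, 2, 4, 5, 1, 6],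
    [0, 3, 5, 4, 2, 1, 6],
    [0, 1, 6, 4, 2, 3, 5]],
   [[0, 3, 2, 6, 1, 4, 5],
    [0, 2, 6, 5, 4, 1, 3],
    [0, 3, 2, 6, 4, 1, 5],
    [0, 2, 6, 5, 4, 1, 3],
    [0, 3, 2, 6, 5, 1, 4],
    [0, 2, 3, 1, 6, 5, 4],
    [0, 1, 4, 5, 6, 2, 3]],
   [[0, 2, 6, 1, 3, 4, 5],
    [0, 2, 3, 4, 6, 1, 5],
    [0, 2, 6, 1, 3, 4, 5],
    [0, 4, 3, 2, 6, 1, 5],
    [0, 2, 3, 1, 6, 5, 4],
    [0, 1, 6, 2, 3, 4, 5]],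
   [[0, 2, 6, 4, 3, 1, 5],
    [0, 2, 6, 1, 3, 4, 5],
    [0, 2, 6, 3, 1, 5, 4],
    [0, 2, 6, 1, 3, 4, 5],
    [0, 1, 3, 2, 6, 4, 5]],
   [[0, 2, 3, 4, 6, 1, 5],
    [0, 4, 6, 3, 2, 1, 5],
    [0, 2, 3, 4, 6, 1, 5],
    [0, 2, 6, 4, 3, 1, 5]],
   [[0, 2, 3, 6, 1, 5, 4],
    [0, 2, 5, 6, 1, 3, 4],
    [0, 1, 6, 4, 3, 2, 5]],
   [[0, 2, 3, 6, 1, 5, 4],
    [0, 1, 2, 3, 6, 4, 5]],
   [[0, 1, 3, 2, 6, 4, 5]],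
   []]

theorem small7 : ∃ F : Finset (SimpleGraph (Fin 7)),
    IsHamCycleDifferentFamily F ∧ F.card = Nat.choose 7 2 :=
  small_of_cert (by norm_num) (ps := ps7) (css := cs7) (by decide +kernel) (by decide +kernel)

/-- family for `n = 8` -/
def ps8 : List (List (Fin 8)) :=
  [[0, 1, 2, 3, 4, 5, 6, 7],
   [1, 2, 3, 4, 5, 6, 7, 0],
   [2, 3, 4, 5, 6, 7, 0, 1],
   [3, 4, 5, 6, 7, 0, 1, 2],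
   [4, 5, 6, 7, 0, 1, 2, 3],
   [5, 6, 7, 0, 1, 2, 3, 4],
   [6, 7, 0, 1, 2, 3, 4, 5],
   [7, 0, 1, 2, 3, 4, 5, 6],
   [0, 2, 4, 5, 6, 7, 3, 1],
   [0, 3, 2, 7, 6, 5, 4, 1],
   [0, 4, 3, 2, 7, 6, 5, 1],
   [0, 5, 4, 3, 2, 7, 6, 1],
   [0, 6, 5, 2, 3, 4, 7, 1],
   [2, 4, 6, 7, 0, 1, 5, 3],
   [2, 5, 4, 1, 0, 7, 6, 3],
   [2, 6, 5, 4, 1, 0, 7, 3],
   [2, 7, 6, 5, 4, 1, 0, 3],
   [2, 0, 7, 4, 5, 6, 1, 3],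
   [4, 6, 0, 1, 2, 3, 7, 5],
   [4, 7, 6, 3, 2, 1, 0, 5],
   [4, 0, 7, 6, 3, 2, 1, 5],
   [4, 1, 0, 7, 6, 3, 2, 5],
   [4, 2, 1, 6, 7, 0, 3, 5],
   [6, 0, 2, 3, 4, 5, 1, 7],
   [6, 1, 0, 5, 4, 3, 2, 7],
   [6, 2, 1, 0, 5, 4, 3, 7],
   [6, 3, 2, 1, 0, 5, 4, 7],
   [6, 4, 3, 0, 1, 2, 5, 7]]

/-- certificates for `n = 8` -/
def cs8 : List (List (List (Fin 8))) :=
  [[[0, 1, 2, 3, 4, 5, 6, 7],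
    [0, 1, 2, 3, 4, 5, 6, 7],
    [0, 1, 2, 3, 4, 5, 6, 7],
    [0, 1, 2, 3, 4, 5, 6, 7],
    [0, 1, 2, 3, 4, 5, 6, 7],
    [0, 1, 2, 3, 4, 5, 6, 7],
    [0, 1, 2, 3, 4, 5, 6, 7],
    [0, 1, 3, 7, 6, 5, 4, 2],
    [0, 1, 4, 5, 6, 7, 2, 3],
    [0, 1, 5, 6, 7, 2, 3, 4],
    [0, 1, 6, 7, 2, 3, 4, 5],
    [0, 1, 7, 4, 3, 2, 5, 6],
    [0, 1, 2, 3, 4, 5, 6, 7],
    [0, 1, 4, 3, 2, 5, 6, 7],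
    [0, 1, 4, 5, 6, 2, 3, 7],
    [0, 1, 4, 5, 6, 7, 2, 3],
    [0, 1, 2, 3, 4, 5, 6, 7],
    [0, 1, 2, 3, 4, 5, 7, 6],
    [0, 1, 2, 3, 4, 7, 6, 5],
    [0, 1, 2, 3, 4, 5, 6, 7],
    [0, 1, 4, 3, 2, 5, 6, 7],
    [0, 3, 5, 4, 2, 1, 6, 7],
    [0, 1, 7, 6, 5, 4, 3, 2],
    [0, 1, 6, 7, 2, 3, 4, 5],
    [0, 1, 2, 6, 7, 3, 4, 5],
    [0, 1, 2, 3, 4, 7, 6, 5],
    [0, 1, 2, 5, 7, 6, 4, 3]],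
   [[0, 1, 2, 3, 4, 5, 6, 7],
    [0, 1, 2, 3, 4, 5, 6, 7],
    [0, 1, 2, 3, 4, 5, 6, 7],
    [0, 1, 2, 3, 4, 5, 6, 7],
    [0, 1, 2, 3, 4, 5, 6, 7],
    [0, 1, 2, 3, 4, 5, 6, 7],
    [0, 2, 1, 3, 4, 5, 6, 7],
    [0, 3, 2, 1, 4, 5, 6, 7],
    [0, 4, 3, 2, 1, 5, 6, 7],
    [0, 5, 4, 3, 2, 1, 6, 7],
    [0, 6, 5, 4, 3, 2, 1, 7],
    [0, 1, 2, 3, 4, 5, 6, 7],
    [0, 1, 4, 3, 2, 5, 6, 7],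
    [0, 1, 4, 5, 6, 2, 3, 7],
    [0, 3, 2, 1, 4, 5, 6, 7],
    [0, 2, 3, 1, 6, 5, 4, 7],
    [0, 1, 2, 3, 4, 6, 5, 7],
    [0, 1, 2, 3, 4, 5, 6, 7],
    [0, 4, 3, 2, 1, 5, 6, 7],
    [0, 1, 4, 3, 2, 5, 6, 7],
    [0, 3, 5, 4, 2, 1, 6, 7],
    [0, 6, 5, 4, 3, 2, 1, 7],
    [0, 1, 2, 3, 4, 5, 6, 7],
    [0, 1, 2, 3, 4, 5, 6, 7],
    [0, 1, 2, 3, 4, 5, 6, 7],
    [0, 1, 2, 3, 4, 6, 5, 7]],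
   [[0, 1, 2, 3, 4, 5, 6, 7],
    [0, 1, 2, 3, 4, 5, 6, 7],
    [0, 1, 2, 3, 4, 5, 6, 7],
    [0, 1, 2, 3, 4, 5, 6, 7],
    [0, 1, 2, 3, 4, 5, 6, 7],
    [0, 1, 3, 2, 4, 5, 6, 7],
    [0, 1, 4, 5, 6, 7, 2, 3],
    [0, 1, 5, 6, 7, 2, 3, 4],
    [0, 1, 6, 7, 2, 3, 4, 5],
    [0, 1, 7, 4, 3, 2, 5, 6],
    [0, 1, 5, 3, 2, 4, 6, 7],
    [0, 1, 4, 3, 2, 5, 6, 7],
    [0, 1, 4, 5, 6, 2, 3, 7],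
    [0, 1, 4, 5, 6, 7, 2, 3],
    [0, 2, 3, 1, 6, 5, 4, 7],
    [0, 1, 2, 3, 4, 6, 5, 7],
    [0, 1, 2, 3, 4, 5, 6, 7],
    [0, 1, 2, 3, 4, 5, 6, 7],
    [0, 1, 4, 3, 2, 5, 6, 7],
    [0, 3, 5, 4, 2, 1, 6, 7],
    [0, 1, 7, 6, 5, 4, 3, 2],
    [0, 1, 6, 7, 2, 3, 4, 5],
    [0, 1, 2, 3, 4, 5, 6, 7],
    [0, 1, 2, 3, 4, 5, 6, 7],
    [0, 1, 2, 3, 4, 6, 5, 7]],
   [[0, 1, 2, 3, 4, 5, 6, 7],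
    [0, 1, 2, 3, 4, 5, 6, 7],
    [0, 1, 2, 3, 4, 5, 6, 7],
    [0, 1, 2, 3, 4, 5, 6, 7],
    [0, 1, 3, 7, 6, 5, 4, 2],
    [0, 3, 2, 1, 4, 5, 6, 7],
    [0, 1, 2, 3, 4, 5, 6, 7],
    [0, 1, 2, 3, 4, 5, 6, 7],
    [0, 6, 5, 4, 3, 2, 1, 7],
    [0, 1, 2, 4, 3, 5, 6, 7],
    [0, 1, 2, 5, 4, 3, 6, 7],
    [0, 1, 2, 6, 5, 4, 3, 7],
    [0, 1, 2, 7, 6, 5, 4, 3],
    [0, 2, 1, 3, 4, 5, 6, 7],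
    [0, 1, 2, 3, 4, 6, 5, 7],
    [0, 1, 2, 3, 4, 5, 6, 7],
    [0, 1, 2, 3, 4, 5, 6, 7],
    [0, 1, 4, 3, 2, 5, 6, 7],
    [0, 3, 5, 4, 2, 1, 6, 7],
    [0, 6, 5, 4, 3, 2, 1, 7],
    [0, 1, 2, 3, 4, 5, 6, 7],
    [0, 1, 2, 6, 7, 3, 4, 5],
    [0, 1, 2, 3, 4, 5, 6, 7],
    [0, 1, 2, 5, 7, 6, 4, 3]],
   [[0, 1, 2, 3, 4, 5, 6, 7],
    [0, 1, 2, 3, 4, 5, 6, 7],
    [0, 1, 2, 3, 4, 5, 6, 7],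
    [0, 1, 3, 2, 4, 5, 6, 7],
    [0, 3, 2, 1, 4, 5, 6, 7],
    [0, 1, 2, 3, 4, 5, 6, 7],
    [0, 1, 2, 3, 4, 5, 6, 7],
    [0, 6, 5, 4, 3, 2, 1, 7],
    [0, 1, 2, 3, 5, 4, 6, 7],
    [0, 1, 4, 5, 2, 3, 6, 7],
    [0, 1, 4, 5, 6, 2, 3, 7],
    [0, 3, 2, 1, 4, 5, 6, 7],
    [0, 2, 3, 1, 6, 5, 4, 7],
    [0, 1, 2, 3, 7, 5, 4, 6],
    [0, 1, 2, 3, 6, 7, 4, 5],
    [0, 4, 5, 1, 2, 3, 6, 7],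
    [0, 1, 4, 5, 2, 3, 6, 7],
    [0, 3, 5, 4, 2, 1, 6, 7],
    [0, 6, 5, 4, 3, 2, 1, 7],
    [0, 1, 2, 3, 4, 5, 6, 7],
    [0, 1, 2, 3, 4, 5, 6, 7],
    [0, 1, 2, 3, 6, 7, 4, 5],
    [0, 1, 2, 3, 4, 6, 5, 7]],
   [[0, 1, 2, 3, 4, 5, 6, 7],
    [0, 1, 2, 3, 4, 5, 6, 7],
    [0, 1, 2, 3, 4, 5, 6, 7],
    [0, 3, 2, 1, 4, 5, 6, 7],
    [0, 1, 5, 6, 7, 2, 3, 4],
    [0, 1, 2, 3, 4, 5, 6, 7],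
    [0, 1, 7, 4, 3, 2, 5, 6],
    [0, 1, 2, 4, 3, 5, 6, 7],
    [0, 1, 4, 3, 2, 5, 6, 7],
    [0, 1, 4, 5, 6, 2, 3, 7],
    [0, 3, 2, 1, 4, 5, 6, 7],
    [0, 1, 2, 3, 4, 5, 6, 7],
    [0, 1, 2, 3, 4, 6, 5, 7],
    [0, 1, 2, 3, 4, 7, 6, 5],
    [0, 4, 3, 2, 1, 5, 6, 7],
    [0, 1, 4, 3, 2, 5, 6, 7],
    [0, 1, 2, 4, 3, 5, 6, 7],
    [0, 6, 5, 4, 3, 2, 1, 7],
    [0, 1, 2, 3, 4, 5, 6, 7],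
    [0, 1, 2, 3, 4, 5, 6, 7],
    [0, 1, 2, 3, 4, 5, 6, 7],
    [0, 1, 2, 3, 4, 6, 5, 7]],
   [[0, 1, 2, 3, 4, 5, 6, 7],
    [0, 1, 2, 3, 4, 5, 6, 7],
    [0, 3, 2, 1, 4, 5, 6, 7],
    [0, 1, 2, 3, 4, 5, 6, 7],
    [0, 1, 6, 7, 2, 3, 4, 5],
    [0, 6, 5, 4, 3, 2, 1, 7],
    [0, 1, 2, 3, 5, 4, 6, 7],
    [0, 1, 4, 5, 2, 3, 6, 7],
    [0, 1, 4, 5, 6, 2, 3, 7],
    [0, 3, 2, 1, 4, 5, 6, 7],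
    [0, 1, 2, 3, 4, 5, 6, 7],
    [0, 1, 2, 3, 4, 5, 7, 6],
    [0, 1, 2, 3, 6, 7, 4, 5],
    [0, 4, 5, 1, 2, 3, 6, 7],
    [0, 1, 4, 5, 2, 3, 6, 7],
    [0, 3, 5, 4, 2, 1, 6, 7],
    [0, 2, 3, 4, 5, 1, 7, 6],
    [0, 1, 6, 7, 2, 3, 4, 5],
    [0, 1, 2, 6, 7, 3, 4, 5],
    [0, 1, 2, 3, 6, 7, 4, 5],
    [0, 1, 2, 5, 7, 6, 4, 3]],
   [[0, 1, 2, 3, 4, 5, 6, 7],
    [0, 3, 2, 1, 4, 5, 6, 7],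
    [0, 1, 2, 3, 4, 5, 6, 7],
    [0, 1, 2, 3, 4, 5, 6, 7],
    [0, 6, 5, 4, 3, 2, 1, 7],
    [0, 1, 2, 3, 4, 5, 6, 7],
    [0, 1, 4, 3, 2, 5, 6, 7],
    [0, 1, 4, 5, 6, 2, 3, 7],
    [0, 3, 2, 1, 4, 5, 6, 7],
    [0, 2, 3, 1, 6, 5, 4, 7],
    [0, 1, 2, 3, 4, 6, 5, 7],
    [0, 1, 2, 3, 4, 5, 6, 7],
    [0, 1, 2, 3, 4, 5, 6, 7],
    [0, 1, 4, 3, 2, 5, 6, 7],
    [0, 3, 5, 4, 2, 1, 6, 7],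
    [0, 6, 5, 4, 3, 2, 1, 7],
    [0, 1, 6, 5, 4, 3, 2, 7],
    [0, 1, 2, 6, 5, 4, 3, 7],
    [0, 1, 2, 3, 6, 5, 4, 7],
    [0, 1, 2, 3, 4, 6, 5, 7]],
   [[0, 2, 7, 6, 5, 4, 1, 3],
    [0, 2, 7, 6, 5, 1, 3, 4],
    [0, 2, 7, 6, 1, 3, 4, 5],
    [0, 2, 3, 1, 7, 4, 5, 6],
    [0, 2, 4, 6, 5, 1, 3, 7],
    [0, 2, 5, 4, 1, 3, 6, 7],
    [0, 2, 6, 5, 4, 1, 3, 7],
    [0, 2, 7, 6, 5, 4, 1, 3],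
    [0, 2, 4, 5, 6, 1, 3, 7],
    [0, 2, 1, 3, 7, 5, 4, 6],
    [0, 2, 1, 3, 6, 7, 4, 5],
    [0, 2, 1, 3, 7, 6, 5, 4],
    [0, 2, 3, 1, 4, 5, 6, 7],
    [0, 2, 4, 5, 6, 1, 3, 7],
    [0, 2, 3, 4, 5, 1, 7, 6],
    [0, 2, 7, 6, 1, 3, 4, 5],
    [0, 1, 2, 6, 7, 3, 4, 5],
    [0, 2, 1, 3, 6, 7, 4, 5],
    [0, 1, 2, 5, 4, 6, 7, 3]],
   [[0, 3, 2, 7, 6, 5, 1, 4],
    [0, 3, 2, 7, 6, 1, 4, 5],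
    [0, 3, 4, 1, 7, 2, 5, 6],
    [0, 3, 2, 4, 1, 5, 6, 7],
    [0, 1, 4, 5, 2, 3, 6, 7],
    [0, 1, 4, 5, 6, 7, 2, 3],
    [0, 1, 4, 5, 6, 7, 2, 3],
    [0, 2, 3, 1, 4, 5, 6, 7],
    [0, 3, 2, 1, 4, 5, 7, 6],
    [0, 3, 2, 1, 4, 7, 6, 5],
    [0, 3, 2, 1, 4, 5, 6, 7],
    [0, 1, 4, 5, 2, 3, 6, 7],
    [0, 3, 2, 1, 4, 5, 6, 7],
    [0, 3, 2, 7, 1, 4, 5, 6],
    [0, 3, 2, 7, 6, 1, 4, 5],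
    [0, 3, 4, 1, 2, 7, 6, 5],
    [0, 3, 2, 1, 4, 7, 6, 5],
    [0, 1, 4, 6, 7, 5, 2, 3]],
   [[0, 4, 3, 2, 7, 6, 1, 5],
    [0, 4, 3, 2, 5, 1, 7, 6],
    [0, 1, 5, 6, 4, 3, 2, 7],
    [0, 1, 4, 3, 2, 5, 6, 7],
    [0, 1, 4, 5, 6, 2, 3, 7],
    [0, 3, 2, 7, 6, 5, 1, 4],
    [0, 2, 3, 4, 5, 1, 6, 7],
    [0, 1, 2, 3, 7, 5, 6, 4],
    [0, 1, 2, 3, 4, 7, 6, 5],
    [0, 4, 3, 2, 1, 5, 6, 7],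
    [0, 1, 4, 3, 2, 5, 6, 7],
    [0, 3, 4, 2, 1, 5, 6, 7],
    [0, 2, 3, 4, 5, 1, 7, 6],
    [0, 1, 5, 6, 7, 2, 3, 4],
    [0, 1, 2, 3, 7, 6, 5, 4],
    [0, 1, 2, 3, 4, 7, 6, 5],
    [0, 3, 2, 1, 5, 7, 6, 4]],
   [[0, 5, 4, 3, 2, 7, 1, 6],
    [0, 1, 5, 3, 2, 4, 6, 7],
    [0, 1, 4, 3, 6, 7, 2, 5],
    [0, 1, 4, 3, 2, 7, 6, 5],
    [0, 3, 2, 7, 6, 1, 4, 5],
    [0, 2, 3, 1, 6, 7, 4, 5],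
    [0, 1, 2, 3, 4, 6, 7, 5],
    [0, 1, 2, 3, 6, 7, 4, 5],
    [0, 4, 3, 2, 7, 6, 1, 5],
    [0, 1, 4, 3, 6, 7, 2, 5],
    [0, 3, 5, 4, 2, 1, 6, 7],
    [0, 2, 3, 4, 5, 1, 7, 6],
    [0, 1, 6, 7, 2, 3, 4, 5],
    [0, 1, 2, 6, 7, 3, 4, 5],
    [0, 1, 2, 3, 6, 7, 4, 5],
    [0, 3, 4, 6, 1, 2, 7, 5]],
   [[0, 6, 4, 3, 2, 5, 1, 7],
    [0, 6, 3, 2, 5, 4, 1, 7],
    [0, 6, 5, 2, 3, 4, 1, 7],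
    [0, 3, 4, 1, 7, 2, 5, 6],
    [0, 6, 1, 3, 2, 5, 4, 7],
    [0, 1, 7, 5, 2, 3, 4, 6],
    [0, 1, 7, 4, 3, 2, 5, 6],
    [0, 6, 5, 1, 2, 3, 4, 7],
    [0, 6, 5, 2, 3, 4, 1, 7],
    [0, 6, 1, 2, 5, 3, 4, 7],
    [0, 2, 3, 4, 7, 1, 5, 6],
    [0, 1, 7, 2, 3, 4, 5, 6],
    [0, 1, 7, 3, 4, 5, 2, 6],
    [0, 1, 7, 4, 3, 2, 5, 6],
    [0, 3, 4, 7, 1, 2, 5, 6]],
   [[0, 1, 4, 2, 5, 3, 6, 7],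
    [0, 1, 4, 2, 6, 5, 3, 7],
    [0, 1, 4, 2, 7, 6, 5, 3],
    [0, 1, 3, 5, 6, 7, 4, 2],
    [0, 6, 4, 2, 1, 5, 3, 7],
    [0, 1, 2, 4, 7, 6, 3, 5],
    [0, 1, 5, 3, 2, 4, 6, 7],
    [0, 1, 4, 2, 5, 3, 6, 7],
    [0, 3, 5, 1, 2, 4, 6, 7],
    [0, 6, 4, 2, 3, 5, 1, 7],
    [0, 1, 6, 4, 5, 3, 2, 7],
    [0, 1, 2, 6, 4, 5, 3, 7],
    [0, 1, 2, 3, 6, 7, 4, 5],
    [0, 3, 5, 1, 2, 4, 6, 7]],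
   [[0, 1, 4, 5, 2, 6, 3, 7],
    [0, 1, 4, 5, 2, 7, 6, 3],
    [0, 1, 3, 6, 7, 4, 5, 2],
    [0, 6, 3, 2, 1, 4, 5, 7],
    [0, 1, 4, 5, 2, 3, 6, 7],
    [0, 1, 4, 5, 2, 3, 6, 7],
    [0, 1, 4, 5, 2, 3, 6, 7],
    [0, 3, 5, 4, 2, 1, 6, 7],
    [0, 6, 3, 2, 5, 4, 1, 7],
    [0, 1, 4, 3, 6, 7, 2, 5],
    [0, 1, 4, 3, 7, 6, 2, 5],
    [0, 1, 4, 5, 2, 3, 6, 7],
    [0, 3, 6, 4, 1, 2, 5, 7]],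
   [[0, 1, 4, 5, 6, 2, 7, 3],
    [0, 1, 3, 7, 4, 5, 6, 2],
    [0, 6, 5, 4, 1, 2, 3, 7],
    [0, 1, 4, 5, 6, 2, 3, 7],
    [0, 1, 4, 5, 6, 2, 3, 7],
    [0, 1, 4, 5, 2, 3, 6, 7],
    [0, 1, 4, 2, 6, 5, 3, 7],
    [0, 6, 2, 3, 4, 5, 1, 7],
    [0, 1, 4, 3, 7, 2, 6, 5],
    [0, 1, 2, 6, 5, 4, 3, 7],
    [0, 1, 4, 5, 6, 2, 3, 7],
    [0, 1, 4, 6, 2, 5, 7, 3]],
   [[0, 2, 7, 6, 5, 4, 1, 3],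
    [0, 3, 2, 1, 4, 5, 7, 6],
    [0, 3, 2, 1, 4, 7, 6, 5],
    [0, 3, 2, 1, 4, 5, 6, 7],
    [0, 1, 4, 5, 2, 3, 6, 7],
    [0, 3, 5, 4, 2, 1, 6, 7],
    [0, 3, 2, 7, 1, 4, 5, 6],
    [0, 3, 2, 7, 6, 1, 4, 5],
    [0, 3, 4, 1, 2, 7, 6, 5],
    [0, 3, 2, 1, 4, 7, 6, 5],
    [0, 1, 2, 5, 7, 6, 4, 3]],
   [[0, 1, 2, 3, 7, 5, 4, 6],
    [0, 2, 3, 1, 6, 7, 4, 5],
    [0, 2, 3, 6, 1, 5, 4, 7],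
    [0, 1, 4, 5, 2, 3, 6, 7],
    [0, 3, 5, 4, 2, 1, 6, 7],
    [0, 2, 3, 4, 5, 6, 1, 7],
    [0, 1, 6, 5, 4, 3, 2, 7],
    [0, 1, 2, 6, 5, 4, 3, 7],
    [0, 1, 2, 3, 6, 5, 4, 7],
    [0, 3, 4, 6, 1, 2, 5, 7]],
   [[0, 1, 2, 3, 6, 4, 7, 5],
    [0, 4, 6, 3, 2, 1, 5, 7],
    [0, 1, 4, 6, 3, 2, 5, 7],
    [0, 1, 2, 4, 6, 7, 5, 3],
    [0, 1, 2, 3, 7, 5, 4, 6],
    [0, 1, 2, 3, 7, 5, 4, 6],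
    [0, 1, 2, 3, 7, 5, 4, 6],
    [0, 1, 2, 3, 7, 5, 4, 6],
    [0, 1, 2, 5, 7, 3, 4, 6]],
   [[0, 4, 7, 6, 3, 2, 1, 5],
    [0, 1, 4, 7, 6, 3, 2, 5],
    [0, 1, 2, 4, 7, 6, 3, 5],
    [0, 1, 2, 3, 6, 7, 4, 5],
    [0, 1, 2, 3, 6, 7, 4, 5],
    [0, 1, 2, 3, 6, 7, 4, 5],
    [0, 1, 2, 3, 6, 7, 4, 5],
    [0, 1, 2, 3, 4, 6, 7, 5]],
   [[0, 4, 1, 5, 2, 3, 6, 7],
    [0, 4, 2, 3, 5, 1, 6, 7],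
    [0, 2, 3, 4, 5, 1, 7, 6],
    [0, 1, 2, 7, 6, 3, 4, 5],
    [0, 1, 2, 6, 7, 3, 4, 5],
    [0, 1, 2, 3, 6, 7, 4, 5],
    [0, 3, 2, 1, 5, 7, 6, 4]],
   [[0, 3, 5, 2, 4, 1, 6, 7],
    [0, 6, 3, 2, 5, 4, 1, 7],
    [0, 1, 4, 3, 6, 7, 2, 5],
    [0, 1, 4, 3, 7, 6, 2, 5],
    [0, 1, 4, 5, 2, 3, 6, 7],
    [0, 3, 6, 4, 1, 2, 5, 7]],
   [[0, 3, 2, 4, 5, 1, 7, 6],
    [0, 3, 5, 4, 2, 1, 6, 7],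
    [0, 3, 7, 6, 1, 2, 4, 5],
    [0, 3, 2, 1, 6, 7, 4, 5],
    [0, 3, 4, 6, 1, 2, 5, 7]],
   [[0, 5, 4, 3, 2, 7, 1, 6],
    [0, 5, 4, 3, 7, 1, 2, 6],
    [0, 5, 4, 7, 1, 2, 3, 6],
    [0, 3, 2, 1, 7, 5, 4, 6]],
   [[0, 1, 6, 2, 7, 3, 4, 5],
    [0, 1, 6, 3, 2, 7, 4, 5],
    [0, 3, 4, 6, 1, 2, 7, 5]],
   [[0, 1, 2, 6, 3, 7, 4, 5],
    [0, 1, 2, 6, 4, 3, 7, 5]],
   [[0, 1, 2, 3, 6, 4, 7, 5]],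
   []]

theorem small8 : ∃ F : Finset (SimpleGraph (Fin 8)),
    IsHamCycleDifferentFamily F ∧ F.card = Nat.choose 8 2 :=
  small_of_cert (by norm_num) (ps := ps8) (css := cs8) (by decide +kernel) (by decide +kernel)

end Pool.Agent.Work.MP_6b8b27_co
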